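import Pool.Agent.J4H11.SC.LocS3

/-!
# The local condition for covers with full symmetric monodromy: conclusion
-/

set_option autoImplicit false

open Finset Pool.Agent.J4H11.RC Pool.Agent.J4H11.GC Pool.Agent.H901R3.MS WeierstrassCurve

namespace Pool.Agent.J4H11.SC

section
variable {r : ℕ} (i : Fin r) (a b : Fin r → ℤ)
  (Φ : Polynomial (MvPolynomial (Fin r × Fin 2) ℤ)) (hΦ : Φ.Monic) (d : ℕ) (hd : 2 ≤ d)
  (hΦd : Φ.natDegree = d)

open Classical in
include hΦ in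
theorem good_card {p : ℕ} [Fact p.Prime] (x' y' : Bi i → ZMod p)
    [Fintype (Pt (a i : ZMod p) (b i : ZMod p))]
    (K : Type) [Field K] [Algebra (ZMod p) K] (hD : Disc (a i : ZMod p) (b i : ZMod p))
    (xS yS : K) (h1 : yS ^ 2 = xS ^ 3 + ((a i : ℤ) : K) * xS + ((b i : ℤ) : K))
    (h2 : MvPolynomial.aeval (pv (RC.ext i (fun j => algebraMap (ZMod p) K (x' j)) xS)
      (RC.ext i (fun j => algebraMap (ZMod p) K (y' j)) yS)) Φ.discr = 0)
    (h3 : MvPolynomial.aeval (pv (RC.ext i (fun j => algebraMap (ZMod p) K (x' j)) xS)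
      (RC.ext i (fun j => algebraMap (ZMod p) K (y' j)) yS)) (Wp i a Φ.discr) ≠ 0) :
    (univ.filter (fun R => ¬ GoodR i a b Φ x' y' R)).card ≤ 8 * Φ.discr.totalDegree + 7 := by
  set G := MvPolynomial.C 1 * spec i Φ.discr x' y' with hG
  have hz : SimpleZero ((a i : ℤ) : ZMod p) ((b i : ℤ) : ZMod p) G xS yS :=
    simpleZero_spec i a b Φ.discr x' y' xS yS h1 h2 h3 1 one_ne_zero
  have hGD : G.totalDegree ≤ Φ.discr.totalDegree := by
    rw [hG, MvPolynomial.C_1, one_mul]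
    exact spec_deg i Φ.discr x' y'
  obtain ⟨hfin, hc⟩ := gv_zeros G xS yS hz _ hGD
  rw [Set.ncard_eq_toFinset_card _ hfin] at hc
  refine le_trans ?_ hc
  refine card_le_card_of_injOn (fun h => emb K hD h) ?_ ?_
  · intro R hR
    rw [mem_coe, mem_filter] at hR
    rw [mem_coe, Set.Finite.mem_toFinset]
    show gv G (emb K hD R) = 0
    have hg0 : gv (K := ZMod p) G R = 0 := by
      by_cases hR0 : R = 0
      · rw [hR0]
        rfl
      · have hns : ¬ SepAt i Φ x' y' R := fun h => hR.2 ⟨hR0, h⟩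
        by_contra hne
        apply hns
        unfold SepAt
        apply discr_ne _ (hΦ.map _)
        rw [discr_map _ _ hΦ]
        rw [gv_crd G _ hR0, hG, MvPolynomial.C_1, one_mul, spec_eval] at hne
        simp only [Algebra.algebraMap_self, RingHom.id_apply] at hne
        exact hne
    rw [gv_emb, hg0, map_zero]
  · intro h _ h' _ he
    exact emb_inj hD he

theorem elim_at {k : Type} [Field k] (F : MvPolynomial (Fin r × Fin 2) ℤ)
    (Ψe : MvPolynomial (Bi i) ℤ) (hΨe : ElimP i a b F Ψe)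
    (K : Type) [Field K] [IsAlgClosed K] [Algebra k K] (x' y' : Bi i → k)
    (hcurve : ∀ j, y' j ^ 2 = x' j ^ 3 + ((a j : ℤ) : k) * x' j + ((b j : ℤ) : k))
    (hΨe0 : MvPolynomial.aeval x' Ψe ≠ 0) :
    ∃ xS yS : K, yS ^ 2 = xS ^ 3 + ((a i : ℤ) : K) * xS + ((b i : ℤ) : K) ∧
      MvPolynomial.aeval (pv (RC.ext i (fun j => algebraMap k K (x' j)) xS)
        (RC.ext i (fun j => algebraMap k K (y' j)) yS)) F = 0 ∧
      MvPolynomial.aeval (pv (RC.ext i (fun j => algebraMap k K (x' j)) xS)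
        (RC.ext i (fun j => algebraMap k K (y' j)) yS)) (Wp i a F) ≠ 0 := by
  refine hΨe K (fun j => algebraMap k K (x' j)) (fun j => algebraMap k K (y' j)) (fun j => ?_) ?_
  · have h4 := congrArg (algebraMap k K) (hcurve j)
    simp only [map_add, map_mul, map_pow, map_intCast] at h4
    exact h4
  · have h4 : MvPolynomial.aeval (fun j => algebraMap k K (x' j)) Ψe =
        algebraMap k K (MvPolynomial.aeval x' Ψe) := by
      have h5 : (MvPolynomial.aeval (fun j => algebraMap k K (x' j)) :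
          MvPolynomial (Bi i) ℤ →ₐ[ℤ] K).toRingHom =
          (algebraMap k K).comp
            (MvPolynomial.aeval x' : MvPolynomial (Bi i) ℤ →ₐ[ℤ] _).toRingHom := by
        apply MvPolynomial.ringHom_ext
        · intro m
          simp
        · intro j
          simp
      exact congrArg (fun g : MvPolynomial (Bi i) ℤ →+* K => g Ψe) h5
    rw [h4]
    exact (map_ne_zero _).2 hΨe0

include hΦ hd hΦd in
theorem loc_sym (Ψ : Fin 4 → MvPolynomial (Bi i) ℤ) (m : Fin 4 → ℕ) (Cst : Fin 4 → ℝ)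
    (hC : ∀ t, 0 ≤ Cst t)
    (hF1 : FamP i a b Φ d (Ψ 0) (m 0) (Cst 0) 1 1) (hF2 : FamP i a b Φ d (Ψ 1) (m 1) (Cst 1) 2 2)
    (hF3 : FamP i a b Φ d (Ψ 2) (m 2) (Cst 2) 1 0) (hF4 : FamP i a b Φ d (Ψ 3) (m 3) (Cst 3) 2 0)
    (Ψe : MvPolynomial (Bi i) ℤ) (hΨe : ElimP i a b Φ.discr Ψe) (κ : ℝ) (hκ : 0 < κ) :
    ∃ T0 : ℕ, ∀ p : ℕ, T0 ≤ p → ∀ (_ : Fact p.Prime), Disc (a i : ZMod p) (b i : ZMod p) →
      LocOK i a b ((∏ t, Ψ t) * Ψe) (2 * d) κ p (symS a b Φ p) := by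
  classical
  set β : ℕ := 3 * (m 0 + m 1 + m 2 + m 3) + 5 with hβ
  set Z : ℕ := 8 * Φ.discr.totalDegree + 7 with hZdef
  set Cs : ℝ := Cst 0 + Cst 1 + Cst 2 + Cst 3 with hCs
  have hCs0 : 0 ≤ Cs := by
    have := hC 0
    have := hC 1
    have := hC 2
    have := hC 3
    rw [hCs]
    linarith
  obtain ⟨T1, hT1⟩ := asy_loc (4 * ((β : ℝ) * (d : ℝ) ^ 4)) (4 * (Cs + 3 * (d : ℝ) ^ 4 * Z + 3))
    (2 * (d + 1)) (2 * (d * Z)) κ (by positivity) (by positivity) (by positivity) hκ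
  refine ⟨max T1 ((β + 2) ^ 2 + 3), fun p hp hpp hDp => ?_⟩
  have hp1 : T1 ≤ p := (le_max_left _ _).trans hp
  have hp2' : (β + 2) ^ 2 + 3 ≤ p := (le_max_right _ _).trans hp
  have hp2 : p ≠ 2 := by
    have : 0 ≤ (β + 2) ^ 2 := Nat.zero_le _
    omega
  intro Q hQ hQΨ H P0 hH
  set x' : Bi i → ZMod p := fun j => (crd (Q j)).1 with hx'
  set y' : Bi i → ZMod p := fun j => (crd (Q j)).2 with hy'
  have hcurve : ∀ j, y' j ^ 2 = x' j ^ 3 + (a j : ZMod p) * x' j + (b j : ZMod p) := fun j =>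
    crd_eqn _ (hQ j j.2)
  rw [map_mul, map_prod] at hQΨ
  have hΨe0 : MvPolynomial.aeval x' Ψe ≠ 0 := right_ne_zero_of_mul hQΨ
  have hΨt : ∀ t, MvPolynomial.aeval x' (Ψ t) ≠ 0 := fun t =>
    (Finset.prod_ne_zero_iff.1 (left_ne_zero_of_mul hQΨ)) t (mem_univ t)
  have hfin : Finite (Pt (a i : ZMod p) (b i : ZMod p)) := finite_pt _ _
  let _ := Fintype.ofFinite (Pt (a i : ZMod p) (b i : ZMod p))
  obtain ⟨xS, yS, h1, h2, h3⟩ := elim_at i a b Φ.discr Ψe hΨe (AlgebraicClosure (ZMod p)) x' y'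
    hcurve hΨe0
  have hZ := good_card i a b Φ hΦ x' y' (AlgebraicClosure (ZMod p)) hDp xS yS h1 h2 h3
  have hhasse := abs_le.1 (hasse hDp hp2)
  rw [Nat.card_eq_fintype_card] at hhasse
  set E : ℝ := (Fintype.card (Pt (a i : ZMod p) (b i : ZMod p)) : ℝ) with hE
  have hpR : (1 : ℝ) ≤ p := by exact_mod_cast hpp.out.one_le
  set s : ℝ := √(p : ℝ) with hs
  have hs1 : 1 ≤ s := by rw [hs]; exact Real.one_le_sqrt.2 hpR
  have hss : s * s = p := Real.mul_self_sqrt (by linarith)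
  have hbig : β < Fintype.card (Pt (a i : ZMod p) (b i : ZMod p)) := by
    have e1 : ((β : ℝ) + 2) ^ 2 ≤ p := by
      have : (β + 2) ^ 2 ≤ p := by omega
      exact_mod_cast this
    have e2 : (β : ℝ) + 2 ≤ s := Real.le_sqrt_of_sq_le e1
    have e3 : (β : ℝ) < E := by
      have e4 : ((β : ℝ) + 1) ^ 2 ≤ (s - 1) ^ 2 :=
        pow_le_pow_left₀ (by positivity) (by linarith) 2
      have e5 : (0 : ℝ) ≤ β := Nat.cast_nonneg _
      nlinarith [hhasse.1]
    rw [hE] at e3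
    exact_mod_cast e3
  set ε : ℝ := Cs * s + 3 * (d : ℝ) ^ 4 * Z + 2 * s + 1 with hε
  have hE4 : E ≤ 4 * p := by nlinarith [hhasse.2]
  have hε4 : ε ≤ (Cs + 3 * (d : ℝ) ^ 4 * Z + 3) * s := by
    have : 0 ≤ 3 * (d : ℝ) ^ 4 * Z := by positivity
    rw [hε]
    nlinarith
  have hd1 : (2 : ℝ) ≤ d := by exact_mod_cast hd
  have key := coset_sym i a b Φ hΦ d hd hΦd x' y' Ψ m Cst hC hF1 hF2 hF3 hF4 hcurve hDp hp2 hΨt Z
    hZ hbig ε hε H P0
  set q : ℕ := Nat.card H with hq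
  have hHcard : (univ.filter (· ∈ H)).card = q := by
    rw [hq, Nat.card_eq_fintype_card, Fintype.card_subtype]
  rw [hHcard] at key
  have hq0 : (0 : ℝ) ≤ q := Nat.cast_nonneg _
  have has := hT1 p hp1 q hH
  have hsq : √((β : ℝ) * (d : ℝ) ^ 4 * E + q * (4 * ε)) ≤
      √(4 * ((β : ℝ) * (d : ℝ) ^ 4) * p + q * (4 * (Cs + 3 * (d : ℝ) ^ 4 * Z + 3) * s)) := by
    apply Real.sqrt_le_sqrt
    have f1 : (β : ℝ) * (d : ℝ) ^ 4 * E ≤ (β : ℝ) * (d : ℝ) ^ 4 * (4 * p) :=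
      mul_le_mul_of_nonneg_left hE4 (by positivity)
    have f2 : (q : ℝ) * (4 * ε) ≤ q * (4 * ((Cs + 3 * (d : ℝ) ^ 4 * Z + 3) * s)) :=
      mul_le_mul_of_nonneg_left (by linarith) hq0
    linarith
  set T := univ.filter (fun h => h ∈ H ∧ (¬ GoodR i a b Φ x' y' (P0 + h) ∨
        1 ≤ NR i Φ x' y' (P0 + h))) with hT
  have hTc : 2 * (d : ℝ) * T.card ≤ (2 * d - 1) * q := by
    have f3 := mul_le_mul_of_nonneg_left hsq (by linarith : (0 : ℝ) ≤ 2 * (d + 1))
    have hTk : (d : ℝ) * (T.card : ℝ) ≤ (d - 1) * q +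
      (d + 1) * √((β : ℝ) * (d : ℝ) ^ 4 * E + q * (4 * ε)) + d * Z := key
    linarith
  have hsub : {h : Pt (a i : ZMod p) (b i : ZMod p) | h ∈ H ∧
        (P0 + h = 0 ∨ Function.update Q i (P0 + h) ∈ symS a b Φ p)} ⊆ (T : Set _) := by
    rintro h ⟨hh, h0⟩
    rw [mem_coe, hT, mem_filter]
    refine ⟨mem_univ _, hh, ?_⟩
    rcases h0 with h0 | ⟨w, hw⟩
    · left
      exact fun hg => hg.1 h0
    · right
      unfold NR
      have hev : evp (fun j => (crd (Function.update Q i (P0 + h) j)).1)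
          (fun j => (crd (Function.update Q i (P0 + h) j)).2) =
          evp (RC.ext i x' (crd (P0 + h)).1) (RC.ext i y' (crd (P0 + h)).2) := by
        unfold evp
        rw [pv_update]
      rw [hev] at hw
      have : Nonempty {w : ZMod p // (Φ.map (evp (RC.ext i x' (crd (P0 + h)).1)
          (RC.ext i y' (crd (P0 + h)).2))).IsRoot w} := ⟨⟨w, hw⟩⟩
      exact Nat.card_pos
  have h5 : {h : Pt (a i : ZMod p) (b i : ZMod p) | h ∈ H ∧
        (P0 + h = 0 ∨ Function.update Q i (P0 + h) ∈ symS a b Φ p)}.ncard ≤ T.card := by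
    rw [← Set.ncard_coe_finset]
    exact Set.ncard_le_ncard hsub (Finset.finite_toSet _)
  obtain ⟨d', hd'⟩ : ∃ d', 2 * d = d' + 1 := ⟨2 * d - 1, by omega⟩
  have h6 : (2 * d) * T.card ≤ (2 * d - 1) * q := by
    rw [hd', Nat.add_sub_cancel]
    have e1 : (2 : ℝ) * d = d' + 1 := by exact_mod_cast hd'
    rw [e1, add_sub_cancel_right] at hTc
    exact_mod_cast hTc
  exact (Nat.mul_le_mul_left _ h5).trans h6

end

end Pool.Agent.J4H11.SC
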