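import Pool.Agent.J4H11.SC.LocS4
import Pool.Agent.J4H11.GC.FinC

/-!
# Covers with full symmetric monodromy: assembly
-/

set_option autoImplicit false

open Polynomial Module Pool.Agent.J4H11.RC Pool.Agent.J4H11.GC Pool.Agent.H901R3.MS WeierstrassCurve

namespace Pool.Agent.J4H11.SC

theorem place_root {K k : Type} [Field K] [Field k] (v : Place K k) (g : v.A[X]) (hg : g.Monic)
    (w : K) (hw : eval₂ v.A.subtype w g = 0) :
    ∃ hw' : w ∈ v.A, (g.map v.ρ).IsRoot (v.ρ ⟨w, hw'⟩) := by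
  have hwA : w ∈ v.A := by
    by_contra hwn
    obtain ⟨h1, h2⟩ := v.inv_of_notMem w hwn
    have h3 : eval₂ v.A.subtype w⁻¹ g.reverse = 0 := by
      have hw0 : w ≠ 0 := by
        rintro rfl
        exact hwn v.A.zero_mem
      let _ : Invertible w := invertibleOfNonzero hw0
      have h4 := (eval₂_reverse_eq_zero_iff v.A.subtype w g).2 hw
      rwa [invOf_eq_inv] at h4
    have h5 : eval (⟨w⁻¹, h1⟩ : v.A) g.reverse = 0 := by
      apply Subtype.ext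
      have h6 := Polynomial.hom_eval₂ g.reverse (RingHom.id v.A) v.A.subtype (⟨w⁻¹, h1⟩ : v.A)
      rw [RingHom.comp_id] at h6
      exact h6.trans h3
    have h7 := congrArg v.ρ h5
    have h8 := Polynomial.hom_eval₂ g.reverse (RingHom.id v.A) v.ρ (⟨w⁻¹, h1⟩ : v.A)
    rw [RingHom.comp_id, h2] at h8
    have h9 : eval₂ v.ρ 0 g.reverse = 1 := by
      rw [eval₂_at_zero, coeff_zero_reverse, hg.leadingCoeff, map_one]
    rw [h9] at h8
    have h10 : v.ρ (eval (⟨w⁻¹, h1⟩ : v.A) g.reverse) = 1 := h8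
    rw [h10, map_zero] at h7
    exact one_ne_zero h7
  refine ⟨hwA, ?_⟩
  have h5 : eval (⟨w, hwA⟩ : v.A) g = 0 := by
    apply Subtype.ext
    have h6 := Polynomial.hom_eval₂ g (RingHom.id v.A) v.A.subtype (⟨w, hwA⟩ : v.A)
    rw [RingHom.comp_id] at h6
    exact h6.trans hw
  rw [IsRoot.def, eval_map]
  have h8 := Polynomial.hom_eval₂ g (RingHom.id v.A) v.ρ (⟨w, hwA⟩ : v.A)
  rw [RingHom.comp_id] at h8
  refine h8.symm.trans ?_
  have h9 := congrArg v.ρ h5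
  rw [map_zero] at h9
  exact h9

section
variable {r : ℕ} (i : Fin r) {a b : Fin r → ℤ}

/-- there is a rational point of the cover over `P`, or `P` is not affine -/
def LfS (Φ : (MvPolynomial (Fin r × Fin 2) ℤ)[X]) (P : (j : Fin r) → Pt (a j : ℚ) (b j : ℚ)) :
    Prop :=
  (∀ j, P j ≠ 0) → ∃ w : ℚ, (Φ.map (evp (fun j => (crd (P j)).1) (fun j => (crd (P j)).2))).IsRoot w

theorem lfs_red (Φ : (MvPolynomial (Fin r × Fin 2) ℤ)[X]) (hΦ : Φ.Monic)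
    {p : ℕ} [Fact p.Prime] (v : Place ℚ (ZMod p))
    (red : (j : Fin r) → Pt (a j : ℚ) (b j : ℚ) → Pt (a j : ZMod p) (b j : ZMod p))
    (hred : ∀ j, IsRed v (a j) (b j) (red j)) (P : (j : Fin r) → Pt (a j : ℚ) (b j : ℚ))
    (hP : LfS Φ P) (hne : ∀ j, red j (P j) ≠ 0) :
    (fun j => red j (P j)) ∈ symS a b Φ p := by
  have h1 := fun F => red_eval F v red hred P hne
  have hne' := (h1 0).1
  obtain ⟨w, hw⟩ := hP hne'
  have hx : ∀ j, (crd (P j)).1 ∈ v.A ∧ v.r (crd (P j)).1 = (crd (red j (P j))).1 := by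
    intro j
    obtain ⟨-, h2, h3⟩ := h1 (MvPolynomial.X (j, 0))
    rw [MvPolynomial.aeval_X] at h2 h3
    rw [MvPolynomial.aeval_X] at h3
    exact ⟨h2, h3⟩
  have hy : ∀ j, (crd (P j)).2 ∈ v.A ∧ v.r (crd (P j)).2 = (crd (red j (P j))).2 := by
    intro j
    obtain ⟨-, h2, h3⟩ := h1 (MvPolynomial.X (j, 1))
    rw [MvPolynomial.aeval_X] at h2 h3
    rw [MvPolynomial.aeval_X] at h3
    exact ⟨h2, h3⟩
  set xA : Fin r → v.A := fun j => ⟨(crd (P j)).1, (hx j).1⟩ with hxA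
  set yA : Fin r → v.A := fun j => ⟨(crd (P j)).2, (hy j).1⟩ with hyA
  set g : v.A[X] := Φ.map (evp xA yA) with hg
  have hg1 : g.map v.A.subtype = Φ.map (evp (fun j => (crd (P j)).1) (fun j => (crd (P j)).2)) := by
    rw [hg, Polynomial.map_map, evp_comp]
    rfl
  have hg2 : g.map v.ρ = Φ.map (evp (fun j => (crd (red j (P j))).1)
      (fun j => (crd (red j (P j))).2)) := by
    rw [hg, Polynomial.map_map, evp_comp]
    have e1 : (fun j => v.ρ (xA j)) = fun j => (crd (red j (P j))).1 := by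
      funext j
      rw [← (hx j).2, v.r_of (hx j).1]
    have e2 : (fun j => v.ρ (yA j)) = fun j => (crd (red j (P j))).2 := by
      funext j
      rw [← (hy j).2, v.r_of (hy j).1]
    rw [e1, e2]
  obtain ⟨hw', hr⟩ := place_root v g (hΦ.map _) w (by
    rw [← eval_map, hg1]
    exact hw)
  exact ⟨_, by rw [← hg2]; exact hr⟩

theorem main_sym (hD : ∀ j, Disc (a j : ℚ) (b j : ℚ))
    (hinf : ∀ j, Infinite (Pt (a j : ℚ) (b j : ℚ)))
    (hrk : 3 ≤ finrank ℤ (Pt (a i : ℚ) (b i : ℚ)))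
    (Φ : (MvPolynomial (Fin r × Fin 2) ℤ)[X]) (hΦ : Φ.Monic) (d : ℕ) (hd : 2 ≤ d)
    (hΦd : Φ.natDegree = d) (xb yb : Bi i → ℂ) (hxb : AlgebraicIndependent ℚ xb)
    (hyb : ∀ j, yb j ^ 2 = xb j ^ 3 + ((a j : ℤ) : ℂ) * xb j + ((b j : ℤ) : ℂ))
    (hGal : Nat.card (Φ.map (evp
      (RC.ext i (fun j => algebraMap ℂ (FFd (a i : ℂ) (b i : ℂ)) (xb j)) (gX (a i : ℂ) (b i : ℂ)))
      (RC.ext i (fun j => algebraMap ℂ (FFd (a i : ℂ) (b i : ℂ)) (yb j))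
        (gY (a i : ℂ) (b i : ℂ))))).Gal = d.factorial)
    {K : Type} [Field K] [CharZero K] (x y : Fin r → K)
    (hyc : ∀ j, y j ^ 2 = x j ^ 3 + (a j : K) * x j + (b j : K))
    (hF : MvPolynomial.aeval (pv x y) Φ.discr = 0)
    (hW : MvPolynomial.aeval (pv x y) (Wp i a Φ.discr) ≠ 0)
    (γ : ℝ) (hγ : 0 ≤ γ) (hγ1 : γ ≤ 1)
    (hγN : (1 - 1 / ((2 * d : ℕ) : ℝ)) * (1000 : ℝ) ^ (2 * γ) ≤ 1) :
    ∃ C : ℝ, 0 ≤ C ∧ ∀ (T : ℝ), 2 ≤ T → ∀ c : (j : Fin r) → Pt (a j : ℚ) (b j : ℚ),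
      {P : (j : Fin r) → Pt (a j : ℚ) (b j : ℚ) | (∀ j, hx (P j - c j) ≤ T ^ 2) ∧
        LfS Φ P}.Finite ∧
      ({P : (j : Fin r) → Pt (a j : ℚ) (b j : ℚ) | (∀ j, hx (P j - c j) ≤ T ^ 2) ∧
        LfS Φ P}.ncard : ℝ) ≤
        C * T ^ (∑ j, finrank ℤ (Pt (a j : ℚ) (b j : ℚ))) * Real.log T ^ (-γ) := by
  classical
  obtain ⟨Ω, _, _, _, x', y', g1, g2, g3, g4⟩ := generic_point i a b Φ.discr x y hyc hF hW
  obtain ⟨Ψe, hΨe0, hΨe⟩ := elim i a b Φ.discr x' y' g1 g2 g3 g4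
  have hΨe' : ElimP i a b Φ.discr Ψe := hΨe
  -- the simple zero over the very general point
  have hxbZ : AlgebraicIndependent ℤ xb := hxb.restrictScalars (algebraMap ℤ ℚ).injective_int
  have hxbe : MvPolynomial.aeval xb Ψe ≠ 0 := fun h0 =>
    hΨe0 ((injective_iff_map_eq_zero _).1 hxbZ Ψe h0)
  obtain ⟨xS, yS, s1, s2, s3⟩ := elim_at i a b Φ.discr Ψe hΨe' ℂ xb yb hyb hxbe
  have hz0 := simpleZero_spec (k := ℂ) i a b Φ.discr xb yb xS yS s1 s2 s3 1 one_ne_zero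
  have hz : SimpleZero (a i : ℂ) (b i : ℂ) (spec i Φ.discr xb yb) xS yS := by
    rw [MvPolynomial.C_1, one_mul] at hz0
    exact hz0
  have hDC : Disc (a i : ℂ) (b i : ℂ) := by
    have h1 := disc_map (K := ℂ) (hD i)
    simp only [map_intCast] at h1
    exact h1
  have hfam := fam2 i a b xb yb hxb hyb hDC Φ hΦ d hd hΦd hGal xS yS hz
  obtain ⟨Ψ1, m1, C1, p1, q1, f1⟩ := hfam 1 1 (by omega) (by omega)
  obtain ⟨Ψ2, m2, C2, p2, q2, f2⟩ := hfam 2 2 hd hd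
  obtain ⟨Ψ3, m3, C3, p3, q3, f3⟩ := hfam 1 0 (by omega) (by omega)
  obtain ⟨Ψ4, m4, C4, p4, q4, f4⟩ := hfam 2 0 hd (by omega)
  set Ψ : Fin 4 → MvPolynomial (Bi i) ℤ := ![Ψ1, Ψ2, Ψ3, Ψ4] with hΨ
  set m : Fin 4 → ℕ := ![m1, m2, m3, m4] with hm
  set Cst : Fin 4 → ℝ := ![C1, C2, C3, C4] with hCst
  have hΨ0 : (∏ t, Ψ t) * Ψe ≠ 0 := by
    refine mul_ne_zero (Finset.prod_ne_zero_iff.2 fun t _ => ?_) hΨe0
    fin_cases t
    · exact p1
    · exact p2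
    · exact p3
    · exact p4
  have hC : ∀ t, 0 ≤ Cst t := by
    intro t
    fin_cases t
    · exact q1
    · exact q2
    · exact q3
    · exact q4
  have hOb : Obst i a b ((∏ t, Ψ t) * Ψe) (2 * d) 1 0
      (fun (_ : Unit) (P : (j : Fin r) → Pt (a j : ℚ) (b j : ℚ)) => LfS Φ P) := by
    intro κ hκ
    obtain ⟨T0, hT0⟩ := loc_sym i a b Φ hΦ d hd hΦd Ψ m Cst hC f1 f2 f3 f4 Ψe hΨe' κ hκ
    refine ⟨max T0 ((2 * (4 * a i ^ 3 + 27 * b i ^ 2)).natAbs + 1), fun p hp hpp _ ld _ => ?_⟩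
    refine ⟨symS a b Φ p, ?_, ?_⟩
    · intro P hP hne
      exact lfs_red Φ hΦ ld.v (fun j => ld.red j) ld.hred P hP hne
    · refine hT0 p ((le_max_left _ _).trans hp) hpp ?_
      apply disc_int (a i) (b i) (hD i)
      have := (le_max_right _ _).trans hp
      omega
  obtain ⟨C, hC0, hball⟩ := ball_of_obst i hD hinf hrk 1 0 le_rfl (Nat.coprime_one_right 0)
    ((∏ t, Ψ t) * Ψe) hΨ0 (2 * d) (by omega)
    (fun (_ : Unit) (P : (j : Fin r) → Pt (a j : ℚ) (b j : ℚ)) => LfS Φ P) hOb γ hγ hγ1 hγN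
  exact ⟨C, hC0, fun T hT c => hball () T hT c⟩

end

end Pool.Agent.J4H11.SC
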