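import Pool.Agent.J4H11.SC.NS
import Pool.Agent.J4H11.RC.LocB

/-!
# The choice of the translation
-/

set_option autoImplicit false

open Polynomial Module Pool.Agent.J4H11.RC Pool.Agent.H901R3.MS WeierstrassCurve

namespace Pool.Agent.J4H11.SC

section
variable {k : Type} [Field k] [DecidableEq k] {a b : k}

theorem ns_group (hD : Disc a b) (G : MvPolynomial (Fin 2) k) (xS yS : k)
    (hz : SimpleZero a b G xS yS) (hS : (CV a b).toAffine.Nonsingular xS yS) (xh yh : k)
    (hh : (CV a b).toAffine.Nonsingular xh yh)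
    (h1 : gv G ((Affine.Point.some xS yS hS : Pt a b) - Affine.Point.some xh yh hh) ≠ 0)
    (h2 : gv G ((Affine.Point.some xh yh hh : Pt a b) - Affine.Point.some xS yS hS) ≠ 0)
    (h3 : gv G ((Affine.Point.some xh yh hh : Pt a b) + Affine.Point.some xh yh hh -
      Affine.Point.some xS yS hS) ≠ 0) (l X2 Y2 : FFd a b)
    (hl : l * (gX a b - algebraMap k _ xh) = gY a b - algebraMap k _ yh)
    (hX2 : X2 = l ^ 2 - gX a b - algebraMap k _ xh)
    (hY2 : Y2 = -(algebraMap k _ yh + l * (X2 - algebraMap k _ xh))) (w : FFd a b) :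
    w ^ 2 ≠ MvPolynomial.aeval ![gX a b, gY a b] G * MvPolynomial.aeval ![X2, Y2] G := by
  set S : Pt a b := Affine.Point.some xS yS hS with hSdef
  set H : Pt a b := Affine.Point.some xh yh hh with hHdef
  obtain ⟨S1, hS1⟩ : ∃ S1, S1 = S - H := ⟨_, rfl⟩
  rw [← hS1] at h1
  rcases S1 with _ | ⟨x1, y1, hs1⟩
  · exact absurd rfl h1
  rw [gv_some] at h1
  have hns1 : (CV a b).toAffine.Nonsingular x1 (-y1) := neg_nonsing hD hs1
  have hneg : H - S = Affine.Point.some x1 (-y1) hns1 := by
    rw [← neg_some' hs1 hns1, hS1]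
    abel
  have hne : x1 ≠ xh := by
    intro he
    have e1 := eqn_of hs1
    have e2 := eqn_of hh
    unfold Eqn at e1 e2
    have e3 : (y1 - yh) * (y1 + yh) = 0 := by
      rw [he] at e1
      linear_combination e1 - e2
    rcases mul_eq_zero.1 e3 with h | h
    · have hy : y1 = yh := sub_eq_zero.1 h
      have h4 : (Affine.Point.some x1 y1 hs1 : Pt a b) = H := by
        rw [hHdef]
        congr 1
      rw [h4] at hS1
      have h5 : H + H - S = 0 := by
        have h6 : S = H + H := by rw [eq_sub_iff_add_eq] at hS1; exact hS1.symm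
        rw [h6]; abel
      rw [h5] at h3
      exact h3 rfl
    · have hy : -y1 = yh := by linear_combination -h
      have h4 : (Affine.Point.some x1 (-y1) hns1 : Pt a b) = H := by
        rw [hHdef]
        congr 1
      rw [h4] at hneg
      have h5 : S = 0 := by
        have h6 : H = S + H := by rw [← sub_eq_iff_eq_add']; exact hneg
        exact left_eq_add.1 (by rw [add_comm]; exact h6)
      rw [hSdef] at h5
      cases h5
  obtain ⟨hs3, e3⟩ := add_ne hs1 hh hne _ _ _ rfl rfl rfl
  have e4 : (Affine.Point.some x1 y1 hs1 : Pt a b) + Affine.Point.some xh yh hh = S := by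
    rw [hS1, ← hHdef]
    abel
  rw [e4, hSdef] at e3
  have e5 : xS = ((y1 - yh) / (x1 - xh)) ^ 2 - x1 - xh ∧
      yS = -((y1 - yh) / (x1 - xh) * (((y1 - yh) / (x1 - xh)) ^ 2 - x1 - xh - x1) + y1) := by
    injection e3 with h5 h6
    exact ⟨h5, h6⟩
  rw [hneg, gv_some] at h2
  obtain ⟨hs4, e6⟩ := add_ne hns1 hh hne _ _ _ rfl rfl rfl
  have e7 : H + H - S = Affine.Point.some _ _ hs4 := by
    rw [← e6, ← hneg, ← hHdef]
    abel
  rw [e7, gv_some] at h3
  exact ns_two a b G xh yh (eqn_of hh) xS yS hz x1 y1 (eqn_of hs1) hne e5.1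
    (by rw [e5.2, e5.1]) h1 h2 _ _ rfl rfl h3 l X2 Y2 hl hX2 hY2 w

/-- the points of order two are finite in number -/
theorem two_tors (hD : Disc a b) : {T : Pt a b | T + T = 0}.Finite := by
  classical
  have h2 : (2 : k) ≠ 0 := by
    intro h0
    apply hD
    rw [h0, zero_mul]
  let f : Pt a b → Option (k × k) := fun P =>
    match P with
    | Affine.Point.zero => none
    | Affine.Point.some x y _ => some (x, y)
  have hinj : Function.Injective f := by
    rintro (_ | ⟨x, y, h⟩) (_ | ⟨x', y', h'⟩) he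
    · rfl
    · simp [f] at he
    · simp [f] at he
    · simp only [f, Option.some.injEq, Prod.mk.injEq] at he
      obtain ⟨rfl, rfl⟩ := he
      rfl
  have hcub : cub a b ≠ 0 := by
    intro h0
    have := cub_natDegree a b
    rw [h0, natDegree_zero] at this
    omega
  have himg : f '' {T | T + T = 0} ⊆
      insert none (some '' (((cub a b).roots.toFinset : Set k) ×ˢ ({0} : Set k))) := by
    rintro _ ⟨P, hP, rfl⟩
    rcases P with _ | ⟨x, y, h⟩
    · exact Set.mem_insert _ _
    · right
      have hP' : (Affine.Point.some x y h : Pt a b) = -Affine.Point.some x y h :=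
        eq_neg_of_add_eq_zero_left hP
      rw [neg_some' h (neg_nonsing hD h)] at hP'
      have hy : y = -y := by
        injection hP'
      have hy0 : y = 0 := by
        have h3 : 2 * y = 0 := by linear_combination hy
        rcases mul_eq_zero.1 h3 with h4 | h4
        · exact absurd h4 h2
        · exact h4
      have he := eqn_of h
      unfold Eqn at he
      refine ⟨(x, y), ⟨?_, hy0⟩, rfl⟩
      rw [Finset.mem_coe, Multiset.mem_toFinset, mem_roots hcub, IsRoot.def, ← coe_aeval_eq_eval,
        aeval_cub]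
      rw [hy0] at he
      change x ^ 3 + a * x + b = 0
      rw [← he]
      ring
  exact (((((Finset.finite_toSet _).prod (Set.finite_singleton _)).image _).insert _).subset
    himg).of_finite_image hinj.injOn

theorem bad_h (hD : Disc a b) (G : MvPolynomial (Fin 2) k) (xS yS : k)
    (hz : SimpleZero a b G xS yS) (hS : (CV a b).toAffine.Nonsingular xS yS) :
    {H : Pt a b | gv G ((Affine.Point.some xS yS hS : Pt a b) - H) = 0 ∨
      gv G (H - (Affine.Point.some xS yS hS : Pt a b)) = 0 ∨
      gv G (H + H - Affine.Point.some xS yS hS) = 0}.Finite := by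
  set S : Pt a b := Affine.Point.some xS yS hS with hSdef
  have hfin : {P : Pt a b | gv G P = 0}.Finite := (gv_zeros (K := k) G xS yS hz _ le_rfl).1
  have f1 : {H : Pt a b | gv G (S - H) = 0}.Finite :=
    hfin.preimage (f := fun H => S - H) (sub_right_injective.injOn)
  have f2 : {H : Pt a b | gv G (H - S) = 0}.Finite :=
    hfin.preimage (f := fun H => H - S) (sub_left_injective.injOn)
  have f3 : {H : Pt a b | gv G (H + H - S) = 0}.Finite := by
    refine Set.Finite.preimage' (f := fun H : Pt a b => H + H - S) hfin fun c _ => ?_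
    by_cases hne : ((fun H : Pt a b => H + H - S) ⁻¹' {c}).Nonempty
    · obtain ⟨H0, hH0⟩ := hne
      refine ((two_tors hD).preimage (f := fun H => H - H0) (sub_left_injective.injOn)).subset ?_
      intro H hH
      rw [Set.mem_preimage, Set.mem_singleton_iff] at hH0 hH
      change H - H0 + (H - H0) = 0
      have h4 : H - H0 + (H - H0) = (H + H - S) - (H0 + H0 - S) := by abel
      rw [h4, hH, hH0, sub_self]
    · rw [Set.not_nonempty_iff_eq_empty.1 hne]
      exact Set.finite_empty
  exact (f1.union (f2.union f3)).subset (fun H hH => hH)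

end

section
variable {a b : ℂ}

theorem choose_h (hD : Disc a b) (G : MvPolynomial (Fin 2) ℂ) (xS yS : ℂ)
    (hz : SimpleZero a b G xS yS) (C : Set ℂ) (hC : C.Countable) :
    ∃ xh yh : ℂ, xh ∉ C ∧ yh ^ 2 = xh ^ 3 + a * xh + b ∧ yh ≠ 0 ∧ ∀ (l X2 Y2 : FFd a b),
      l * (gX a b - algebraMap ℂ _ xh) = gY a b - algebraMap ℂ _ yh →
      X2 = l ^ 2 - gX a b - algebraMap ℂ _ xh →
      Y2 = -(algebraMap ℂ _ yh + l * (X2 - algebraMap ℂ _ xh)) → ∀ w : FFd a b,
      w ^ 2 ≠ MvPolynomial.aeval ![gX a b, gY a b] G * MvPolynomial.aeval ![X2, Y2] G := by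
  classical
  have hS : (CV a b).toAffine.Nonsingular xS yS := (nonsingular_iff hD).2 hz.1
  have hbad := bad_h hD G xS yS hz hS
  set Bad := {H : Pt a b | gv G ((Affine.Point.some xS yS hS : Pt a b) - H) = 0 ∨
      gv G (H - (Affine.Point.some xS yS hS : Pt a b)) = 0 ∨
      gv G (H + H - Affine.Point.some xS yS hS) = 0} with hBad
  have hcub : cub a b ≠ 0 := by
    intro h0
    have := cub_natDegree a b
    rw [h0, natDegree_zero] at this
    omega
  set E : Set ℂ := C ∪ ((cub a b).roots.toFinset ∪ (fun P : Pt a b => (crd P).1) '' Bad) with hE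
  have hEc : E.Countable :=
    hC.union (((Finset.finite_toSet _).union (hbad.image _)).countable)
  obtain ⟨xh, hxh⟩ : ∃ xh, xh ∉ E := by
    by_contra hcon
    push Not at hcon
    apply not_countable_complex
    have : (Set.univ : Set ℂ) = E := by
      ext x
      simp [hcon x]
    rw [this]
    exact hEc
  obtain ⟨yh, hyh⟩ : ∃ yh : ℂ, yh ^ 2 = xh ^ 3 + a * xh + b :=
    IsAlgClosed.exists_pow_nat_eq _ (by norm_num)
  have hh : (CV a b).toAffine.Nonsingular xh yh := (nonsingular_iff hD).2 hyh
  have hnb : (Affine.Point.some xh yh hh : Pt a b) ∉ Bad := fun h =>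
    hxh (Or.inr (Or.inr ⟨_, h, rfl⟩))
  have hy0 : yh ≠ 0 := by
    intro h0
    apply hxh
    right
    left
    rw [Finset.mem_coe, Multiset.mem_toFinset, mem_roots hcub, IsRoot.def, ← coe_aeval_eq_eval,
      aeval_cub]
    change xh ^ 3 + a * xh + b = 0
    rw [← hyh, h0]
    ring
  rw [hBad, Set.mem_setOf_eq, not_or, not_or] at hnb
  refine ⟨xh, yh, fun h => hxh (Or.inl h), hyh, hy0, ?_⟩
  intro l X2 Y2 hl hX2 hY2 w
  exact ns_group hD G xS yS hz hS xh yh hh hnb.1 hnb.2.1 hnb.2.2 l X2 Y2 hl hX2 hY2 w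

end

end Pool.Agent.J4H11.SC
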