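import Pool.Agent.J4H11.RC.Elim

/-!
# The ring of functions at a generic point
-/

set_option autoImplicit false

namespace Pool.Agent.J4H11.SC

open MvPolynomial Pool.Agent.J4H11.RC

section
variable {B : Type} {Ω : Type} [Field Ω]

/-- the homomorphism to the field of functions at a point -/
noncomputable def th (x y : B → Ω) : MvPolynomial (B × Fin 2) ℤ →+* Ω :=
  (aeval (pv x y) : MvPolynomial (B × Fin 2) ℤ →ₐ[ℤ] Ω).toRingHom

/-- the ring of functions at a point -/
abbrev AA (x y : B → Ω) : Type := (th x y).range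

variable [Fintype B] [DecidableEq B] [CharZero Ω] [Algebra ℚ Ω] (a b : B → ℤ) (x y : B → Ω)
  (hx : AlgebraicIndependent ℚ x)
  (hy : ∀ j, y j ^ 2 = x j ^ 3 + (a j : Ω) * x j + (b j : Ω))

include hx hy in
theorem th_hom {S : Type} [CommRing S] (x' y' : B → S)
    (hy' : ∀ j, y' j ^ 2 = x' j ^ 3 + (a j : S) * x' j + (b j : S)) :
    ∃ ψ : AA x y →+* S, ∀ H, ψ ((th x y).rangeRestrict H) = aeval (pv x' y') H := by
  set θ := th x y with hθ
  set θ' : MvPolynomial (B × Fin 2) ℤ →+* S := (aeval (pv x' y')).toRingHom with hθ'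
  have hker : RingHom.ker θ.rangeRestrict ≤ RingHom.ker θ' := by
    intro H hH
    rw [RingHom.mem_ker] at hH ⊢
    have h1 : aeval (pv x y) H = 0 := by
      have := congrArg Subtype.val hH
      exact this
    exact ker_lemma a b x y hx hy H h1 x' y' hy'
  obtain ⟨φ, hφ⟩ : ∃ φ : AA x y →+* S, φ.comp θ.rangeRestrict = θ' :=
    ⟨RingHom.liftOfSurjective θ.rangeRestrict θ.rangeRestrict_surjective ⟨θ', hker⟩,
      RingHom.liftOfRightInverse_comp _ _ _ _⟩
  exact ⟨φ, fun H => congrArg (fun g : MvPolynomial (B × Fin 2) ℤ →+* S => g H) hφ⟩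

omit [Fintype B] [DecidableEq B] [CharZero Ω] [Algebra ℚ Ω] in
include hy in
theorem th_elim (s : AA x y) (hs0 : s ≠ 0) : ∃ Ψ : MvPolynomial B ℤ, Ψ ≠ 0 ∧
    ∀ (K : Type) [Field K] (x' y' : B → K) (ψ : AA x y →+* K),
      (∀ H, ψ ((th x y).rangeRestrict H) = aeval (pv x' y') H) → aeval x' Ψ ≠ 0 → ψ s ≠ 0 := by
  classical
  set θ := th x y with hθ
  set κ : MvPolynomial B ℤ →+* MvPolynomial (B × Fin 2) ℤ :=
    (aeval (fun j => X (j, 0))).toRingHom with hκ
  set φP : MvPolynomial B ℤ →+* AA x y := θ.rangeRestrict.comp κ with hφP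
  have hφPv : ∀ Q, ((φP Q : AA x y) : Ω) = aeval x Q := by
    intro Q
    have h1 : ((th x y).range.subtype.comp φP) =
        (aeval x : MvPolynomial B ℤ →ₐ[ℤ] Ω).toRingHom := by
      apply MvPolynomial.ringHom_ext
      · intro n
        simp
      · intro j
        change aeval (pv x y) (aeval (fun j : B => (X (j, 0) : MvPolynomial (B × Fin 2) ℤ)) (X j)) =
          aeval x (X j)
        rw [aeval_X, aeval_X, aeval_X]
        rfl
    exact congrArg (fun g : MvPolynomial B ℤ →+* Ω => g Q) h1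
  let _ : Algebra (MvPolynomial B ℤ) (AA x y) := φP.toAlgebra
  have hsint : IsIntegral (MvPolynomial B ℤ) s := by
    obtain ⟨Q, hQ⟩ := θ.rangeRestrict_surjective s
    rw [← hQ]
    clear hQ
    induction Q using MvPolynomial.induction_on with
    | C n =>
      have : θ.rangeRestrict (C n) = algebraMap (MvPolynomial B ℤ) (AA x y) (C n) := by
        change _ = φP (C n)
        rw [hφP, RingHom.comp_apply, hκ]
        simp
      rw [this]
      exact isIntegral_algebraMap
    | add p q hp hq => rw [map_add]; exact hp.add hq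
    | mul_X p v hp =>
      rw [map_mul]
      refine hp.mul ?_
      obtain ⟨j, e⟩ := v
      fin_cases e
      · have : θ.rangeRestrict (X (j, 0)) = algebraMap (MvPolynomial B ℤ) (AA x y) (X j) := by
          change _ = φP (X j)
          rw [hφP, RingHom.comp_apply, hκ]
          simp
        change IsIntegral _ (θ.rangeRestrict (X (j, 0)))
        rw [this]
        exact isIntegral_algebraMap
      · change IsIntegral _ (θ.rangeRestrict (X (j, 1)))
        refine IsIntegral.of_pow (n := 2) (by norm_num) ?_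
        have : (θ.rangeRestrict (X (j, 1))) ^ 2 = algebraMap (MvPolynomial B ℤ) (AA x y)
            (cubj a b j) := by
          apply Subtype.ext
          change (θ (X (j, 1))) ^ 2 = ((φP _ : AA x y) : Ω)
          rw [hφPv, cubj]
          have h1 : θ (X (j, 1)) = y j := by simp [hθ, th, pv]
          rw [h1, hy j]
          simp
        rw [this]
        exact isIntegral_algebraMap
  obtain ⟨Ψ, hΨ0, t, hΨ⟩ : ∃ Ψ : MvPolynomial B ℤ, Ψ ≠ 0 ∧ ∃ t : AA x y, φP Ψ = s * t := by
    have h1 := Ideal.comap_ne_bot_of_integral_mem (I := Ideal.span {s}) hs0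
      (Ideal.mem_span_singleton_self s) hsint
    obtain ⟨Ψ, hΨ1, hΨ2⟩ := Submodule.exists_mem_ne_zero_of_ne_bot h1
    rw [Ideal.mem_comap, Ideal.mem_span_singleton] at hΨ1
    obtain ⟨t, ht⟩ := hΨ1
    exact ⟨Ψ, hΨ2, t, ht⟩
  refine ⟨Ψ, hΨ0, fun K _ x' y' φ hφ2 hΨK h0 => ?_⟩
  apply hΨK
  have h1 : φ (φP Ψ) = 0 := by rw [hΨ, map_mul, h0, zero_mul]
  have h2 : φ.comp φP = (aeval x' : MvPolynomial B ℤ →ₐ[ℤ] K).toRingHom := by
    apply MvPolynomial.ringHom_ext
    · intro n
      simp
    · intro j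
      change φ (θ.rangeRestrict (κ (X j))) = _
      rw [hφ2, hκ]
      simp [pv]
  have h3 := congrArg (fun g : MvPolynomial B ℤ →+* K => g Ψ) h2
  change φ (φP Ψ) = aeval x' Ψ at h3
  rw [← h3, h1]

end

theorem opt_split {B : Type} (Ψ : MvPolynomial (Option B) ℤ) (hΨ : Ψ ≠ 0) :
    ∃ (Ψ0 : MvPolynomial B ℤ) (m : ℕ), Ψ0 ≠ 0 ∧ ∀ (K : Type) [Field K] (x' : B → K),
      aeval x' Ψ0 ≠ 0 → ∃ S : Finset K, S.card ≤ m ∧
        ∀ x0 : K, x0 ∉ S → aeval (fun o : Option B => o.elim x0 x') Ψ ≠ 0 := by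
  classical
  set P := optionEquivLeft ℤ B Ψ with hP
  have hP0 : P ≠ 0 := by
    rw [hP, Ne, EmbeddingLike.map_eq_zero_iff]
    exact hΨ
  refine ⟨P.leadingCoeff, P.natDegree, Polynomial.leadingCoeff_ne_zero.2 hP0,
    fun K _ x' hx' => ?_⟩
  set g : MvPolynomial B ℤ →+* K := (aeval x').toRingHom with hg
  have hPg : P.map g ≠ 0 := by
    intro h0
    apply hx'
    have h1 := congrArg (fun q => q.coeff P.natDegree) h0
    simp only [Polynomial.coeff_map, Polynomial.coeff_zero] at h1
    exact h1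
  refine ⟨(P.map g).roots.toFinset, ?_, fun x0 hx0 h0 => ?_⟩
  · refine (Multiset.toFinset_card_le _).trans ((Polynomial.card_roots' _).trans ?_)
    exact Polynomial.natDegree_map_le
  · apply hx0
    rw [Multiset.mem_toFinset, Polynomial.mem_roots hPg, Polynomial.IsRoot.def]
    have h1 : (((Polynomial.evalRingHom x0).comp (Polynomial.mapRingHom g)).comp
        (optionEquivLeft ℤ B : MvPolynomial (Option B) ℤ ≃ₐ[ℤ] _).toRingHom) =
        (aeval (fun o : Option B => o.elim x0 x') : MvPolynomial (Option B) ℤ →ₐ[ℤ] K).toRingHom := by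
      apply MvPolynomial.ringHom_ext
      · intro n
        simp
      · rintro (_ | j)
        · simp [optionEquivLeft_X_none]
        · simp [optionEquivLeft_X_some, hg]
    have h2 := congrArg (fun g : MvPolynomial (Option B) ℤ →+* K => g Ψ) h1
    exact h2.trans h0

end Pool.Agent.J4H11.SC
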