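import Pool.Agent.J4H11.SC.F1

/-!
# Adjoining some roots of a monic polynomial
-/

set_option autoImplicit false

open Polynomial Module

namespace Pool.Agent.J4H11.SC

theorem freeRk_of_basis {R S : Type} [CommRing R] [CommRing S] [Algebra R S] {n : ℕ}
    (b : Basis (Fin n) R S) : FreeRk (algebraMap R S) n := by
  unfold FreeRk
  have h : (algebraMap R S).toAlgebra = (inferInstance : Algebra R S) :=
    Algebra.algebra_ext _ _ (fun r => rfl)
  rw [h]
  exact ⟨b⟩

theorem freeRk_id {R : Type} [CommRing R] : FreeRk (RingHom.id R) 1 :=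
  freeRk_of_basis (R := R) (S := R) (Basis.singleton (Fin 1) R)

theorem freeRk_adj {R : Type} [CommRing R] (g : R[X]) (hg : g.Monic) (d : ℕ)
    (hd : g.natDegree = d) : FreeRk (AdjoinRoot.of g) d := by
  have h1 := freeRk_of_basis ((AdjoinRoot.powerBasis' hg).basis.reindex
    (finCongr (show (AdjoinRoot.powerBasis' hg).dim = d by
      rw [AdjoinRoot.powerBasis'_dim, hd])))
  exact h1

theorem nontriv {R S : Type} [CommRing R] [Nontrivial R] [CommRing S] (f : R →+* S) {n : ℕ}
    (h : FreeRk f n) (hn : 0 < n) : Nontrivial S := by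
  let _ := f.toAlgebra
  obtain ⟨bas⟩ := h
  by_contra hcon
  rw [not_nontrivial_iff_subsingleton] at hcon
  have h1 : bas ⟨0, hn⟩ = 0 := Subsingleton.elim _ _
  exact bas.ne_zero ⟨0, hn⟩ h1

/-- **adjoining `n` roots** -/
theorem adj_roots (n : ℕ) : ∀ {S : Type} [CommRing S] [Nontrivial S] (g : S[X]) (_ : g.Monic)
    (d : ℕ) (_ : g.natDegree = d) (_ : n ≤ d),
    ∃ (S' : Type) (_ : CommRing S') (i : S →+* S'), FreeRk i (d.descFactorial n) ∧
    (∀ (L : Type) [Field L] (j : S →+* L) (θ : Fin n → L), Function.Injective θ →
      (∀ t, (g.map j).IsRoot (θ t)) → ∃ j' : S' →+* L, j'.comp i = j ∧ ∀ t, θ t ∈ Set.range j') ∧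
    (∀ (k : Type) [Field k] [Finite k] (φ : S →+* k), (g.map φ).Separable →
      Nat.card {φ' : S' →+* k // φ'.comp i = φ} =
        (Nat.card {w : k // (g.map φ).IsRoot w}).descFactorial n) := by
  induction n with
  | zero =>
    intro S _ _ g hg d hd _
    refine ⟨S, inferInstance, RingHom.id S, ?_, ?_, ?_⟩
    · rw [Nat.descFactorial_zero]
      exact freeRk_id
    · intro L _ j θ _ _
      exact ⟨j, RingHom.comp_id j, fun t => t.elim0⟩
    · intro k _ _ φ _
      rw [Nat.descFactorial_zero, Nat.card_eq_one_iff_unique]
      refine ⟨⟨fun x y => Subtype.ext ?_⟩, ⟨⟨φ, RingHom.comp_id φ⟩⟩⟩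
      have hx := x.2
      have hy := y.2
      rw [RingHom.comp_id] at hx hy
      rw [hx, hy]
  | succ n ih =>
    intro S _ _ g hg d hd hn
    obtain ⟨d', rfl⟩ : ∃ d', d = d' + 1 := ⟨d - 1, by omega⟩
    set S1 := AdjoinRoot g with hS1
    have hfree1 := freeRk_adj g hg (d' + 1) hd
    have hnt : Nontrivial S1 := nontriv (AdjoinRoot.of g) hfree1 (by omega)
    set θ0 : S1 := AdjoinRoot.root g with hθ0
    have hroot0 : (g.map (AdjoinRoot.of g)).IsRoot θ0 := AdjoinRoot.isRoot_root g
    obtain ⟨g1, hg1⟩ := dvd_iff_isRoot.2 hroot0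
    have hgm : (g.map (AdjoinRoot.of g)).Monic := hg.map _
    have hg1m : g1.Monic := by
      rw [hg1] at hgm
      exact (monic_X_sub_C θ0).of_mul_monic_left hgm
    have hg1d : g1.natDegree = d' := by
      have h1 := congrArg natDegree hg1
      rw [hg.natDegree_map, (monic_X_sub_C θ0).natDegree_mul hg1m, natDegree_X_sub_C, hd] at h1
      omega
    obtain ⟨S', _, i', hfree', hL', hk'⟩ := ih g1 hg1m d' hg1d (by omega)
    refine ⟨S', inferInstance, i'.comp (AdjoinRoot.of g), ?_, ?_, ?_⟩
    · rw [Nat.succ_descFactorial_succ]
      exact freeRk_comp hfree1 hfree'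
    · intro L _ j θ hθ hroot
      have h0 : eval₂ j (θ 0) g = 0 := by
        rw [← eval_map]
        exact hroot 0
      set j1 : S1 →+* L := AdjoinRoot.lift j (θ 0) h0 with hj1
      have hj1of : j1.comp (AdjoinRoot.of g) = j := RingHom.ext fun x => AdjoinRoot.lift_of h0
      have hj1r : j1 θ0 = θ 0 := AdjoinRoot.lift_root h0
      have hg1j : g.map j = (X - C (θ 0)) * g1.map j1 := by
        have h1 := congrArg (Polynomial.map j1) hg1
        rw [Polynomial.map_map, hj1of, Polynomial.map_mul, Polynomial.map_sub, map_X, map_C, hj1r]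
          at h1
        exact h1
      obtain ⟨j', hj', hj'r⟩ := hL' L j1 (fun t => θ t.succ)
        (fun t t' h => Fin.succ_injective _ (hθ h)) (by
          intro t
          have h1 := hroot t.succ
          rw [IsRoot.def, hg1j, eval_mul, mul_eq_zero] at h1
          rcases h1 with h1 | h1
          · rw [eval_sub, eval_X, eval_C, sub_eq_zero] at h1
            exact absurd (hθ h1) (Fin.succ_ne_zero t)
          · exact h1)
      refine ⟨j', ?_, ?_⟩
      · rw [← RingHom.comp_assoc, hj', hj1of]
      · intro t
        refine Fin.cases ?_ (fun t => hj'r t) t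
        refine ⟨i' θ0, ?_⟩
        rw [← RingHom.comp_apply, hj', hj1r]
    · intro k _ _ φ hsep
      have := Fintype.ofFinite k
      classical
      -- the homomorphisms of `S1`
      let e : {φ' : S' →+* k // φ'.comp (i'.comp (AdjoinRoot.of g)) = φ} ≃
          Σ w : {w : k // (g.map φ).IsRoot w}, {φ' : S' →+* k // φ'.comp i' =
            AdjoinRoot.lift φ w.1 (by rw [← eval_map]; exact w.2)} :=
        { toFun := fun φ' => ⟨⟨φ'.1 (i' θ0), by
              have h1 : φ'.1 (i' θ0) = (φ'.1.comp i') θ0 := rfl
              have h2 : (φ'.1.comp i').comp (AdjoinRoot.of g) = φ := by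
                rw [RingHom.comp_assoc]
                exact φ'.2
              have h3 : ((g.map (AdjoinRoot.of g)).map (φ'.1.comp i')).IsRoot
                  ((φ'.1.comp i') θ0) := hroot0.map
              have h4 : (g.map (AdjoinRoot.of g)).map (φ'.1.comp i') = g.map φ :=
                (Polynomial.map_map _ _ _).trans (congrArg (fun u => g.map u) h2)
              exact (congrArg (fun q => q.IsRoot (φ'.1 (i' θ0))) h4).mp h3⟩, φ'.1, by
              apply AdjoinRoot.ringHom_ext
              · refine RingHom.ext fun x => ?_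
                have h2 := DFunLike.congr_fun φ'.2 x
                change φ'.1 (i' (AdjoinRoot.of g x)) = _
                rw [RingHom.comp_apply, AdjoinRoot.lift_of]
                exact h2
              · rw [AdjoinRoot.lift_root]
                rfl⟩
          invFun := fun z => ⟨z.2.1, by
            rw [← RingHom.comp_assoc, z.2.2]
            refine RingHom.ext fun x => ?_
            rw [RingHom.comp_apply, AdjoinRoot.lift_of]⟩
          left_inv := fun φ' => rfl
          right_inv := by
            rintro ⟨⟨w, hw⟩, ⟨φ', hφ'⟩⟩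
            have h1 : φ' (i' θ0) = w := by
              have h2 := DFunLike.congr_fun hφ' θ0
              rw [RingHom.comp_apply, AdjoinRoot.lift_root] at h2
              exact h2
            subst h1
            rfl }
      rw [Nat.card_congr e]
      have hfin : ∀ w : {w : k // (g.map φ).IsRoot w}, Finite {φ' : S' →+* k // φ'.comp i' =
            AdjoinRoot.lift φ w.1 (by rw [← eval_map]; exact w.2)} := fun w =>
        (hom_le i' _ hfree' _).1
      rw [Nat.card_sigma]
      set N := Nat.card {w : k // (g.map φ).IsRoot w} with hN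
      have hcard : ∀ w : {w : k // (g.map φ).IsRoot w}, Nat.card {φ' : S' →+* k // φ'.comp i' =
            AdjoinRoot.lift φ w.1 (by rw [← eval_map]; exact w.2)} = (N - 1).descFactorial n := by
        intro w
        have hw : eval₂ φ w.1 g = 0 := by rw [← eval_map]; exact w.2
        set φ1 : S1 →+* k := AdjoinRoot.lift φ w.1 hw with hφ1
        have hφ1of : φ1.comp (AdjoinRoot.of g) = φ := RingHom.ext fun x => AdjoinRoot.lift_of hw
        have hφ1r : φ1 θ0 = w.1 := AdjoinRoot.lift_root hw
        have hg1φ : g.map φ = (X - C w.1) * g1.map φ1 := by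
          have h1 := congrArg (Polynomial.map φ1) hg1
          rw [Polynomial.map_map, hφ1of, Polynomial.map_mul, Polynomial.map_sub, map_X, map_C,
            hφ1r] at h1
          exact h1
        have hsep1 : (g1.map φ1).Separable := by
          rw [hg1φ] at hsep
          exact hsep.of_mul_right
        have hne : ¬ (g1.map φ1).IsRoot w.1 := by
          intro h1
          rw [hg1φ] at hsep
          have h2 := hsep.isCoprime
          obtain ⟨u, v, huv⟩ := h2
          have h3 := congrArg (Polynomial.eval w.1) huv
          rw [eval_add, eval_mul, eval_mul, eval_sub, eval_X, eval_C, sub_self, mul_zero,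
            h1.eq_zero, mul_zero, add_zero, eval_one] at h3
          exact zero_ne_one h3
        have h4 := hk' k φ1 hsep1
        have h5 : Nat.card {w' : k // (g1.map φ1).IsRoot w'} = N - 1 := by
          have h6 : Nat.card {w' : k // (g1.map φ1).IsRoot w'} + 1 = N := by
            rw [hN, Nat.card_eq_fintype_card, Nat.card_eq_fintype_card, Fintype.card_subtype,
              Fintype.card_subtype]
            have h7 : (Finset.univ.filter (fun w' : k => (g.map φ).IsRoot w')) =
                insert w.1 (Finset.univ.filter (fun w' : k => (g1.map φ1).IsRoot w')) := by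
              ext w'
              have h8 := congrArg (Polynomial.eval w') hg1φ
              rw [eval_mul, eval_sub, eval_X, eval_C] at h8
              have h9 : (g.map φ).IsRoot w' ↔ w' = w.1 ∨ (g1.map φ1).IsRoot w' := by
                rw [IsRoot.def, h8, mul_eq_zero, sub_eq_zero]
                rfl
              rw [Finset.mem_insert, Finset.mem_filter, Finset.mem_filter, h9]
              simp
            rw [h7, Finset.card_insert_of_notMem]
            rw [Finset.mem_filter]
            exact fun h => hne h.2
          omega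
        rw [← h5]
        exact h4
      rw [Finset.sum_congr rfl fun w _ => hcard w, Finset.sum_const, Finset.card_univ, smul_eq_mul,
        ← Nat.card_eq_fintype_card, ← hN]
      rcases Nat.eq_zero_or_pos N with h0 | h0
      · rw [h0, zero_mul, Nat.zero_descFactorial_succ]
      · obtain ⟨N', hN'⟩ : ∃ N', N = N' + 1 := ⟨N - 1, by omega⟩
        rw [hN', Nat.succ_descFactorial_succ, Nat.add_sub_cancel]

end Pool.Agent.J4H11.SC
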