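import Pool.Agent.J4H11.SC.Gal1

/-!
# Discriminants and signs
-/

set_option autoImplicit false

open Polynomial Module Finset

namespace Pool.Agent.J4H11.SC

theorem prod_pairs {K : Type} [Field K] {d : ℕ} (v : Fin d → K) :
    ∃ m : ℕ, ∏ i, ∏ j ∈ univ.erase i, (v i - v j) =
      (-1) ^ m * (Matrix.vandermonde v).det ^ 2 := by
  classical
  rw [Matrix.det_vandermonde]
  have h1 : ∀ i, ∏ j ∈ univ.erase i, (v i - v j) =
      (∏ j ∈ Iio i, (v i - v j)) * ∏ j ∈ Ioi i, (v i - v j) := by
    intro i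
    rw [← prod_union]
    · congr 1
      ext j
      simp only [mem_erase, mem_univ, and_true, mem_union, mem_Iio, mem_Ioi]
      exact ne_iff_lt_or_gt
    · rw [disjoint_left]
      intro j hj hj'
      rw [mem_Iio] at hj
      rw [mem_Ioi] at hj'
      exact absurd hj (not_lt.2 hj'.le)
  have h2 : ∏ i, ∏ j ∈ Iio i, (v i - v j) = ∏ i, ∏ j ∈ Ioi i, (v j - v i) :=
    prod_comm' (by simp)
  have h3 : ∏ i, ∏ j ∈ Ioi i, (v i - v j) =
      (-1) ^ (∑ i : Fin d, (Ioi i).card) * ∏ i, ∏ j ∈ Ioi i, (v j - v i) := by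
    rw [← prod_pow_eq_pow_sum, ← prod_mul_distrib]
    refine prod_congr rfl fun i _ => ?_
    rw [← prod_const, ← prod_mul_distrib]
    exact prod_congr rfl fun j _ => by ring
  refine ⟨∑ i : Fin d, (Ioi i).card, ?_⟩
  rw [prod_congr rfl fun i _ => h1 i, prod_mul_distrib, h2, h3]
  ring

theorem discr_split {K : Type} [Field K] [IsAlgClosed K] (f : K[X]) (hf : f.Monic) (d : ℕ)
    (hd : f.natDegree = d) (hd1 : 1 ≤ d) (v : Fin d → K) (hv : Function.Injective v)
    (hr : ∀ i, f.IsRoot (v i)) :
    ∃ m : ℕ, f.discr = (-1) ^ m * (Matrix.vandermonde v).det ^ 2 := by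
  classical
  have hsp : f.Splits := IsAlgClosed.splits f
  have hroots : f.roots = (univ : Finset (Fin d)).val.map v := by
    symm
    apply Multiset.eq_of_le_of_card_le
    · rw [Multiset.le_iff_subset ((univ : Finset (Fin d)).nodup.map hv)]
      intro x hx
      obtain ⟨i, -, rfl⟩ := Multiset.mem_map.1 hx
      exact (mem_roots hf.ne_zero).2 (hr i)
    · rw [Multiset.card_map]
      refine (card_roots' f).trans ?_
      rw [hd]
      simp
  have hprod : f = ∏ i, (X - C (v i)) := by
    have h1 := hsp.eq_prod_roots_of_monic hf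
    rw [hroots, Multiset.map_map] at h1
    exact h1
  have hder : ∀ i, eval (v i) (derivative f) = ∏ j ∈ univ.erase i, (v i - v j) := by
    intro i
    conv_lhs => rw [hprod]
    rw [derivative_prod_finset, eval_finsetSum, sum_eq_single i]
    · rw [derivative_X_sub_C, mul_one, eval_prod]
      exact prod_congr rfl fun j _ => by rw [eval_sub, eval_X, eval_C]
    · intro j _ hj
      rw [derivative_X_sub_C, mul_one, eval_prod]
      refine prod_eq_zero (mem_erase.2 ⟨hj.symm, mem_univ i⟩) ?_
      rw [eval_sub, eval_X, eval_C, sub_self]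
    · intro h
      exact absurd (mem_univ i) h
  have h1 := resultant_eq_prod_eval f (derivative f) (d - 1)
    ((natDegree_derivative_le f).trans (by rw [hd])) hsp
  rw [hf.leadingCoeff, one_pow, one_mul, hroots, Multiset.map_map] at h1
  have h2 : ((univ : Finset (Fin d)).val.map ((fun x => eval x (derivative f)) ∘ v)).prod =
      ∏ i, ∏ j ∈ univ.erase i, (v i - v j) := by
    change ∏ i, eval (v i) (derivative f) = _
    exact prod_congr rfl fun i _ => hder i
  have h3 := resultant_deriv (f := f) (by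
    rw [← natDegree_pos_iff_degree_pos, hd]
    omega)
  obtain ⟨m, hm⟩ := prod_pairs v
  rw [hf.leadingCoeff, mul_one, hd] at h3
  rw [hd] at h1
  have h4 : (-1 : K) ^ (d * (d - 1) / 2) * f.discr =
      (-1) ^ m * (Matrix.vandermonde v).det ^ 2 := by
    rw [← h3, h1, ← hm, ← h2]
  refine ⟨d * (d - 1) / 2 + m, ?_⟩
  have h5 : (-1 : K) ^ (d * (d - 1) / 2) * (-1) ^ (d * (d - 1) / 2) = 1 := by
    rw [← mul_pow]
    simp
  calc f.discr = ((-1 : K) ^ (d * (d - 1) / 2) * (-1) ^ (d * (d - 1) / 2)) * f.discr := by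
        rw [h5, one_mul]
    _ = (-1 : K) ^ (d * (d - 1) / 2) * ((-1) ^ (d * (d - 1) / 2) * f.discr) := by ring
    _ = _ := by
        rw [h4, pow_add]
        ring

theorem discr_map {R S : Type} [CommRing R] [CommRing S] [Nontrivial S] (φ : R →+* S) (f : R[X])
    (hf : f.Monic) : (f.map φ).discr = φ f.discr := by
  have hdeg : (f.map φ).natDegree = f.natDegree := hf.natDegree_map φ
  have hnt : Nontrivial R := φ.domain_nontrivial
  rcases Nat.eq_zero_or_pos f.natDegree with h0 | h0
  · have h1 := hf.natDegree_eq_zero.1 h0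
    have h2 : (1 : R[X]) = C 1 := by simp
    have h3 : (1 : S[X]) = C 1 := by simp
    rw [h1, Polynomial.map_one, h2, h3, discr_C, discr_C, map_one]
  · have h1 := resultant_deriv (f := f) (natDegree_pos_iff_degree_pos.1 h0)
    have h2 := resultant_deriv (f := f.map φ) (by
      rw [← natDegree_pos_iff_degree_pos, hdeg]
      exact h0)
    rw [hdeg, derivative_map, resultant_map_map, h1, (hf.map φ).leadingCoeff, hf.leadingCoeff,
      mul_one, mul_one, map_mul, map_pow, map_neg, map_one] at h2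
    have h5 : (-1 : S) ^ (f.natDegree * (f.natDegree - 1) / 2) *
        (-1) ^ (f.natDegree * (f.natDegree - 1) / 2) = 1 := by
      rw [← mul_pow]
      simp
    calc (f.map φ).discr = ((-1 : S) ^ (f.natDegree * (f.natDegree - 1) / 2) *
          (-1) ^ (f.natDegree * (f.natDegree - 1) / 2)) * (f.map φ).discr := by rw [h5, one_mul]
      _ = (-1 : S) ^ (f.natDegree * (f.natDegree - 1) / 2) *
          ((-1) ^ (f.natDegree * (f.natDegree - 1) / 2) * (f.map φ).discr) := by ring
      _ = φ f.discr := by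
          rw [← h2, ← mul_assoc, h5, one_mul]

/-- the discriminant of a monic polynomial over a field is not zero if and only if the polynomial is
separable -/
theorem discr_ne {K : Type} [Field K] (f : K[X]) (hf : f.Monic) (h0 : f.discr ≠ 0) :
    f.Separable := by
  rcases Nat.eq_zero_or_pos f.natDegree with hd | hd
  · rw [hf.natDegree_eq_zero.1 hd]
    exact separable_one
  have h1 := resultant_deriv (f := f) (natDegree_pos_iff_degree_pos.1 hd)
  have h2 : resultant f (derivative f) f.natDegree (f.natDegree - 1) ≠ 0 := by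
    rw [h1, hf.leadingCoeff, mul_one]
    exact mul_ne_zero (pow_ne_zero _ (by simp)) h0
  obtain ⟨k, hk⟩ := Nat.exists_eq_add_of_le (natDegree_derivative_le f)
  rw [hk, resultant_add_right_deg _ _ _ _ _ le_rfl, coeff_natDegree, hf.leadingCoeff, one_pow,
    one_mul] at h2
  by_contra hns
  exact h2 (resultant_eq_zero_iff.2 ⟨Or.inl hf.ne_zero, hns⟩)

section
variable {F Ω : Type} [Field F] [Field Ω] [Algebra F Ω] [IsAlgClosed Ω] [IsGalois F Ω]

/-- the square root of the discriminant -/
theorem vdm_sign (p : F[X]) (d : ℕ) [Fintype (p.rootSet Ω)] [DecidableEq (p.rootSet Ω)]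
    (e : Fin d ≃ p.rootSet Ω) (σ : Ω ≃ₐ[F] Ω) :
    σ (Matrix.vandermonde (fun i => ((e i : p.rootSet Ω) : Ω))).det =
      ((Equiv.Perm.sign (rho p σ) : ℤ) : Ω) *
        (Matrix.vandermonde (fun i => ((e i : p.rootSet Ω) : Ω))).det := by
  set v : Fin d → Ω := fun i => ((e i : p.rootSet Ω) : Ω) with hv
  set π : Equiv.Perm (Fin d) := (e.trans (rho p σ)).trans e.symm with hπ
  have h1 : ∀ i, σ (v i) = v (π i) := by
    intro i
    rw [hv, hπ]
    simp only [Equiv.trans_apply, Equiv.apply_symm_apply]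
    rw [rho_apply]
  have h2 : (σ : Ω ≃ₐ[F] Ω) (Matrix.vandermonde v).det = (Matrix.vandermonde (v ∘ π)).det := by
    have h3 := (RingHom.map_det (σ : Ω →+* Ω) (Matrix.vandermonde v))
    change (σ : Ω →+* Ω) (Matrix.vandermonde v).det = _
    rw [h3]
    congr 1
    ext i j
    simp only [RingHom.mapMatrix_apply, Matrix.map_apply, Matrix.vandermonde_apply,
      Function.comp_apply]
    rw [map_pow, ← h1]
    rfl
  rw [h2]
  have h4 : Matrix.vandermonde (v ∘ π) = (Matrix.vandermonde v).submatrix π id := by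
    ext i j
    simp [Matrix.vandermonde_apply]
  rw [h4, Matrix.det_permute]
  congr 2
  rw [hπ]
  have h5 : Equiv.Perm.sign ((e.trans (rho p σ)).trans e.symm) = Equiv.Perm.sign (rho p σ) :=
    Equiv.Perm.sign_trans_trans_symm (rho p σ) e
  rw [h5]

/-- **the signs are different if the product of the discriminants is not a square** -/
theorem sign_ne (p q : F[X]) (hpm : p.Monic) (hqm : q.Monic) (d : ℕ) (hd : 1 ≤ d)
    (hpd : p.natDegree = d) (hqd : q.natDegree = d)
    [Fintype (p.rootSet Ω)] [DecidableEq (p.rootSet Ω)] [Fintype (q.rootSet Ω)]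
    [DecidableEq (q.rootSet Ω)] (hp : Nat.card (p.rootSet Ω) = d) (hq : Nat.card (q.rootSet Ω) = d)
    (i0 : F) (hi0 : i0 ^ 2 = -1) (hns : ∀ w : F, w ^ 2 ≠ p.discr * q.discr) :
    ∃ σ : Ω ≃ₐ[F] Ω, Equiv.Perm.sign (rho p σ) ≠ Equiv.Perm.sign (rho q σ) := by
  by_contra hcon
  push Not at hcon
  rw [Nat.card_eq_fintype_card] at hp hq
  set e : Fin d ≃ p.rootSet Ω := (Fintype.equivFinOfCardEq hp).symm with he
  set e' : Fin d ≃ q.rootSet Ω := (Fintype.equivFinOfCardEq hq).symm with he'
  set v : Fin d → Ω := fun i => ((e i : p.rootSet Ω) : Ω) with hv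
  set v' : Fin d → Ω := fun i => ((e' i : q.rootSet Ω) : Ω) with hv'
  have hmem : (Matrix.vandermonde v).det * (Matrix.vandermonde v').det ∈
      (⊥ : IntermediateField F Ω) := by
    rw [InfiniteGalois.mem_bot_iff_fixed]
    intro σ
    rw [map_mul, vdm_sign p d e σ, vdm_sign q d e' σ, hcon σ]
    have h1 : ((Equiv.Perm.sign (rho q σ) : ℤ) : Ω) * ((Equiv.Perm.sign (rho q σ) : ℤ) : Ω) = 1 := by
      rcases Int.units_eq_one_or (Equiv.Perm.sign (rho q σ)) with h | h <;> rw [h] <;> simp
    linear_combination (Matrix.vandermonde v).det * (Matrix.vandermonde v').det * h1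
  rw [IntermediateField.mem_bot] at hmem
  obtain ⟨w, hw⟩ := hmem
  have hroot : ∀ (p : F[X]) (x : p.rootSet Ω), p ≠ 0 → (p.map (algebraMap F Ω)).IsRoot (x : Ω) := by
    intro p x hp0
    rw [IsRoot.def, eval_map_algebraMap]
    exact ((mem_rootSet_of_ne hp0).1 x.2)
  obtain ⟨m, hm⟩ := discr_split (p.map (algebraMap F Ω)) (hpm.map _) d
    (by rw [hpm.natDegree_map, hpd]) hd v (fun i j h => e.injective (Subtype.ext h))
    (fun i => hroot p (e i) hpm.ne_zero)
  obtain ⟨m', hm'⟩ := discr_split (q.map (algebraMap F Ω)) (hqm.map _) d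
    (by rw [hqm.natDegree_map, hqd]) hd v' (fun i j h => e'.injective (Subtype.ext h))
    (fun i => hroot q (e' i) hqm.ne_zero)
  rw [discr_map _ _ hpm] at hm
  rw [discr_map _ _ hqm] at hm'
  apply hns (i0 ^ (m + m') * w)
  apply (algebraMap F Ω).injective
  rw [map_pow, map_mul, map_mul, hm, hm', mul_pow, hw, map_pow, ← pow_mul, mul_comm (m + m') 2,
    pow_mul, ← map_pow, hi0, map_neg, map_one, pow_add]
  ring

end

end Pool.Agent.J4H11.SC
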