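import Pool.Agent.J4H11.SC.F3
import Pool.Agent.J4H11.SC.Ext
import Pool.Agent.J4H11.SC.Gal2

/-!
# A family of curves and the roots of two polynomials with full symmetric Galois group
-/

set_option autoImplicit false

open Polynomial Module

namespace Pool.Agent.J4H11.SC

/-- homomorphisms over a homomorphism, in two steps -/
def sigE {R S T k : Type} [CommRing R] [CommRing S] [CommRing T] [CommRing k] (i1 : R →+* S)
    (i2 : S →+* T) (φ : R →+* k) : {φ' : T →+* k // φ'.comp (i2.comp i1) = φ} ≃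
      Σ φ1 : {φ1 : S →+* k // φ1.comp i1 = φ}, {φ' : T →+* k // φ'.comp i2 = φ1.1} where
  toFun := fun φ' => ⟨⟨φ'.1.comp i2, φ'.2⟩, φ'.1, rfl⟩
  invFun := fun z => ⟨z.2.1, by
    rw [← RingHom.comp_assoc, z.2.2]
    exact z.1.2⟩
  left_inv := fun φ' => rfl
  right_inv := fun z => Sigma.subtype_ext (Subtype.ext z.2.2) rfl

theorem root_sub {F Ω : Type} [Field F] [Field Ω] [Algebra F Ω] (L : IntermediateField F Ω)
    (p : F[X]) (x : Ω) (hx : x ∈ L) (h : aeval x p = 0) :
    (p.map (algebraMap F L)).IsRoot ⟨x, hx⟩ := by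
  rw [IsRoot.def, eval_map_algebraMap]
  apply Subtype.ext
  have h1 := aeval_algHom_apply L.val ⟨x, hx⟩ p
  exact h1.symm.trans h

theorem adj_top {F Ω : Type} [Field F] [Field Ω] [Algebra F Ω] (S : Set Ω)
    (hS : ∀ x ∈ S, IsAlgebraic F x) :
    Algebra.adjoin F (Subtype.val ⁻¹' S : Set (IntermediateField.adjoin F S)) = ⊤ := by
  rw [eq_top_iff]
  rintro ⟨x, hx⟩ -
  have h1 := IntermediateField.adjoin_toSubalgebra_of_isAlgebraic hS
  have h2 : x ∈ Algebra.adjoin F S := by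
    rw [← h1]
    exact hx
  have h3 : ∀ y ∈ Algebra.adjoin F S, ∃ hy : y ∈ IntermediateField.adjoin F S,
      (⟨y, hy⟩ : IntermediateField.adjoin F S) ∈
        Algebra.adjoin F (Subtype.val ⁻¹' S : Set (IntermediateField.adjoin F S)) := by
    intro y hy
    induction hy using Algebra.adjoin_induction with
    | mem y hy =>
      exact ⟨IntermediateField.subset_adjoin F S hy, Algebra.subset_adjoin hy⟩
    | algebraMap c =>
      exact ⟨(IntermediateField.adjoin F S).algebraMap_mem c, Subalgebra.algebraMap_mem _ c⟩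
    | add y z _ _ ihy ihz =>
      obtain ⟨h1, h2⟩ := ihy
      obtain ⟨h3, h4⟩ := ihz
      exact ⟨add_mem h1 h3, Subalgebra.add_mem _ h2 h4⟩
    | mul y z _ _ ihy ihz =>
      obtain ⟨h1, h2⟩ := ihy
      obtain ⟨h3, h4⟩ := ihz
      exact ⟨mul_mem h1 h3, Subalgebra.mul_mem _ h2 h4⟩
  obtain ⟨_, h4⟩ := h3 x h2
  exact h4

section
variable {A kb K1 F B0 L : Type} [CommRing A] [IsDomain A] [CharZero A] [Field kb] [IsAlgClosed kb]
  (ι : A →+* kb) (hι : Function.Injective ι) [Field K1] [Algebra kb[X] K1] [IsFractionRing kb[X] K1]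
  [Field F] [Algebra K1 F] [CommRing B0] (β : A[X] →+* B0) (m : ℕ) (hm : 0 < m)
  (hfree : FreeRk β m)
  (j : B0 →+* F) (hj : ∀ p, j (β p) = algebraMap K1 F (algebraMap kb[X] K1 (p.map ι)))
  (hgen : Algebra.adjoin K1 (Set.range j) = ⊤) (hrk : m ≤ finrank K1 F)
  [Field L] [Algebra F L] {B : Type} [CommRing B] (i : B0 →+* B) (n : ℕ) (hn : 0 < n)
  (hi : FreeRk i n) (j2 : B →+* L) (hj2 : j2.comp i = (algebraMap F L).comp j)
  (S : Set L) (hS : Algebra.adjoin F S = ⊤) (hSr : S ⊆ Set.range j2) (hdeg : n ≤ finrank F L)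

include hι hm hfree hj hgen hrk hn hi hj2 hS hSr hdeg in
theorem flw2 : ∃ (s : A) (Cst : ℝ), s ≠ 0 ∧ 0 ≤ Cst ∧ ∀ (k : Type) [Field k] [Finite k]
    (ψ : A →+* k), ψ s ≠ 0 →
    |(Nat.card {φ : B →+* k // φ.comp ((i.comp β).comp Polynomial.C) = ψ} : ℝ) - Nat.card k| ≤
      Cst * √(Nat.card k : ℝ) := by
  let _ : Algebra K1 L := ((algebraMap F L).comp (algebraMap K1 F)).toAlgebra
  have hst : IsScalarTower K1 F L := IsScalarTower.of_algebraMap_eq (fun x => rfl)
  refine flw (K1 := K1) (L := L) ι hι (i.comp β) (m * n) (Nat.mul_pos hm hn) (freeRk_comp hfree hi)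
    j2 ?_ ?_ ?_
  · intro p
    have h1 := DFunLike.congr_fun hj2 (β p)
    change j2 (i (β p)) = algebraMap F L (j (β p)) at h1
    change j2 (i (β p)) = _
    rw [h1, hj]
    rfl
  · set T := Algebra.adjoin K1 (Set.range j2) with hT
    have h1 : ∀ f : F, algebraMap F L f ∈ T := by
      intro f
      have h2 : Algebra.adjoin K1 (Set.range j) ≤ T.comap (IsScalarTower.toAlgHom K1 F L) := by
        rw [Algebra.adjoin_le_iff]
        rintro _ ⟨b, rfl⟩
        change algebraMap F L (j b) ∈ T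
        have h3 := DFunLike.congr_fun hj2 b
        change j2 (i b) = algebraMap F L (j b) at h3
        rw [← h3]
        exact Algebra.subset_adjoin ⟨_, rfl⟩
      rw [hgen] at h2
      exact h2 (Algebra.mem_top : f ∈ ⊤)
    rw [eq_top_iff]
    rintro x -
    have h2 : x ∈ Algebra.adjoin F S := by rw [hS]; trivial
    induction h2 using Algebra.adjoin_induction with
    | mem y hy => exact Algebra.subset_adjoin (hSr hy)
    | algebraMap c => exact h1 c
    | add y z _ _ ihy ihz => exact T.add_mem ihy ihz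
    | mul y z _ _ ihy ihz => exact T.mul_mem ihy ihz
  · rw [← Module.finrank_mul_finrank K1 F L]
    exact Nat.mul_le_mul hrk hdeg

end

section
variable {A kb K1 F B0 : Type} [CommRing A] [IsDomain A] [CharZero A] [Field kb] [IsAlgClosed kb]
  (ι : A →+* kb) (hι : Function.Injective ι) [Field K1] [Algebra kb[X] K1] [IsFractionRing kb[X] K1]
  [Field F] [CharZero F] [Algebra K1 F] [CommRing B0] (β : A[X] →+* B0) (m : ℕ) (hm : 0 < m)
  (hfree : FreeRk β m)
  (j : B0 →+* F) (hj : ∀ p, j (β p) = algebraMap K1 F (algebraMap kb[X] K1 (p.map ι)))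
  (hgen : Algebra.adjoin K1 (Set.range j) = ⊤) (hrk : m ≤ finrank K1 F)
  (g1 g2 : B0[X]) (hg1 : g1.Monic) (hg2 : g2.Monic) (d : ℕ) (hd : 2 ≤ d) (hd1 : g1.natDegree = d)
  (hd2 : g2.natDegree = d)
  (hG1 : Nat.card (g1.map j).Gal = d.factorial) (hG2 : Nat.card (g2.map j).Gal = d.factorial)
  (i0 : F) (hi0 : i0 ^ 2 = -1) (hns : ∀ w : F, w ^ 2 ≠ (g1.map j).discr * (g2.map j).discr)
  (c1 c2 : ℕ) (hc1 : c1 ≤ d) (hc2 : c2 ≤ d)

include hι hm hfree hj hgen hrk hg1 hg2 hd hd1 hd2 hG1 hG2 hi0 hns hc1 hc2 in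
theorem tower : ∃ (B : Type) (_ : CommRing B) (i : B0 →+* B) (s : A) (Cst : ℝ),
    FreeRk i (d.descFactorial c1 * d.descFactorial c2) ∧
    (∀ (k : Type) [Field k] [Finite k] (φ : B0 →+* k), (g1.map φ).Separable →
      (g2.map φ).Separable → Nat.card {φ' : B →+* k // φ'.comp i = φ} =
        (Nat.card {w : k // (g1.map φ).IsRoot w}).descFactorial c1 *
        (Nat.card {w : k // (g2.map φ).IsRoot w}).descFactorial c2) ∧
    s ≠ 0 ∧ 0 ≤ Cst ∧ ∀ (k : Type) [Field k] [Finite k]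
    (ψ : A →+* k), ψ s ≠ 0 →
    |(Nat.card {φ : B →+* k // φ.comp ((i.comp β).comp Polynomial.C) = ψ} : ℝ) - Nat.card k| ≤
      Cst * √(Nat.card k : ℝ) := by
  classical
  have hB0 : Nontrivial B0 := nontriv β hfree hm
  obtain ⟨S1, _, i1, hf1, hL1, hk1⟩ := adj_roots c1 g1 hg1 d hd1 hc1
  have hS1 : Nontrivial S1 := nontriv i1 hf1 (Nat.descFactorial_pos.2 hc1)
  have hg2' : (g2.map i1).Monic := hg2.map _
  obtain ⟨S2, _, i2, hf2, hL2, hk2⟩ := adj_roots c2 (g2.map i1) hg2' d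
    (by rw [hg2.natDegree_map]; exact hd2) hc2
  set i : B0 →+* S2 := i2.comp i1 with hi
  have hfi : FreeRk i (d.descFactorial c1 * d.descFactorial c2) := freeRk_comp hf1 hf2
  have hcount : ∀ (k : Type) [Field k] [Finite k] (φ : B0 →+* k), (g1.map φ).Separable →
      (g2.map φ).Separable → Nat.card {φ' : S2 →+* k // φ'.comp i = φ} =
        (Nat.card {w : k // (g1.map φ).IsRoot w}).descFactorial c1 *
        (Nat.card {w : k // (g2.map φ).IsRoot w}).descFactorial c2 := by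
    intro k _ _ φ hs1 hs2
    have hfin1 := (hom_le i1 _ hf1 φ).1
    let _ := Fintype.ofFinite {φ1 : S1 →+* k // φ1.comp i1 = φ}
    have hfin2 : ∀ φ1 : {φ1 : S1 →+* k // φ1.comp i1 = φ}, Finite {φ' : S2 →+* k // φ'.comp i2 = φ1.1} :=
      fun φ1 => (hom_le i2 _ hf2 φ1.1).1
    rw [hi, Nat.card_congr (sigE i1 i2 φ), Nat.card_sigma]
    have hc : ∀ φ1 : {φ1 : S1 →+* k // φ1.comp i1 = φ}, Nat.card {φ' : S2 →+* k // φ'.comp i2 = φ1.1} =
        (Nat.card {w : k // (g2.map φ).IsRoot w}).descFactorial c2 := by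
      intro φ1
      have h1 : (g2.map i1).map φ1.1 = g2.map φ := by rw [Polynomial.map_map, φ1.2]
      rw [hk2 k φ1.1 (by rw [h1]; exact hs2), h1]
    rw [Finset.sum_congr rfl fun φ1 _ => hc φ1, Finset.sum_const, Finset.card_univ, smul_eq_mul,
      ← Nat.card_eq_fintype_card, hk1 k φ hs1]
  -- the field
  let Ω := AlgebraicClosure F
  set p := g1.map j with hp
  set q := g2.map j with hq
  have hpm : p.Monic := hg1.map _
  have hqm : q.Monic := hg2.map _
  have hpd : p.natDegree = d := by rw [hp, hg1.natDegree_map]; exact hd1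
  have hqd : q.natDegree = d := by rw [hq, hg2.natDegree_map]; exact hd2
  let _ := Fintype.ofFinite (p.rootSet Ω)
  let _ := Fintype.ofFinite (q.rootSet Ω)
  obtain ⟨hcp, -⟩ := rho_surj (Ω := Ω) p d hd hpd.le hG1
  obtain ⟨hcq, -⟩ := rho_surj (Ω := Ω) q d hd hqd.le hG2
  have hsg := sign_ne (Ω := Ω) p q hpm hqm d (by omega) hpd hqd hcp hcq i0 hi0 hns
  obtain ⟨θ⟩ : Nonempty (Fin c1 ↪ p.rootSet Ω) := by
    rw [Function.Embedding.nonempty_iff_card_le, Fintype.card_fin, ← Nat.card_eq_fintype_card, hcp]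
    exact hc1
  obtain ⟨η⟩ : Nonempty (Fin c2 ↪ q.rootSet Ω) := by
    rw [Function.Embedding.nonempty_iff_card_le, Fintype.card_fin, ← Nat.card_eq_fintype_card, hcq]
    exact hc2
  set S : Set Ω := Set.range (fun t => (θ t : Ω)) ∪ Set.range (fun t => (η t : Ω)) with hS
  have hSfin : S.Finite := (Set.finite_range _).union (Set.finite_range _)
  set L : IntermediateField F Ω := IntermediateField.adjoin F S with hL
  have hLfin : FiniteDimensional F L := by
    have : Finite S := hSfin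
    exact IntermediateField.finiteDimensional_adjoin (fun x _ => Algebra.IsIntegral.isIntegral x)
  have hθL : ∀ t, (θ t : Ω) ∈ L := fun t =>
    IntermediateField.subset_adjoin F S (Or.inl ⟨t, rfl⟩)
  have hηL : ∀ t, (η t : Ω) ∈ L := fun t =>
    IntermediateField.subset_adjoin F S (Or.inr ⟨t, rfl⟩)
  have hdeg := degree_roots (Ω := Ω) p q d hd hpd.le hqd.le hG1 hG2 hsg c1 c2 θ η L hθL hηL
  have hSalg : ∀ x ∈ S, IsAlgebraic F x := fun x _ => Algebra.IsAlgebraic.isAlgebraic x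
  have htop : Algebra.adjoin F (Subtype.val ⁻¹' S : Set L) = ⊤ := adj_top S hSalg
  let jL : B0 →+* L := (algebraMap F L).comp j
  obtain ⟨j1, hj1, hj1r⟩ := hL1 L jL (fun t => ⟨θ t, hθL t⟩) (by
      intro t t' h
      apply θ.injective
      apply Subtype.ext
      have h1 := congrArg (fun z : L => (z : Ω)) h
      exact h1) (by
      intro t
      have h2 : g1.map jL = p.map (algebraMap F L) := by rw [hp, Polynomial.map_map]
      rw [h2]
      exact root_sub L p _ _ (mem_rootSet.1 (θ t).2).2)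
  obtain ⟨j2, hj2, hj2r⟩ := hL2 L j1 (fun t => ⟨η t, hηL t⟩) (by
      intro t t' h
      apply η.injective
      apply Subtype.ext
      have h1 := congrArg (fun z : L => (z : Ω)) h
      exact h1) (by
      intro t
      have h2 : (g2.map i1).map j1 = q.map (algebraMap F L) := by
        rw [hq, Polynomial.map_map, Polynomial.map_map, hj1]
      rw [h2]
      exact root_sub L q _ _ (mem_rootSet.1 (η t).2).2)
  have hcomp : j2.comp i = (algebraMap F L).comp j := by
    rw [hi, ← RingHom.comp_assoc, hj2, hj1]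
  have hSr : (Subtype.val ⁻¹' S : Set L) ⊆ Set.range j2 := by
    rintro ⟨x, hx⟩ (⟨t, ht⟩ | ⟨t, ht⟩)
    · obtain ⟨b, hb⟩ := hj1r t
      refine ⟨i2 b, ?_⟩
      have h1 := DFunLike.congr_fun hj2 b
      change j2 (i2 b) = j1 b at h1
      rw [h1, hb]
      exact Subtype.ext ht
    · obtain ⟨b, hb⟩ := hj2r t
      refine ⟨b, ?_⟩
      rw [hb]
      exact Subtype.ext ht
  obtain ⟨s, Cst, hs, hC, hmain⟩ := flw2 (K1 := K1) (L := L) ι hι β m hm hfree j hj hgen hrk i _
    (Nat.mul_pos (Nat.descFactorial_pos.2 hc1) (Nat.descFactorial_pos.2 hc2)) hfi j2 hcomp _ htop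
    hSr hdeg
  exact ⟨S2, inferInstance, i, s, Cst, hfi, hcount, hs, hC, hmain⟩

include hι hm hfree hj hgen hrk hg1 hg2 hd hd1 hd2 hG1 hG2 hi0 hns hc1 hc2 in
/-- the mean value of the numbers of pairs of roots in the family -/
theorem tower_sum : ∃ (s : A) (Cst : ℝ), s ≠ 0 ∧ 0 ≤ Cst ∧ ∀ (k : Type) [Field k] [Finite k]
    (ψ : A →+* k), ψ s ≠ 0 → ∀ (I : Type) [Fintype I]
    (e : I ≃ {φ : B0 →+* k // φ.comp (β.comp Polynomial.C) = ψ}) (P : I → Prop) [DecidablePred P],
    (∀ x, P x → (g1.map (e x).1).Separable ∧ (g2.map (e x).1).Separable) →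
    |∑ x, (if P x then (((Nat.card {w : k // (g1.map (e x).1).IsRoot w}).descFactorial c1 *
      (Nat.card {w : k // (g2.map (e x).1).IsRoot w}).descFactorial c2 : ℕ) : ℝ) else 0) -
      Nat.card k| ≤ Cst * √(Nat.card k : ℝ) +
        (d.descFactorial c1 * d.descFactorial c2 : ℕ) * (Finset.univ.filter (fun x => ¬ P x)).card := by
  classical
  obtain ⟨B, _, i, s, Cst, hfi, hcount, hs, hC, hmain⟩ := tower ι hι β m hm hfree j hj hgen hrk
    g1 g2 hg1 hg2 d hd hd1 hd2 hG1 hG2 i0 hi0 hns c1 c2 hc1 hc2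
  refine ⟨s, Cst, hs, hC, ?_⟩
  intro k _ _ ψ hψ I _ e P _ hP
  set M := d.descFactorial c1 * d.descFactorial c2 with hM
  have h1 := hmain k ψ hψ
  set N := Nat.card {φ : B →+* k // φ.comp ((i.comp β).comp Polynomial.C) = ψ} with hN
  have hN' : N = ∑ x, Nat.card {φ : B →+* k // φ.comp i = (e x).1} := by
    have hfin : ∀ x, Finite {φ : B →+* k // φ.comp i = (e x).1} := fun x => (hom_le i M hfi _).1
    have hfin2 : Finite {φ : B0 →+* k // φ.comp (β.comp Polynomial.C) = ψ} := Finite.of_equiv I e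
    let _ := Fintype.ofFinite {φ : B0 →+* k // φ.comp (β.comp Polynomial.C) = ψ}
    have e1 : N = Nat.card (Σ φ1 : {φ : B0 →+* k // φ.comp (β.comp Polynomial.C) = ψ},
        {φ' : B →+* k // φ'.comp i = φ1.1}) := Nat.card_congr (sigE (β.comp Polynomial.C) i ψ)
    have hfin3 : ∀ φ1 : {φ : B0 →+* k // φ.comp (β.comp Polynomial.C) = ψ},
        Finite {φ' : B →+* k // φ'.comp i = φ1.1} := fun φ1 => (hom_le i M hfi _).1
    rw [e1, Nat.card_sigma]
    exact (Equiv.sum_comp e (fun φ1 => Nat.card {φ' : B →+* k // φ'.comp i = φ1.1})).symm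
  have h2 : |∑ x, (if P x then (((Nat.card {w : k // (g1.map (e x).1).IsRoot w}).descFactorial c1 *
      (Nat.card {w : k // (g2.map (e x).1).IsRoot w}).descFactorial c2 : ℕ) : ℝ) else 0) -
      (N : ℝ)| ≤ M * (Finset.univ.filter (fun x => ¬ P x)).card := by
    rw [hN']
    push_cast
    rw [← Finset.sum_sub_distrib]
    refine (Finset.abs_sum_le_sum_abs _ _).trans ?_
    rw [Finset.card_filter]
    push_cast
    rw [Finset.mul_sum]
    refine Finset.sum_le_sum fun x _ => ?_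
    by_cases hx : P x
    · rw [if_pos hx, if_neg (not_not.2 hx), hcount k (e x).1 (hP x hx).1 (hP x hx).2]
      push_cast
      rw [sub_self, abs_zero]
      simp
    · rw [if_neg hx, if_pos hx, zero_sub, abs_neg, mul_one, Nat.abs_cast]
      exact_mod_cast (hom_le i M hfi (e x).1).2
  have h3 := abs_sub_le (∑ x, (if P x then
      (((Nat.card {w : k // (g1.map (e x).1).IsRoot w}).descFactorial c1 *
      (Nat.card {w : k // (g2.map (e x).1).IsRoot w}).descFactorial c2 : ℕ) : ℝ) else 0)) (N : ℝ)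
      (Nat.card k : ℝ)
  linarith

end

end Pool.Agent.J4H11.SC
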