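import Pool.Agent.J4H11.SC.Base
import Pool.Agent.J4H11.SC.Par
import Pool.Agent.J4H11.SC.HC
import Pool.Agent.J4H11.SC.Tow

/-!
# The mean values of the numbers of roots over a point and its translate
-/

set_option autoImplicit false

open Polynomial Module Pool.Agent.J4H11.RC Pool.Agent.H901R3.MS WeierstrassCurve

namespace Pool.Agent.J4H11.SC

section
variable {r : ℕ}

/-- the evaluation at a point -/
noncomputable def evp {S : Type} [CommRing S] (x y : Fin r → S) :
    MvPolynomial (Fin r × Fin 2) ℤ →+* S :=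
  (MvPolynomial.aeval (pv x y) : MvPolynomial (Fin r × Fin 2) ℤ →ₐ[ℤ] S).toRingHom

theorem evp_comp {S T : Type} [CommRing S] [CommRing T] (g : S →+* T) (x y : Fin r → S) :
    g.comp (evp x y) = evp (fun j => g (x j)) (fun j => g (y j)) := by
  apply MvPolynomial.ringHom_ext
  · intro n
    simp [evp]
  · rintro ⟨j, e⟩
    change g (MvPolynomial.aeval (pv x y) (MvPolynomial.X (j, e))) =
      MvPolynomial.aeval (pv (fun j => g (x j)) (fun j => g (y j))) (MvPolynomial.X (j, e))
    rw [MvPolynomial.aeval_X, MvPolynomial.aeval_X]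
    rcases fin2 e with rfl | rfl
    · rw [pv_zero, pv_zero]
    · rw [pv_one, pv_one]

variable (i : Fin r)

theorem ext_map {S T : Type} (g : S → T) (x : Bi i → S) (z : S) :
    (fun j => g (ext i x z j)) = ext i (fun j => g (x j)) (g z) := by
  funext j
  unfold RC.ext
  split_ifs <;> rfl

theorem evp_ext {S T : Type} [CommRing S] [CommRing T] (g : S →+* T) (x y : Bi i → S) (z w : S) :
    g.comp (evp (ext i x z) (ext i y w)) =
      evp (ext i (fun j => g (x j)) (g z)) (ext i (fun j => g (y j)) (g w)) := by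
  rw [evp_comp, ext_map i g, ext_map i g]

/-- the coordinates of the curves, with the curve `E_i` repeated -/
def oe {S : Type} (a : Fin r → S) (o : Option (Bi i)) : S := o.elim (a i) (fun j => a j)

variable (a b : Fin r → ℤ)

theorem fam1 {kb F : Type} [Field kb] [IsAlgClosed kb] [CharZero kb] [Field F] [Algebra kb F]
    (x y : Option (Bi i) → kb)
    (hy : ∀ o, y o ^ 2 = x o ^ 3 + ((oe i a o : ℤ) : kb) * x o + ((oe i b o : ℤ) : kb))
    (hyh : y none ≠ 0) (X Y : F) (hE : OnE (a i : kb) (b i : kb) X Y) (hX : Transcendental kb X)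
    (hG : Gen kb X Y) (l X2 Y2 : F)
    (hl : l * (X - algebraMap kb F (x none)) = Y - algebraMap kb F (y none))
    (hX2 : X2 = l ^ 2 - X - algebraMap kb F (x none))
    (hY2 : Y2 = -(algebraMap kb F (y none) + l * (X2 - algebraMap kb F (x none))))
    (Φ : (MvPolynomial (Fin r × Fin 2) ℤ)[X]) (hΦ : Φ.Monic) (d : ℕ) (hd : 2 ≤ d)
    (hΦd : Φ.natDegree = d)
    (hG1 : Nat.card (Φ.map (evp (ext i (fun j => algebraMap kb F (x (some j))) X)
      (ext i (fun j => algebraMap kb F (y (some j))) Y))).Gal = d.factorial)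
    (hG2 : Nat.card (Φ.map (evp (ext i (fun j => algebraMap kb F (x (some j))) X2)
      (ext i (fun j => algebraMap kb F (y (some j))) Y2))).Gal = d.factorial)
    (hns : ∀ w : F, w ^ 2 ≠ evp (ext i (fun j => algebraMap kb F (x (some j))) X)
      (ext i (fun j => algebraMap kb F (y (some j))) Y) Φ.discr *
      evp (ext i (fun j => algebraMap kb F (x (some j))) X2)
      (ext i (fun j => algebraMap kb F (y (some j))) Y2) Φ.discr)
    (c1 c2 : ℕ) (hc1 : c1 ≤ d) (hc2 : c2 ≤ d) :
    ∃ (s : AA x y) (Cst : ℝ), s ≠ 0 ∧ 0 ≤ Cst ∧ ∀ (k : Type) [Field k] [Finite k] [DecidableEq k]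
    (x' y' : Option (Bi i) → k) (ψ : AA x y →+* k)
    (_ : ∀ H, ψ ((th x y).rangeRestrict H) = MvPolynomial.aeval (pv x' y') H), ψ s ≠ 0 →
    Disc (a i : k) (b i : k) → y' none ≠ 0 →
    ∀ (hns : (CV (a i : k) (b i : k)).toAffine.Nonsingular (x' none) (y' none))
    [Fintype {R : Pt (a i : k) (b i : k) // R ≠ 0 ∧
      R + Affine.Point.some (x' none) (y' none) hns ≠ 0}]
    (P : {R : Pt (a i : k) (b i : k) // R ≠ 0 ∧
      R + Affine.Point.some (x' none) (y' none) hns ≠ 0} → Prop) [DecidablePred P],
    (∀ R, P R → (Φ.map (evp (ext i (fun j => x' (some j)) (crd R.1).1)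
        (ext i (fun j => y' (some j)) (crd R.1).2))).Separable ∧
      (Φ.map (evp (ext i (fun j => x' (some j))
          (crd (R.1 + Affine.Point.some (x' none) (y' none) hns)).1)
        (ext i (fun j => y' (some j))
          (crd (R.1 + Affine.Point.some (x' none) (y' none) hns)).2))).Separable) →
    |∑ R, (if P R then (((Nat.card {w : k // (Φ.map (evp (ext i (fun j => x' (some j)) (crd R.1).1)
        (ext i (fun j => y' (some j)) (crd R.1).2))).IsRoot w}).descFactorial c1 *
      (Nat.card {w : k // (Φ.map (evp (ext i (fun j => x' (some j))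
          (crd (R.1 + Affine.Point.some (x' none) (y' none) hns)).1)
        (ext i (fun j => y' (some j))
          (crd (R.1 + Affine.Point.some (x' none) (y' none) hns)).2))).IsRoot w}).descFactorial c2 :
            ℕ) : ℝ) else 0) -
      Nat.card k| ≤ Cst * √(Nat.card k : ℝ) +
        (d.descFactorial c1 * d.descFactorial c2 : ℕ) * (Finset.univ.filter (fun x => ¬ P x)).card := by
  classical
  set rA := (th x y).rangeRestrict with hrA
  set xA : Option (Bi i) → AA x y := fun o => rA (MvPolynomial.X (o, 0)) with hxA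
  set yA : Option (Bi i) → AA x y := fun o => rA (MvPolynomial.X (o, 1)) with hyA
  have hxv : ∀ o, ((xA o : AA x y) : kb) = x o := by
    intro o
    change MvPolynomial.aeval (pv x y) (MvPolynomial.X (o, 0)) = x o
    rw [MvPolynomial.aeval_X]
    rfl
  have hyv : ∀ o, ((yA o : AA x y) : kb) = y o := by
    intro o
    change MvPolynomial.aeval (pv x y) (MvPolynomial.X (o, 1)) = y o
    rw [MvPolynomial.aeval_X]
    rfl
  set aA : AA x y := ((a i : ℤ) : AA x y) with haA
  set ι : AA x y →+* kb := (th x y).range.subtype with hι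
  have hιinj : Function.Injective ι := Subtype.val_injective
  have hcz : CharZero (AA x y) := by
    refine ⟨fun m n h => ?_⟩
    have h1 := congrArg ι h
    rw [map_natCast, map_natCast] at h1
    exact_mod_cast h1
  have hcF : CharZero F := charZero_of_injective_algebraMap (algebraMap kb F).injective
  -- the slope
  have hne := ne_of_trans hX (x none)
  have hyn : y none ^ 2 = x none ^ 3 + (a i : kb) * x none + (b i : kb) := hy none
  have hq := lam_quad (a i : kb) (b i : kb) (x none) (y none) hE hyn hne hl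
  obtain ⟨eF, heF, hst⟩ := lam_struct (a i : kb) (b i : kb) X Y hE hX hG (x none) (y none) hyn hyh
    l hl
  let _ : Algebra (FractionRing kb[X]) F := eF.toAlgebra
  obtain ⟨hrk, htop⟩ := hst
  -- the homomorphism to the field
  obtain ⟨j, hj1, hj2, hj3, hj4⟩ := bb_hom aA (xA none) (yA none) ((algebraMap kb F).comp ι) l X (by
    have e1 : ((algebraMap kb F).comp ι) (xA none) = algebraMap kb F (x none) :=
      congrArg (algebraMap kb F) (hxv none)
    have e2 : ((algebraMap kb F).comp ι) (yA none) = algebraMap kb F (y none) :=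
      congrArg (algebraMap kb F) (hyv none)
    have e3 : ((algebraMap kb F).comp ι) aA = algebraMap kb F (a i : kb) := by
      rw [haA, map_intCast, map_intCast]
    rw [e1, e2, e3]
    exact hq)
  have hjc : ∀ c, j (bc aA (xA none) (yA none) c) = algebraMap kb F (ι c) := fun c =>
    DFunLike.congr_fun hj1 c
  have hjx : ∀ o, j (bc aA (xA none) (yA none) (xA o)) = algebraMap kb F (x o) := fun o =>
    (hjc _).trans (congrArg (algebraMap kb F) (hxv o))
  have hjy : ∀ o, j (bc aA (xA none) (yA none) (yA o)) = algebraMap kb F (y o) := fun o =>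
    (hjc _).trans (congrArg (algebraMap kb F) (hyv o))
  have hjY : j (bY aA (xA none) (yA none)) = Y := by
    rw [bY, map_add, map_mul, map_sub, hj2, hj3, hjx, hjy]
    linear_combination hl
  have hjX2 : j (bX2 aA (xA none) (yA none)) = X2 := by
    rw [bX2, map_sub, map_sub, map_pow, hj2, hj3, hjx, hX2]
  have hjY2 : j (bY2 aA (xA none) (yA none)) = Y2 := by
    rw [bY2, map_neg, map_add, map_mul, map_sub, hj2, hjX2, hjx, hjy, hY2]
  have hnt : Nontrivial (BB aA (xA none) (yA none)) :=
    nontriv _ (bb_free aA (xA none) (yA none)) two_pos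
  set g1 : (BB aA (xA none) (yA none))[X] := Φ.map (evp
    (ext i (fun j => bc aA (xA none) (yA none) (xA (some j))) (bX aA (xA none) (yA none)))
    (ext i (fun j => bc aA (xA none) (yA none) (yA (some j))) (bY aA (xA none) (yA none))))
    with hg1
  set g2 : (BB aA (xA none) (yA none))[X] := Φ.map (evp
    (ext i (fun j => bc aA (xA none) (yA none) (xA (some j))) (bX2 aA (xA none) (yA none)))
    (ext i (fun j => bc aA (xA none) (yA none) (yA (some j))) (bY2 aA (xA none) (yA none))))
    with hg2
  have hg1j : g1.map j = Φ.map (evp (ext i (fun j => algebraMap kb F (x (some j))) X)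
      (ext i (fun j => algebraMap kb F (y (some j))) Y)) := by
    rw [hg1, Polynomial.map_map, evp_ext]
    simp only [hjx, hjy, hj3, hjY]
  have hg2j : g2.map j = Φ.map (evp (ext i (fun j => algebraMap kb F (x (some j))) X2)
      (ext i (fun j => algebraMap kb F (y (some j))) Y2)) := by
    rw [hg2, Polynomial.map_map, evp_ext]
    simp only [hjx, hjy, hjX2, hjY2]
  obtain ⟨i0, hi0⟩ : ∃ i0 : kb, i0 ^ 2 = -1 := IsAlgClosed.exists_pow_nat_eq _ (by norm_num)
  obtain ⟨s, Cst, hs, hC, hmain⟩ := tower_sum (K1 := FractionRing kb[X]) ι hιinj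
    (AdjoinRoot.of (quad aA (xA none) (yA none))) 2 two_pos (bb_free aA (xA none) (yA none)) j
    (by
      intro p
      have h1 := DFunLike.congr_fun hj4 p
      change j (AdjoinRoot.of _ p) = eval₂ ((algebraMap kb F).comp ι) l p at h1
      rw [h1]
      change _ = eF (algebraMap kb[X] _ (p.map ι))
      rw [heF, aeval_def, eval₂_map])
    (by
      rw [eq_top_iff, ← htop]
      apply Algebra.adjoin_mono
      rintro z hz
      rw [Set.mem_singleton_iff.1 hz]
      exact ⟨_, hj3⟩)
    hrk g1 g2 (hΦ.map _) (hΦ.map _) d hd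
    (by rw [hg1, hΦ.natDegree_map]; exact hΦd) (by rw [hg2, hΦ.natDegree_map]; exact hΦd)
    (by rw [hg1j]; exact hG1) (by rw [hg2j]; exact hG2) (algebraMap kb F i0)
    (by rw [← map_pow, hi0, map_neg, map_one])
    (by
      intro w
      rw [hg1j, hg2j, discr_map _ _ hΦ, discr_map _ _ hΦ]
      exact hns w) c1 c2 hc1 hc2
  refine ⟨s, Cst, hs, hC, ?_⟩
  intro k _ _ _ x' y' ψ hψ hψs hD hy0 hnsg _ P _ hP
  have hψx : ∀ o, ψ (xA o) = x' o := by
    intro o
    rw [hxA]
    change ψ (rA _) = _
    rw [hψ, MvPolynomial.aeval_X]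
    rfl
  have hψy : ∀ o, ψ (yA o) = y' o := by
    intro o
    rw [hyA]
    change ψ (rA _) = _
    rw [hψ, MvPolynomial.aeval_X]
    rfl
  obtain ⟨e, he⟩ := base_pts aA (xA none) (yA none) ψ (a i : k) (b i : k) (x' none) (y' none)
    (by rw [haA, map_intCast]) (hψx none) (hψy none) hD hy0 hnsg
  have hec : ∀ R c, (e R).1 (bc aA (xA none) (yA none) c) = ψ c := fun R c =>
    DFunLike.congr_fun (e R).2 c
  have hm1 : ∀ R, g1.map (e R).1 = Φ.map (evp (ext i (fun j => x' (some j)) (crd R.1).1)
        (ext i (fun j => y' (some j)) (crd R.1).2)) := by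
    intro R
    obtain ⟨e1, e2, e3, e4⟩ := he R
    rw [hg1, Polynomial.map_map, evp_ext]
    simp only [hec, hψx, hψy, e1, e2]
  have hm2 : ∀ R, g2.map (e R).1 = Φ.map (evp (ext i (fun j => x' (some j))
          (crd (R.1 + Affine.Point.some (x' none) (y' none) hnsg)).1)
        (ext i (fun j => y' (some j))
          (crd (R.1 + Affine.Point.some (x' none) (y' none) hnsg)).2)) := by
    intro R
    obtain ⟨e1, e2, e3, e4⟩ := he R
    rw [hg2, Polynomial.map_map, evp_ext]
    simp only [hec, hψx, hψy, e3, e4]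
  let e' : {R : Pt (a i : k) (b i : k) // R ≠ 0 ∧
      R + Affine.Point.some (x' none) (y' none) hnsg ≠ 0} ≃
      {φ : BB aA (xA none) (yA none) →+* k //
        φ.comp ((AdjoinRoot.of (quad aA (xA none) (yA none))).comp Polynomial.C) = ψ} := e
  have hm1' : ∀ R, g1.map (e' R).1 = Φ.map (evp (ext i (fun j => x' (some j)) (crd R.1).1)
        (ext i (fun j => y' (some j)) (crd R.1).2)) := hm1
  have hm2' : ∀ R, g2.map (e' R).1 = Φ.map (evp (ext i (fun j => x' (some j))
          (crd (R.1 + Affine.Point.some (x' none) (y' none) hnsg)).1)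
        (ext i (fun j => y' (some j))
          (crd (R.1 + Affine.Point.some (x' none) (y' none) hnsg)).2)) := hm2
  have key := hmain k ψ hψs _ e' P (fun R hR => by
    rw [hm1', hm2']
    exact hP R hR)
  simp only [hm1', hm2'] at key
  exact key

end

end Pool.Agent.J4H11.SC
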