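import Mathlib

/-!
# Points with a root in a coset: the count from the correlations
-/

set_option autoImplicit false

open Finset

namespace Pool.Agent.J4H11.SC

section
variable {E : Type} [AddCommGroup E] [Fintype E] [DecidableEq E]

/-- the variance of the sums over the cosets of a subgroup -/
theorem coset_var (g : E → ℝ) (H : AddSubgroup E) [DecidablePred (· ∈ H)] (P0 : E) :
    (∑ h ∈ univ.filter (· ∈ H), g (P0 + h)) ^ 2 ≤
      ∑ h ∈ univ.filter (· ∈ H), ∑ R, g R * g (R + h) := by
  set HH := univ.filter (· ∈ H) with hHH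
  set s : E → ℝ := fun Q => ∑ h ∈ HH, g (Q + h) with hs
  have hmem : ∀ h, h ∈ HH ↔ h ∈ H := by intro h; simp [hHH]
  have hinv : ∀ Q, ∀ h ∈ HH, s (Q + h) = s Q := by
    intro Q h hh
    rw [hs]
    refine sum_bij' (fun t _ => h + t) (fun t _ => -h + t) ?_ ?_ ?_ ?_ ?_
    · intro t ht
      rw [hmem] at ht hh ⊢
      exact H.add_mem hh ht
    · intro t ht
      rw [hmem] at ht hh ⊢
      exact H.add_mem (H.neg_mem hh) ht
    · intro t _
      simp
    · intro t _
      simp
    · intro t _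
      rw [add_assoc]
  have hq : (0 : ℝ) < HH.card := by
    have : 0 < HH.card := card_pos.2 ⟨0, (hmem 0).2 H.zero_mem⟩
    exact_mod_cast this
  have h1 : ∑ h ∈ HH, ∑ R, g R * g (R + h) = ∑ R, s R * g R := by
    rw [sum_comm]
    refine sum_congr rfl fun R _ => ?_
    rw [hs, ← mul_sum, mul_comm]
  have h2 : (HH.card : ℝ) * ∑ R, s R * g R = ∑ R, s R ^ 2 := by
    have h3 : ∀ h ∈ HH, ∑ R, s R * g R = ∑ R, s R * g (R + h) := by
      intro h hh
      rw [← Equiv.sum_comp (Equiv.addRight h) (fun R => s R * g R)]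
      refine sum_congr rfl fun R _ => ?_
      rw [Equiv.coe_addRight, hinv R h hh]
    rw [← nsmul_eq_mul, ← sum_const, sum_congr rfl h3, sum_comm]
    refine sum_congr rfl fun R _ => ?_
    rw [← mul_sum, pow_two]
  have h3 : (HH.card : ℝ) * s P0 ^ 2 ≤ ∑ R, s R ^ 2 := by
    have h4 : ∑ h ∈ HH, s (P0 + h) ^ 2 = (HH.card : ℝ) * s P0 ^ 2 := by
      rw [sum_congr rfl fun h hh => by rw [hinv P0 h hh], sum_const, nsmul_eq_mul]
    rw [← h4]
    have h5 : ∑ R ∈ HH.image (fun h => P0 + h), s R ^ 2 = ∑ h ∈ HH, s (P0 + h) ^ 2 :=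
      sum_image (fun x _ y _ h => add_left_cancel h)
    rw [← h5]
    exact sum_le_sum_of_subset_of_nonneg (subset_univ _) (fun _ _ _ => sq_nonneg _)
  rw [h1]
  have h4 : (HH.card : ℝ) * s P0 ^ 2 ≤ (HH.card : ℝ) * ∑ R, s R * g R := by rw [h2]; exact h3
  exact le_of_mul_le_mul_left h4 hq

/-- the falling factorial of the number of roots, `0` at the exceptional points -/
noncomputable def Mc (N : E → ℕ) (good : E → Prop) [DecidablePred good] (c : ℕ) (R : E) : ℝ :=
  if good R then (((N R).descFactorial c : ℕ) : ℝ) else 0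

theorem loc_abs (N : E → ℕ) (good : E → Prop) [DecidablePred good] (d : ℕ) (hd : 2 ≤ d)
    (hN : ∀ R, good R → N R ≤ d) (p ε β Z : ℝ) (hε : 0 ≤ ε) (Bad : Finset E)
    (hBad : (Bad.card : ℝ) ≤ β)
    (h1 : ∀ c, c = 1 ∨ c = 2 → ∀ h, h ∉ Bad →
      |∑ R, Mc N good c R * Mc N good c (R + h) - p| ≤ ε)
    (h2 : ∀ c, c = 1 ∨ c = 2 → |∑ R, Mc N good c R - p| ≤ ε)
    (h3 : |(Fintype.card E : ℝ) - p| ≤ ε)
    (hZ : ((univ.filter (fun R => ¬ good R)).card : ℝ) ≤ Z)
    (H : AddSubgroup E) [DecidablePred (· ∈ H)] (P0 : E) :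
    (d : ℝ) * ((univ.filter (fun h => h ∈ H ∧ (¬ good (P0 + h) ∨ 1 ≤ N (P0 + h)))).card : ℝ) ≤
      (d - 1) * (univ.filter (· ∈ H)).card +
      (d + 1) * √(β * (d : ℝ) ^ 4 * Fintype.card E + (univ.filter (· ∈ H)).card * (4 * ε)) +
      d * Z := by
  set HH := univ.filter (· ∈ H) with hHH
  set q : ℝ := (HH.card : ℝ) with hq
  have hd1 : (2 : ℝ) ≤ d := by exact_mod_cast hd
  set δ := √(β * (d : ℝ) ^ 4 * Fintype.card E + q * (4 * ε)) with hδ
  have hM0 : ∀ c R, 0 ≤ Mc N good c R := by
    intro c R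
    unfold Mc
    split_ifs
    · positivity
    · exact le_rfl
  have hMd : ∀ c, c = 1 ∨ c = 2 → ∀ R, Mc N good c R ≤ (d : ℝ) ^ 2 := by
    intro c hc R
    unfold Mc
    split_ifs with hg
    · have e1 : (N R).descFactorial c ≤ d ^ 2 := by
        refine (Nat.descFactorial_le_pow _ _).trans ?_
        refine (Nat.pow_le_pow_left (hN R hg) c).trans ?_
        exact Nat.pow_le_pow_right (by omega) (by omega)
      exact_mod_cast e1
    · positivity
  have hgb : ∀ c, c = 1 ∨ c = 2 → ∀ R, |Mc N good c R - 1| ≤ (d : ℝ) ^ 2 := by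
    intro c hc R
    rw [abs_le]
    constructor
    · have := hM0 c R
      nlinarith
    · have := hMd c hc R
      linarith
  -- the sums over the coset
  have hvar : ∀ c, c = 1 ∨ c = 2 → |∑ h ∈ HH, Mc N good c (P0 + h) - q| ≤ δ := by
    intro c hc
    set g : E → ℝ := fun R => Mc N good c R - 1 with hg
    have e1 : ∑ h ∈ HH, Mc N good c (P0 + h) - q = ∑ h ∈ HH, g (P0 + h) := by
      rw [hg, sum_sub_distrib, sum_const, nsmul_eq_mul, mul_one]
    rw [e1]
    apply Real.abs_le_sqrt
    refine (coset_var g H P0).trans ?_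
    have e2 : ∀ h, h ∉ Bad → ∑ R, g R * g (R + h) ≤ 4 * ε := by
      intro h hh
      have e3 : ∑ R, g R * g (R + h) = (∑ R, Mc N good c R * Mc N good c (R + h) - p) -
          2 * (∑ R, Mc N good c R - p) + ((Fintype.card E : ℝ) - p) := by
        have e4 : ∑ R, Mc N good c (R + h) = ∑ R, Mc N good c R :=
          Equiv.sum_comp (Equiv.addRight h) (fun R => Mc N good c R)
        have e5 : ∑ R, g R * g (R + h) = ∑ R, (Mc N good c R * Mc N good c (R + h) -
            Mc N good c R - Mc N good c (R + h) + 1) := by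
          refine sum_congr rfl fun R _ => ?_
          rw [hg]
          ring
        rw [e5, sum_add_distrib, sum_sub_distrib, sum_sub_distrib, e4, sum_const, card_univ,
          nsmul_eq_mul, mul_one]
        ring
      have f1 := abs_le.1 (h1 c hc h hh)
      have f2 := abs_le.1 (h2 c hc)
      have f3 := abs_le.1 h3
      rw [e3]
      linarith
    have e6 : ∀ h, ∑ R, g R * g (R + h) ≤ (d : ℝ) ^ 4 * Fintype.card E := by
      intro h
      refine (sum_le_card_nsmul _ _ ((d : ℝ) ^ 4) fun R _ => ?_).trans ?_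
      · refine (le_abs_self _).trans ?_
        rw [abs_mul]
        calc |g R| * |g (R + h)| ≤ (d : ℝ) ^ 2 * (d : ℝ) ^ 2 :=
              mul_le_mul (hgb c hc R) (hgb c hc (R + h)) (abs_nonneg _) (by positivity)
          _ = (d : ℝ) ^ 4 := by ring
      · rw [card_univ, nsmul_eq_mul, mul_comm]
    rw [← hHH, ← sum_filter_add_sum_filter_not HH (fun h => h ∈ Bad)]
    apply add_le_add
    · refine (sum_le_card_nsmul _ _ _ fun h _ => e6 h).trans ?_
      rw [nsmul_eq_mul, mul_assoc]
      apply mul_le_mul_of_nonneg_right _ (by positivity)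
      refine le_trans ?_ hBad
      exact_mod_cast card_le_card (fun h hh => (mem_filter.1 hh).2)
    · refine (sum_le_card_nsmul _ _ (4 * ε) fun h hh => e2 h (mem_filter.1 hh).2).trans ?_
      rw [nsmul_eq_mul]
      apply mul_le_mul_of_nonneg_right _ (by positivity)
      rw [hq]
      exact_mod_cast card_le_card (filter_subset _ _)
  have v1 := abs_le.1 (hvar 1 (Or.inl rfl))
  have v2 := abs_le.1 (hvar 2 (Or.inr rfl))
  -- the function f
  set T := HH.filter (fun h => good (P0 + h) ∧ 1 ≤ N (P0 + h)) with hT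
  have hf : ∑ h ∈ HH, (Mc N good 2 (P0 + h) - d * Mc N good 1 (P0 + h) + (d - 1)) ≤
      (d - 1) * q - d * T.card := by
    have e1 : ∀ h ∈ HH, (Mc N good 2 (P0 + h) - d * Mc N good 1 (P0 + h) + (d - 1)) ≤
        (d - 1) - d * (if good (P0 + h) ∧ 1 ≤ N (P0 + h) then (1 : ℝ) else 0) := by
      intro h _
      unfold Mc
      by_cases hg : good (P0 + h)
      · rw [if_pos hg, if_pos hg]
        have hNd := hN _ hg
        set n := N (P0 + h) with hn
        have e2 : ((n.descFactorial 2 : ℕ) : ℝ) = n * (n - 1) := by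
          rcases n with _ | n
          · simp
          · rw [Nat.succ_descFactorial_succ, Nat.descFactorial_one]
            push_cast
            ring
        rw [e2, Nat.descFactorial_one]
        by_cases h1n : 1 ≤ n
        · rw [if_pos ⟨hg, h1n⟩]
          have e3 : (1 : ℝ) ≤ n := by exact_mod_cast h1n
          have e4 : (n : ℝ) ≤ d := by exact_mod_cast hNd
          nlinarith
        · rw [if_neg (fun h => h1n h.2)]
          have e3 : n = 0 := by omega
          rw [e3]
          norm_num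
      · rw [if_neg hg, if_neg hg, if_neg (fun h => hg h.1)]
        norm_num
    refine (sum_le_sum e1).trans ?_
    rw [sum_sub_distrib, sum_const, nsmul_eq_mul, ← mul_sum, ← sum_filter, sum_const,
      nsmul_eq_mul, mul_one, mul_comm]
  have hf2 : ∑ h ∈ HH, (Mc N good 2 (P0 + h) - d * Mc N good 1 (P0 + h) + (d - 1)) =
      ∑ h ∈ HH, Mc N good 2 (P0 + h) - d * ∑ h ∈ HH, Mc N good 1 (P0 + h) + (d - 1) * q := by
    rw [sum_add_distrib, sum_sub_distrib, ← mul_sum, sum_const, nsmul_eq_mul]
    ring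
  have hTb : (d : ℝ) * T.card ≤ (d - 1) * q + (d + 1) * δ := by
    rw [hf2] at hf
    nlinarith [v1.1, v1.2, v2.1, v2.2]
  have hcard : ((univ.filter (fun h => h ∈ H ∧ (¬ good (P0 + h) ∨ 1 ≤ N (P0 + h)))).card : ℝ) ≤
      T.card + Z := by
    have hsub : univ.filter (fun h => h ∈ H ∧ (¬ good (P0 + h) ∨ 1 ≤ N (P0 + h))) ⊆
        T ∪ univ.filter (fun h => ¬ good (P0 + h)) := by
      intro h hh
      rw [mem_filter] at hh
      rw [mem_union]
      by_cases hg : good (P0 + h)
      · left
        rw [hT, mem_filter, hHH, mem_filter]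
        exact ⟨⟨mem_univ _, hh.2.1⟩, hg, hh.2.2.resolve_left (fun h => h hg)⟩
      · right
        rw [mem_filter]
        exact ⟨mem_univ _, hg⟩
    have hc2 : (univ.filter (fun h => ¬ good (P0 + h))).card ≤
        (univ.filter (fun R => ¬ good R)).card := by
      refine card_le_card_of_injOn (fun h => P0 + h) ?_ ?_
      · intro h hh
        rw [mem_coe, mem_filter] at hh ⊢
        exact ⟨mem_univ _, hh.2⟩
      · intro x _ y _ h
        exact add_left_cancel h
    have hc1 := (card_le_card hsub).trans (card_union_le _ _)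
    have hc3 : ((univ.filter (fun h => h ∈ H ∧ (¬ good (P0 + h) ∨ 1 ≤ N (P0 + h)))).card : ℝ) ≤
        T.card + (univ.filter (fun R => ¬ good R)).card := by
      exact_mod_cast hc1.trans (Nat.add_le_add_left hc2 _)
    linarith
  have hd0 : (0 : ℝ) ≤ d := by linarith
  calc (d : ℝ) * ((univ.filter (fun h => h ∈ H ∧ (¬ good (P0 + h) ∨ 1 ≤ N (P0 + h)))).card : ℝ) ≤
      d * (T.card + Z) := mul_le_mul_of_nonneg_left hcard hd0
    _ = d * T.card + d * Z := by ring
    _ ≤ _ := by linarith

end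

end Pool.Agent.J4H11.SC
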