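import Pool.Agent.J4H11.SC.Ext
import Pool.Agent.J4H11.RC.LocB

/-!
# The family of the double covers of the line by the elliptic curves
-/

set_option autoImplicit false

open Polynomial Module Pool.Agent.J4H11.RC Pool.Agent.H901R3.MS WeierstrassCurve

namespace Pool.Agent.J4H11.SC

section
variable {A : Type} [CommRing A] (a0 xh yh : A)

/-- the relation between the slope and the `x`-coordinate -/
noncomputable def quad : A[X][X] :=
  X ^ 2 - C (X ^ 2 - C xh) * X + C (C xh * X ^ 2 - C (yh + yh) * X + C (xh ^ 2 + a0))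

theorem quad_monic : (quad a0 xh yh).Monic := by
  nontriviality A
  unfold quad
  monicity!

theorem quad_deg [Nontrivial A] : (quad a0 xh yh).natDegree = 2 := by
  unfold quad
  compute_degree!

theorem quad_eval {S : Type} [CommRing S] (g : A[X] →+* S) (x : S) :
    eval₂ g x (quad a0 xh yh) = x ^ 2 - (g X ^ 2 - g (C xh)) * x + (g (C xh) * g X ^ 2 -
      (g (C yh) + g (C yh)) * g X + g (C xh) ^ 2 + g (C a0)) := by
  rw [quad]
  simp only [eval₂_add, eval₂_sub, eval₂_mul, eval₂_pow, eval₂_X, eval₂_C, map_mul, map_add,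
    map_sub, map_pow]
  ring

/-- the base ring -/
abbrev BB : Type := AdjoinRoot (quad a0 xh yh)

/-- the function `x(R)` -/
noncomputable def bX : BB a0 xh yh := AdjoinRoot.root _
/-- the slope -/
noncomputable def bl : BB a0 xh yh := AdjoinRoot.of _ X
/-- the constants -/
noncomputable def bc : A →+* BB a0 xh yh := (AdjoinRoot.of _).comp C
/-- the function `y(R)` -/
noncomputable def bY : BB a0 xh yh := bc a0 xh yh yh + bl a0 xh yh * (bX a0 xh yh - bc a0 xh yh xh)
/-- the function `x(R + h)` -/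
noncomputable def bX2 : BB a0 xh yh := bl a0 xh yh ^ 2 - bX a0 xh yh - bc a0 xh yh xh
/-- the function `y(R + h)` -/
noncomputable def bY2 : BB a0 xh yh :=
  -(bc a0 xh yh yh + bl a0 xh yh * (bX2 a0 xh yh - bc a0 xh yh xh))

theorem bb_free [Nontrivial A] : FreeRk (AdjoinRoot.of (quad a0 xh yh)) 2 :=
  freeRk_adj _ (quad_monic a0 xh yh) 2 (quad_deg a0 xh yh)

theorem bb_hom {S : Type} [CommRing S] (ψ : A →+* S) (l x : S)
    (h : x ^ 2 - (l ^ 2 - ψ xh) * x + (ψ xh * l ^ 2 - 2 * ψ yh * l + ψ xh ^ 2 + ψ a0) = 0) :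
    ∃ φ : BB a0 xh yh →+* S, φ.comp (bc a0 xh yh) = ψ ∧ φ (bl a0 xh yh) = l ∧
      φ (bX a0 xh yh) = x ∧ φ.comp (AdjoinRoot.of (quad a0 xh yh)) = eval₂RingHom ψ l := by
  have hev : eval₂ (eval₂RingHom ψ l) x (quad a0 xh yh) = 0 := by
    rw [quad_eval]
    simp only [coe_eval₂RingHom, eval₂_X, eval₂_C]
    linear_combination h
  refine ⟨AdjoinRoot.lift (eval₂RingHom ψ l) x hev, ?_, ?_, ?_, ?_⟩
  · refine RingHom.ext fun c => ?_
    change AdjoinRoot.lift (eval₂RingHom ψ l) x hev (AdjoinRoot.of _ (C c)) = _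
    rw [AdjoinRoot.lift_of, coe_eval₂RingHom, eval₂_C]
  · change AdjoinRoot.lift (eval₂RingHom ψ l) x hev (AdjoinRoot.of _ X) = _
    rw [AdjoinRoot.lift_of, coe_eval₂RingHom, eval₂_X]
  · exact AdjoinRoot.lift_root hev
  · refine RingHom.ext fun c => ?_
    rw [RingHom.comp_apply, AdjoinRoot.lift_of]

theorem bb_ext {S : Type} [CommRing S] (φ φ' : BB a0 xh yh →+* S)
    (h1 : φ.comp (bc a0 xh yh) = φ'.comp (bc a0 xh yh)) (h2 : φ (bl a0 xh yh) = φ' (bl a0 xh yh))
    (h3 : φ (bX a0 xh yh) = φ' (bX a0 xh yh)) : φ = φ' := by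
  apply AdjoinRoot.ringHom_ext
  · apply Polynomial.ringHom_ext
    · intro c
      exact DFunLike.congr_fun h1 c
    · exact h2
  · exact h3

theorem bb_rel {S : Type} [CommRing S] (φ : BB a0 xh yh →+* S) (ψ : A →+* S)
    (h1 : φ.comp (bc a0 xh yh) = ψ) : φ (bX a0 xh yh) ^ 2 - (φ (bl a0 xh yh) ^ 2 - ψ xh) *
      φ (bX a0 xh yh) + (ψ xh * φ (bl a0 xh yh) ^ 2 - 2 * ψ yh * φ (bl a0 xh yh) +
      ψ xh ^ 2 + ψ a0) = 0 := by
  have h0 : eval₂ (AdjoinRoot.of (quad a0 xh yh)) (bX a0 xh yh) (quad a0 xh yh) = 0 :=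
    AdjoinRoot.eval₂_root _
  have h2 : ∀ c, φ (AdjoinRoot.of _ (C c)) = ψ c := fun c => DFunLike.congr_fun h1 c
  have h3 := congrArg φ ((quad_eval a0 xh yh _ _).symm.trans h0)
  simp only [map_mul, map_add, map_sub, map_pow, map_zero, h2] at h3
  change φ (bX a0 xh yh) ^ 2 - (φ (bl a0 xh yh) ^ 2 - ψ xh) *
      φ (bX a0 xh yh) + (ψ xh * φ (bl a0 xh yh) ^ 2 - (ψ yh + ψ yh) * φ (bl a0 xh yh) +
      ψ xh ^ 2 + ψ a0) = 0 at h3
  linear_combination h3

end

section
variable {A k : Type} [CommRing A] [Field k] [DecidableEq k] (a0 xh yh : A)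
  (ψ : A →+* k) (a' b' xh' yh' : k) (ha : ψ a0 = a') (hx : ψ xh = xh')
  (hy : ψ yh = yh') (hD : Disc a' b') (hy0 : yh' ≠ 0)
  (hns : (CV a' b').toAffine.Nonsingular xh' yh')

/-- the slope of the line through `R` and `h` -/
def slp (a' b' xh' yh' : k) (R : Pt a' b') : k :=
  if (crd R).1 = xh' then (3 * xh' ^ 2 + a') / (2 * yh') else
    ((crd R).2 - yh') / ((crd R).1 - xh')

include hD hy0 in
theorem slp_spec (R : Pt a' b') (hR : R ≠ 0)
    (hR2 : R + Affine.Point.some xh' yh' hns ≠ 0) :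
    (crd R).2 = yh' + slp a' b' xh' yh' R * ((crd R).1 - xh') ∧
    (crd R).1 ^ 2 - (slp a' b' xh' yh' R ^ 2 - xh') * (crd R).1 +
      (xh' * slp a' b' xh' yh' R ^ 2 - 2 * yh' * slp a' b' xh' yh' R + xh' ^ 2 + a') = 0 ∧
    (crd (R + Affine.Point.some xh' yh' hns)).1 = slp a' b' xh' yh' R ^ 2 - (crd R).1 - xh' ∧
    (crd (R + Affine.Point.some xh' yh' hns)).2 = -(yh' + slp a' b' xh' yh' R *
      (slp a' b' xh' yh' R ^ 2 - (crd R).1 - xh' - xh')) := by
  have h2 : (2 : k) ≠ 0 := by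
    intro h0
    apply hD
    rw [h0, zero_mul]
  have h2y : 2 * yh' ≠ 0 := mul_ne_zero h2 hy0
  rcases R with _ | ⟨x, y, hxy⟩
  · exact absurd rfl hR
  have e1 := eqn_of hxy
  have e2 := eqn_of hns
  unfold Eqn at e1 e2
  change y = yh' + slp a' b' xh' yh' (Affine.Point.some x y hxy) * (x - xh') ∧
    x ^ 2 - (slp a' b' xh' yh' (Affine.Point.some x y hxy) ^ 2 - xh') * x +
      (xh' * slp a' b' xh' yh' (Affine.Point.some x y hxy) ^ 2 -
        2 * yh' * slp a' b' xh' yh' (Affine.Point.some x y hxy) + xh' ^ 2 + a') = 0 ∧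
    (crd (Affine.Point.some x y hxy + Affine.Point.some xh' yh' hns : Pt a' b')).1 =
      slp a' b' xh' yh' (Affine.Point.some x y hxy) ^ 2 - x - xh' ∧
    (crd (Affine.Point.some x y hxy + Affine.Point.some xh' yh' hns : Pt a' b')).2 =
      -(yh' + slp a' b' xh' yh' (Affine.Point.some x y hxy) *
      (slp a' b' xh' yh' (Affine.Point.some x y hxy) ^ 2 - x - xh' - xh'))
  by_cases hxx : x = xh'
  · have hl : slp a' b' xh' yh' (Affine.Point.some x y hxy) = (3 * xh' ^ 2 + a') / (2 * yh') := by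
      unfold slp
      rw [if_pos]
      exact hxx
    have hyy : y ≠ -yh' := by
      intro hyy
      apply hR2
      exact add_opp hxy hns hxx hyy
    have hy' : y = yh' := by
      have h3 : (y - yh') * (y + yh') = 0 := by
        rw [hxx] at e1
        linear_combination e1 - e2
      rcases mul_eq_zero.1 h3 with h4 | h4
      · exact sub_eq_zero.1 h4
      · exact absurd (eq_neg_of_add_eq_zero_left h4) hyy
    obtain ⟨h3, e⟩ := add_dbl hxy hns hxx hyy _ _ _ rfl rfl rfl
    rw [hl, e]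
    subst hxx hy'
    refine ⟨by ring, ?_, rfl, ?_⟩
    · field_simp
      ring
    · change -(_ * (_ - x) + y) = _
      ring
  · have hu : x - xh' ≠ 0 := sub_ne_zero.2 hxx
    have hl : slp a' b' xh' yh' (Affine.Point.some x y hxy) = (y - yh') / (x - xh') := by
      unfold slp
      rw [if_neg]
      · rfl
      · exact hxx
    obtain ⟨h3, e⟩ := add_ne hxy hns hxx _ _ _ rfl rfl rfl
    rw [hl, e]
    refine ⟨by field_simp; ring, ?_, rfl, ?_⟩
    · apply mul_left_cancel₀ hu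
      rw [mul_zero]
      field_simp
      linear_combination (x - xh') * (e2 - e1)
    · change -(_ * (_ - x) + y) = _
      field_simp
      ring

include ha hx hy hD hy0 in
theorem base_pts : ∃ e : {R : Pt a' b' // R ≠ 0 ∧ R + Affine.Point.some xh' yh' hns ≠ 0} ≃
    {φ : BB a0 xh yh →+* k // φ.comp (bc a0 xh yh) = ψ}, ∀ R,
      (e R).1 (bX a0 xh yh) = (crd R.1).1 ∧ (e R).1 (bY a0 xh yh) = (crd R.1).2 ∧
      (e R).1 (bX2 a0 xh yh) = (crd (R.1 + Affine.Point.some xh' yh' hns)).1 ∧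
      (e R).1 (bY2 a0 xh yh) = (crd (R.1 + Affine.Point.some xh' yh' hns)).2 := by
  have h2 : (2 : k) ≠ 0 := by
    intro h0
    apply hD
    rw [h0, zero_mul]
  have hsp := fun R : {R : Pt a' b' // R ≠ 0 ∧ R + Affine.Point.some xh' yh' hns ≠ 0} =>
    slp_spec a' b' xh' yh' hD hy0 hns R.1 R.2.1 R.2.2
  have hex := fun R : {R : Pt a' b' // R ≠ 0 ∧ R + Affine.Point.some xh' yh' hns ≠ 0} =>
    bb_hom a0 xh yh ψ (slp a' b' xh' yh' R.1) (crd R.1).1 (by
      rw [hx, hy, ha]
      exact (hsp R).2.1)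
  choose φ hφ1 hφ2 hφ3 hφ4 using hex
  have hval : ∀ R, φ R (bY a0 xh yh) = (crd R.1).2 ∧
      φ R (bX2 a0 xh yh) = (crd (R.1 + Affine.Point.some xh' yh' hns)).1 ∧
      φ R (bY2 a0 xh yh) = (crd (R.1 + Affine.Point.some xh' yh' hns)).2 := by
    intro R
    have hc : ∀ c, φ R (bc a0 xh yh c) = ψ c := fun c => DFunLike.congr_fun (hφ1 R) c
    obtain ⟨s1, s2, s3, s4⟩ := hsp R
    have t3 : φ R (bX2 a0 xh yh) = (crd (R.1 + Affine.Point.some xh' yh' hns)).1 := by
      rw [bX2, s3]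
      simp only [map_sub, map_pow, hφ2, hφ3, hc, hx]
    refine ⟨?_, t3, ?_⟩
    · rw [bY, s1]
      simp only [map_add, map_mul, map_sub, hφ2, hφ3, hc, hx, hy]
    · rw [bY2, s4]
      simp only [map_neg, map_add, map_mul, map_sub, t3, hφ2, hc, hx, hy, s3]
  let f : {R : Pt a' b' // R ≠ 0 ∧ R + Affine.Point.some xh' yh' hns ≠ 0} →
    {φ : BB a0 xh yh →+* k // φ.comp (bc a0 xh yh) = ψ} := fun R => ⟨φ R, hφ1 R⟩
  have hinj : Function.Injective f := by
    intro R R' h
    have h1 : φ R = φ R' := congrArg Subtype.val h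
    have h3 : (crd R.1).1 = (crd R'.1).1 := by rw [← hφ3, ← hφ3, h1]
    have h4 : (crd R.1).2 = (crd R'.1).2 := by rw [← (hval R).1, ← (hval R').1, h1]
    apply Subtype.ext
    obtain ⟨R, hR, _⟩ := R
    obtain ⟨R', hR', _⟩ := R'
    rcases R with _ | ⟨x, y, hxy⟩
    · exact absurd rfl hR
    rcases R' with _ | ⟨x', y', hxy'⟩
    · exact absurd rfl hR'
    change x = x' at h3
    change y = y' at h4
    subst h3 h4
    rfl
  have hsurj : Function.Surjective f := by
    rintro ⟨χ, hχ⟩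
    have hrel := bb_rel a0 xh yh χ ψ hχ
    rw [hx, hy, ha] at hrel
    set l := χ (bl a0 xh yh) with hl
    set x := χ (bX a0 xh yh) with hxd
    set y := yh' + l * (x - xh') with hyd
    have e2 := eqn_of hns
    unfold Eqn at e2
    have hon : y ^ 2 = x ^ 3 + a' * x + b' := by
      rw [hyd]
      linear_combination e2 - (x - xh') * hrel
    have hxy : (CV a' b').toAffine.Nonsingular x y := (nonsingular_iff hD).2 hon
    have hne : (Affine.Point.some x y hxy : Pt a' b') + Affine.Point.some xh' yh' hns ≠ 0 := by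
      intro h0
      have h1 := eq_neg_of_add_eq_zero_left h0
      rw [neg_some' hns (neg_nonsing hD hns)] at h1
      have hxx : x = xh' := by injection h1
      have hyy : y = -yh' := by injection h1
      rw [hyd, hxx, sub_self, mul_zero, add_zero] at hyy
      apply hy0
      have h3 : 2 * yh' = 0 := by linear_combination hyy
      exact (mul_eq_zero.1 h3).resolve_left h2
    refine ⟨⟨Affine.Point.some x y hxy, (by intro h; cases h), hne⟩, ?_⟩
    apply Subtype.ext
    have hslp : slp a' b' xh' yh' (Affine.Point.some x y hxy) = l := by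
      unfold slp
      change (if x = xh' then _ else (y - yh') / (x - xh')) = l
      by_cases hxx : x = xh'
      · rw [if_pos hxx, div_eq_iff (mul_ne_zero h2 hy0)]
        rw [hxx] at hrel
        linear_combination hrel
      · rw [if_neg hxx, div_eq_iff (sub_ne_zero.2 hxx), hyd]
        ring
    apply bb_ext
    · change (φ _).comp _ = χ.comp _
      rw [hφ1, hχ]
    · change φ _ _ = _
      rw [hφ2]
      exact hslp
    · change φ _ _ = _
      rw [hφ3]
      rfl
  exact ⟨Equiv.ofBijective f ⟨hinj, hsurj⟩, fun R => ⟨hφ3 R, hval R⟩⟩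

end

end Pool.Agent.J4H11.SC
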