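import Pool.Agent.R410.LW.Step

/-!
# The Weil bound in families of curves: plane models
-/

set_option autoImplicit false

open Polynomial Module

namespace Pool.Agent.J4H11.SC

open Pool.Agent.R410 Pool.Agent.R410.LW

/-- `S` is free of rank `n` over `R` by `f` -/
def FreeRk {R S : Type} [CommRing R] [CommRing S] (f : R →+* S) (n : ℕ) : Prop :=
  letI := f.toAlgebra
  Nonempty (Basis (Fin n) R S)

theorem freeRk_span {R S : Type} [CommRing R] [CommRing S] {f : R →+* S} {n : ℕ}
    (h : FreeRk f n) : ∃ e : Fin n → S, ∀ b, ∃ c : Fin n → R, b = ∑ i, f (c i) * e i := by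
  let _ := f.toAlgebra
  obtain ⟨bas⟩ := h
  refine ⟨bas, fun b => ⟨fun i => bas.repr b i, ?_⟩⟩
  conv_lhs => rw [← bas.sum_repr b]
  exact Finset.sum_congr rfl fun i _ => Algebra.smul_def _ _

theorem freeRk_comp {R S T : Type} [CommRing R] [CommRing S] [CommRing T] {f : R →+* S}
    {g : S →+* T} {n m : ℕ} (hf : FreeRk f n) (hg : FreeRk g m) : FreeRk (g.comp f) (n * m) := by
  let _ := f.toAlgebra
  let _ := g.toAlgebra
  let _ := (g.comp f).toAlgebra
  have : IsScalarTower R S T := IsScalarTower.of_algebraMap_eq (fun x => rfl)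
  obtain ⟨b1⟩ := hf
  obtain ⟨b2⟩ := hg
  exact ⟨(b1.smulTower b2).reindex finProdFinEquiv⟩

/-- at most `n` homomorphisms in each fibre -/
theorem hom_le {R B k : Type} [CommRing R] [CommRing B] [Field k] (β : R →+* B) (D : ℕ)
    (hfree : FreeRk β D) (χ : R →+* k) :
    Finite {φ : B →+* k // φ.comp β = χ} ∧ Nat.card {φ : B →+* k // φ.comp β = χ} ≤ D := by
  classical
  obtain ⟨e, he⟩ := freeRk_span hfree
  have hli : LinearIndependent k (fun φ : {φ : B →+* k // φ.comp β = χ} =>
      (fun i => φ.1 (e i) : Fin D → k)) := by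
    rw [linearIndependent_iff']
    intro s g hg φ hφ
    have h1 := linearIndependent_monoidHom B k
    have hinj : Function.Injective (fun φ : {φ : B →+* k // φ.comp β = χ} => (φ.1 : B →* k)) := by
      intro φ φ' h
      apply Subtype.ext
      refine RingHom.ext fun b => ?_
      exact DFunLike.congr_fun h b
    have h2 := h1.comp _ hinj
    rw [linearIndependent_iff'] at h2
    refine h2 s g ?_ φ hφ
    funext b
    obtain ⟨c, hc⟩ := he b
    rw [Finset.sum_apply, Pi.zero_apply]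
    have h3 : ∀ φ : {φ : B →+* k // φ.comp β = χ}, φ.1 b = ∑ i, χ (c i) * φ.1 (e i) := by
      intro φ
      conv_lhs => rw [hc]
      rw [map_sum]
      refine Finset.sum_congr rfl fun i _ => ?_
      rw [map_mul]
      congr 1
      exact DFunLike.congr_fun φ.2 (c i)
    have h4 : ∀ i, ∑ φ ∈ s, g φ * φ.1 (e i) = 0 := by
      intro i
      have := congrFun hg i
      simpa [Finset.sum_apply] using this
    calc ∑ φ ∈ s, (g φ • ((fun f : B →* k => (f : B → k)) ∘ fun φ : {φ : B →+* k // φ.comp β = χ} =>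
          (φ.1 : B →* k)) φ) b
        = ∑ φ ∈ s, g φ * ∑ i, χ (c i) * φ.1 (e i) := by
          refine Finset.sum_congr rfl fun φ _ => ?_
          rw [← h3]
          rfl
      _ = ∑ i, χ (c i) * ∑ φ ∈ s, g φ * φ.1 (e i) := by
          simp_rw [Finset.mul_sum]
          rw [Finset.sum_comm]
          refine Finset.sum_congr rfl fun i _ => Finset.sum_congr rfl fun φ _ => by ring
      _ = 0 := by simp [h4]
  have hf := hli.finite
  refine ⟨hf, ?_⟩
  have := Fintype.ofFinite {φ : B →+* k // φ.comp β = χ}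
  rw [Nat.card_eq_fintype_card]
  have h1 := hli.fintype_card_le_finrank
  rwa [finrank_fin_fun] at h1

/-- homomorphisms and a denominator -/
theorem fib_card {A' B' A0 k : Type} [CommRing A'] [CommRing B'] [CommRing A0] [Field k]
    (γ : A' →+* B') (hinj : Function.Injective γ) (a : A')
    (h : ∀ b : B', ∃ c : A', γ a * b = γ c) (δ : A0 →+* A') (ψ : A0 →+* k) :
    Nat.card {φ : B' →+* k // φ.comp (γ.comp δ) = ψ ∧ φ (γ a) ≠ 0} =
      Nat.card {φ : A' →+* k // φ.comp δ = ψ ∧ φ a ≠ 0} := by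
  choose c hc using h
  have key : ∀ (φ' : A' →+* k), φ' a ≠ 0 → ∃ φ : B' →+* k, φ.comp γ = φ' := by
    intro φ' ha
    have h1 : ∀ x, c (γ x) = a * x := fun x => hinj (by rw [← hc, map_mul])
    refine ⟨{ toFun := fun b => φ' (c b) / φ' a, map_one' := ?_, map_mul' := ?_, map_zero' := ?_,
              map_add' := ?_ }, ?_⟩
    · have : c 1 = a := hinj (by rw [← hc, mul_one])
      rw [this, div_self ha]
    · intro x y
      have : a * c (x * y) = c x * c y := hinj (by
        rw [map_mul, map_mul, ← hc, ← hc, ← hc]; ring)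
      have h2 := congrArg φ' this
      rw [map_mul, map_mul] at h2
      field_simp
      linear_combination h2
    · have : c 0 = 0 := hinj (by rw [← hc, mul_zero, map_zero])
      rw [this, map_zero, zero_div]
    · intro x y
      have : c (x + y) = c x + c y := hinj (by rw [map_add, ← hc, ← hc, ← hc]; ring)
      rw [this, map_add, add_div]
    · refine RingHom.ext fun x => ?_
      change φ' (c (γ x)) / φ' a = φ' x
      rw [h1, map_mul, mul_div_cancel_left₀ _ ha]
  refine Nat.card_congr (Equiv.ofBijective (fun φ => ⟨φ.1.comp γ, by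
    refine ⟨?_, φ.2.2⟩
    rw [RingHom.comp_assoc]
    exact φ.2.1⟩) ⟨?_, ?_⟩)
  · intro φ φ' hφ
    apply Subtype.ext
    refine RingHom.ext fun b => ?_
    have e : ∀ z : A', φ.1 (γ z) = φ'.1 (γ z) := fun z =>
      congrArg (fun w : {φ : A' →+* k // φ.comp δ = ψ ∧ φ a ≠ 0} => w.1 z) hφ
    have h1 := congrArg φ.1 (hc b)
    have h2 := congrArg φ'.1 (hc b)
    rw [map_mul] at h1 h2
    apply mul_left_cancel₀ φ.2.2
    rw [h1, e, e, h2]
  · rintro ⟨φ', h1, h2⟩
    obtain ⟨φ, hφ⟩ := key φ' h2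
    refine ⟨⟨φ, ?_, ?_⟩, ?_⟩
    · rw [← RingHom.comp_assoc, hφ, h1]
    · change (φ.comp γ) a ≠ 0
      rw [hφ]
      exact h2
    · exact Subtype.ext hφ

theorem ev_zero {A k : Type} [CommRing A] [Field k] {f : A[X][X]} {ψ : A →+* k} {z : k × k}
    (h : ev ψ z f = 0) : eval₂ (eval₂RingHom ψ z.1) z.2 f = 0 := h

/-- the points of a plane curve over a homomorphism of the coefficients -/
theorem plane_card {A k : Type} [CommRing A] [Field k] (f : A[X][X]) (a : A[X]) (ψ : A →+* k) :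
    Nat.card {φ : AdjoinRoot f →+* k // φ.comp ((AdjoinRoot.of f).comp C) = ψ ∧
      φ (AdjoinRoot.of f a) ≠ 0} =
    Nat.card {z : k × k // ev ψ z f = 0 ∧ a.eval₂ ψ z.1 ≠ 0} := by
  have h1 : ∀ φ : AdjoinRoot f →+* k, φ.comp ((AdjoinRoot.of f).comp C) = ψ →
      φ.comp (AdjoinRoot.of f) = eval₂RingHom ψ (φ (AdjoinRoot.of f X)) := by
    intro φ hφ
    apply Polynomial.ringHom_ext
    · intro c
      rw [coe_eval₂RingHom, eval₂_C, ← hφ]
      rfl
    · rw [coe_eval₂RingHom, eval₂_X]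
      rfl
  have h2 : ∀ φ : AdjoinRoot f →+* k, φ.comp ((AdjoinRoot.of f).comp C) = ψ →
      ev ψ (φ (AdjoinRoot.of f X), φ (AdjoinRoot.root f)) = φ.comp (AdjoinRoot.mk f) := by
    intro φ hφ
    apply Polynomial.ringHom_ext
    · intro p
      rw [ev_C]
      have := congrArg (fun g => g p) (h1 φ hφ)
      exact this.symm
    · rw [ev_X]
      show φ (AdjoinRoot.root f) = φ (AdjoinRoot.mk f X)
      rw [AdjoinRoot.mk_X]
  refine Nat.card_congr
    { toFun := fun φ => ⟨(φ.1 (AdjoinRoot.of f X), φ.1 (AdjoinRoot.root f)), ?_, ?_⟩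
      invFun := fun z => ⟨AdjoinRoot.lift (eval₂RingHom ψ z.1.1) z.1.2 (ev_zero z.2.1), ?_, ?_⟩
      left_inv := ?_
      right_inv := ?_ }
  · rw [h2 φ.1 φ.2.1, RingHom.comp_apply, AdjoinRoot.mk_self, map_zero]
  · have := congrArg (fun g => g a) (h1 φ.1 φ.2.1)
    change a.eval₂ ψ (φ.1 (AdjoinRoot.of f X)) ≠ 0
    rw [show a.eval₂ ψ (φ.1 (AdjoinRoot.of f X)) = φ.1 (AdjoinRoot.of f a) from this.symm]
    exact φ.2.2
  · refine RingHom.ext fun c => ?_
    rw [RingHom.comp_apply, RingHom.comp_apply, AdjoinRoot.lift_of, coe_eval₂RingHom, eval₂_C]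
  · rw [AdjoinRoot.lift_of]
    exact z.2.2
  · intro φ
    apply Subtype.ext
    refine RingHom.ext fun b => ?_
    obtain ⟨p, rfl⟩ := AdjoinRoot.mk_surjective b
    have hz : ev ψ (φ.1 (AdjoinRoot.of f X), φ.1 (AdjoinRoot.root f)) f = 0 := by
      rw [h2 φ.1 φ.2.1, RingHom.comp_apply, AdjoinRoot.mk_self, map_zero]
    have := congrArg (fun g => g p) (h2 φ.1 φ.2.1)
    exact (AdjoinRoot.lift_mk (ev_zero hz) p).trans this
  · intro z
    apply Subtype.ext
    change ((AdjoinRoot.lift (eval₂RingHom ψ z.1.1) z.1.2 (ev_zero z.2.1)) (AdjoinRoot.of f X),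
      (AdjoinRoot.lift (eval₂RingHom ψ z.1.1) z.1.2 (ev_zero z.2.1)) (AdjoinRoot.root f)) = z.1
    rw [AdjoinRoot.lift_of, AdjoinRoot.lift_root, coe_eval₂RingHom, eval₂_X]

end Pool.Agent.J4H11.SC
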