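import Pool.Agent.J4H11.SC.F1

/-!
# The Weil bound in families of curves
-/

set_option autoImplicit false

open Polynomial Module

namespace Pool.Agent.J4H11.SC

open Pool.Agent.R410 Pool.Agent.R410.LW

/-- a primitive element which is an integral combination of generators -/
theorem prim_int {K L : Type} [Field K] [CharZero K] [Field L] [Algebra K L]
    [FiniteDimensional K L] {n : ℕ} (e : Fin n → L)
    (he : ∀ M : IntermediateField K L, (∀ i, e i ∈ M) → M = ⊤) :
    ∃ c : Fin n → ℤ, IntermediateField.adjoin K {∑ i, (c i : L) * e i} = ⊤ := by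
  classical
  have hL0 : CharZero L := charZero_of_injective_algebraMap (algebraMap K L).injective
  have hfin : Finite (IntermediateField K L) :=
    Field.finite_intermediateField_of_exists_primitive_element K L
      (Field.exists_primitive_element K L)
  let sub : IntermediateField K L → Submodule ℚ (Fin n → ℚ) := fun M =>
    { carrier := {q | ∑ i, (q i : L) * e i ∈ M}
      zero_mem' := by
        simp
      add_mem' := by
        intro q q' h h'
        change ∑ i, (((q + q') i : ℚ) : L) * e i ∈ M
        have : ∑ i, (((q + q') i : ℚ) : L) * e i = ∑ i, (q i : L) * e i + ∑ i, (q' i : L) * e i := by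
          rw [← Finset.sum_add_distrib]
          refine Finset.sum_congr rfl fun i _ => ?_
          rw [Pi.add_apply]
          push_cast
          ring
        rw [this]
        exact add_mem h h'
      smul_mem' := by
        intro t q h
        change ∑ i, (((t • q) i : ℚ) : L) * e i ∈ M
        have : ∑ i, (((t • q) i : ℚ) : L) * e i = (t : L) * ∑ i, (q i : L) * e i := by
          rw [Finset.mul_sum]
          refine Finset.sum_congr rfl fun i _ => ?_
          rw [Pi.smul_apply, smul_eq_mul]
          push_cast
          ring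
        rw [this]
        exact mul_mem (SubfieldClass.ratCast_mem M t) h }
  have hsub : ∀ M q, q ∈ sub M ↔ ∑ i, (q i : L) * e i ∈ M := fun M q => Iff.rfl
  have h1 : ∀ M, sub M = ⊤ → M = ⊤ := by
    intro M hM
    apply he
    intro i
    have h2 : (Pi.single i 1 : Fin n → ℚ) ∈ sub M := by rw [hM]; trivial
    rw [hsub, Finset.sum_eq_single i] at h2
    · simpa using h2
    · intro l _ hl
      rw [Pi.single_eq_of_ne hl]
      simp
    · intro h
      exact absurd (Finset.mem_univ i) h
  by_contra hcon
  push Not at hcon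
  have hcov : (⋃ M : {M : IntermediateField K L // M ≠ ⊤}, (sub M.1 : Set (Fin n → ℚ))) =
      Set.univ := by
    rw [Set.eq_univ_iff_forall]
    intro q
    rw [Set.mem_iUnion]
    set c : Fin n → ℤ := fun i => (q i).num * ∏ j ∈ Finset.univ.erase i, ((q j).den : ℤ) with hc
    set N : ℤ := ∏ j, ((q j).den : ℤ) with hN
    have hN0 : (N : L) ≠ 0 := by
      have : N ≠ 0 := Finset.prod_ne_zero_iff.2 fun j _ => by exact_mod_cast (q j).den_nz
      exact_mod_cast this
    have hcq : ∀ i, (c i : L) = (N : L) * (q i : L) := by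
      intro i
      have h2 : (N : ℚ) * q i = c i := by
        rw [hN, ← Finset.prod_erase_mul _ _ (Finset.mem_univ i), hc]
        push_cast
        have := Rat.den_mul_eq_num (q i)
        rw [mul_assoc, this, mul_comm]
      have h3 := congrArg (Rat.cast : ℚ → L) h2
      push_cast at h3
      rw [h3]
    refine ⟨⟨IntermediateField.adjoin K {∑ i, (c i : L) * e i}, hcon c⟩, ?_⟩
    change ∑ i, (q i : L) * e i ∈ IntermediateField.adjoin K {∑ i, (c i : L) * e i}
    have h2 : ∑ i, (q i : L) * e i = (N : L)⁻¹ * ∑ i, (c i : L) * e i := by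
      rw [Finset.mul_sum]
      refine Finset.sum_congr rfl fun i _ => ?_
      rw [hcq]
      field_simp
    rw [h2]
    apply mul_mem (inv_mem (intCast_mem _ _))
    exact IntermediateField.mem_adjoin_simple_self K _
  obtain ⟨M, hM⟩ := Subspace.exists_eq_top_of_iUnion_eq_univ hcov
  exact M.2 (h1 M.1 hM)

section
variable {A kb K1 L B : Type} [CommRing A] [IsDomain A] [CharZero A] [Field kb] [IsAlgClosed kb]
  (ι : A →+* kb) (hι : Function.Injective ι) [Field K1] [Algebra kb[X] K1] [IsFractionRing kb[X] K1]
  [Field L] [Algebra K1 L] [CommRing B] (β : A[X] →+* B) (D : ℕ) (hD0 : 0 < D) (hfree : FreeRk β D)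
  (j : B →+* L)
  (hj : ∀ p, j (β p) = algebraMap K1 L (algebraMap kb[X] K1 (p.map ι)))
  (hgen : Algebra.adjoin K1 (Set.range j) = ⊤) (hrk : D ≤ finrank K1 L)

include hι hD0 hfree hj hgen hrk in
theorem plane_model : ∃ (f : A[X][X]) (a : A[X]), f.Monic ∧ f.natDegree = D ∧
    Irreducible (f.map (mapRingHom ι)) ∧ a ≠ 0 ∧ ∃ γ : AdjoinRoot f →+* B,
      Function.Injective γ ∧ γ.comp (AdjoinRoot.of f) = β ∧
      ∀ b, ∃ c, γ (AdjoinRoot.of f a) * b = γ c := by
  classical
  have hkb : CharZero kb := charZero_of_injective_ringHom hι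
  have hK1 : CharZero K1 := charZero_of_injective_algebraMap (R := kb[X])
    (IsFractionRing.injective kb[X] K1)
  have hfd : FiniteDimensional K1 L := Module.finite_of_finrank_pos (by omega)
  let _ : Algebra A[X] B := β.toAlgebra
  obtain ⟨bas⟩ : Nonempty (Basis (Fin D) A[X] B) := hfree
  have hBfree : Module.Free A[X] B := Module.Free.of_basis bas
  have hBfin : Module.Finite A[X] B := Module.Finite.of_basis bas
  have hBrk : finrank A[X] B = D := by rw [finrank_eq_card_basis bas, Fintype.card_fin]
  set g : A[X] →+* K1 := (algebraMap kb[X] K1).comp (mapRingHom ι) with hg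
  have hginj : Function.Injective g := (IsFractionRing.injective kb[X] K1).comp
    (Polynomial.map_injective ι hι)
  have hjg : ∀ p, j (algebraMap A[X] B p) = algebraMap K1 L (g p) := fun p => hj p
  -- the span
  have hspan : ⊤ ≤ Submodule.span K1 (Set.range (fun i => j (bas i))) := by
    have h1 : (Subalgebra.toSubmodule (Algebra.adjoin K1 (Set.range j))) ≤
        Submodule.span K1 (Set.range (fun i => j (bas i))) := by
      rw [Algebra.adjoin_eq_span]
      apply Submodule.span_le.2
      intro z hz
      have h2 : (Submonoid.closure (Set.range j) : Set L) ⊆ Set.range j := by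
        have h3 : Submonoid.closure (Set.range j) ≤ MonoidHom.mrange (j : B →* L) := by
          rw [Submonoid.closure_le]
          rintro _ ⟨b, rfl⟩
          exact ⟨b, rfl⟩
        intro w hw
        obtain ⟨b, hb⟩ := h3 hw
        exact ⟨b, hb⟩
      obtain ⟨b, rfl⟩ := h2 hz
      have h4 : j b = ∑ i, (g (bas.repr b i)) • j (bas i) := by
        conv_lhs => rw [← bas.sum_repr b]
        rw [map_sum]
        refine Finset.sum_congr rfl fun i _ => ?_
        rw [Algebra.smul_def, map_mul, hjg, Algebra.smul_def]
      rw [h4]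
      exact Submodule.sum_mem _ fun i _ => Submodule.smul_mem _ _ (Submodule.subset_span ⟨i, rfl⟩)
    rw [hgen] at h1
    exact h1
  have hfinD : finrank K1 L ≤ D := by
    have h1 : finrank K1 L = finrank K1 (Submodule.span K1 (Set.range (fun i => j (bas i)))) := by
      rw [top_le_iff.1 hspan, finrank_top]
    rw [h1]
    refine (finrank_range_le_card _).trans ?_
    rw [Fintype.card_fin]
  have hfinE : finrank K1 L = D := le_antisymm hfinD hrk
  have hli : LinearIndependent K1 (fun i => j (bas i)) :=
    linearIndependent_of_top_le_span_of_card_le_finrank hspan (by rw [Fintype.card_fin]; exact hrk)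
  have hjinj : Function.Injective j := by
    rw [injective_iff_map_eq_zero]
    intro b hb
    have h4 : j b = ∑ i, (g (bas.repr b i)) • j (bas i) := by
      conv_lhs => rw [← bas.sum_repr b]
      rw [map_sum]
      refine Finset.sum_congr rfl fun i _ => ?_
      rw [Algebra.smul_def, map_mul, hjg, Algebra.smul_def]
    rw [h4] at hb
    rw [Fintype.linearIndependent_iff] at hli
    have h5 := hli _ hb
    have h6 : bas.repr b = 0 := by
      ext1 i
      apply hginj
      rw [h5 i, Finsupp.coe_zero, Pi.zero_apply, map_zero]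
    exact (LinearEquiv.map_eq_zero_iff _).1 h6
  -- primitive element
  obtain ⟨c0, hc0⟩ := prim_int (K := K1) (L := L) (fun i => j (bas i)) (by
    intro M hM
    rw [eq_top_iff]
    intro z _
    have h1 := hspan (Submodule.mem_top (x := z))
    have h2 : Submodule.span K1 (Set.range (fun i => j (bas i))) ≤
        Subalgebra.toSubmodule M.toSubalgebra := by
      apply Submodule.span_le.2
      rintro _ ⟨i, rfl⟩
      exact hM i
    exact h2 h1)
  set b0 : B := ∑ i, (c0 i : B) * bas i with hb0
  have hjb0 : j b0 = ∑ i, (c0 i : L) * j (bas i) := by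
    rw [hb0, map_sum]
    refine Finset.sum_congr rfl fun i _ => ?_
    rw [map_mul, map_intCast]
  rw [← hjb0] at hc0
  set f := (Algebra.lmul A[X] B b0).charpoly with hf
  have hfm : f.Monic := LinearMap.charpoly_monic _
  have hfd' : f.natDegree = D := by rw [hf, LinearMap.charpoly_natDegree, hBrk]
  have hfr : aeval b0 f = 0 := Algebra.aeval_self_charpoly_lmul b0
  -- irreducibility
  have hroot : ∀ p : A[X][X], aeval (j b0) (p.map g) = j (aeval b0 p) := by
    intro p
    rw [aeval_def, eval₂_map, aeval_def, hom_eval₂]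
    congr 1
    refine RingHom.ext fun q => ?_
    exact (hjg q).symm
  have hmin : minpoly K1 (j b0) = f.map g := by
    have h1 : minpoly K1 (j b0) ∣ f.map g := minpoly.dvd _ _ (by rw [hroot, hfr, map_zero])
    have h2 : (minpoly K1 (j b0)).natDegree = D := by
      rw [← hfinE, ← IntermediateField.finrank_top' (F := K1) (E := L), ← hc0]
      exact (IntermediateField.adjoin.finrank (Algebra.IsIntegral.isIntegral _)).symm
    exact (eq_of_monic_of_dvd_of_natDegree_le (minpoly.monic (Algebra.IsIntegral.isIntegral _))
      (hfm.map _) h1 (by rw [hfm.natDegree_map, hfd', h2])).symm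
  have hirrK : Irreducible (f.map g) := by
    rw [← hmin]
    exact minpoly.irreducible (Algebra.IsIntegral.isIntegral _)
  have hirr : Irreducible (f.map (mapRingHom ι)) := by
    rw [(hfm.map (mapRingHom ι)).irreducible_iff_irreducible_map_fraction_map (K := K1),
      Polynomial.map_map]
    exact hirrK
  have hdvd : ∀ p : A[X][X], aeval b0 p = 0 → f ∣ p := by
    intro p hp
    rw [← Polynomial.map_dvd_map g hginj hfm, ← hmin]
    exact minpoly.dvd _ _ (by rw [hroot, hp, map_zero])
  let γ : AdjoinRoot f →+* B := AdjoinRoot.lift β b0 hfr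
  have hγ : ∀ p : A[X][X], γ (AdjoinRoot.mk f p) = aeval b0 p := fun p => AdjoinRoot.lift_mk _ _
  have hγof : ∀ p : A[X], γ (AdjoinRoot.of f p) = algebraMap A[X] B p := fun p =>
    AdjoinRoot.lift_of _
  have hγinj : Function.Injective γ := by
    rw [injective_iff_map_eq_zero]
    intro z hz
    obtain ⟨p, rfl⟩ := AdjoinRoot.mk_surjective z
    rw [hγ] at hz
    exact AdjoinRoot.mk_eq_zero.2 (hdvd p hz)
  -- the denominator
  set T : Matrix (Fin D) (Fin D) A[X] := fun i l => bas.repr (b0 ^ (i : ℕ)) l with hT
  have hdet : T.det ≠ 0 := by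
    intro h0
    obtain ⟨v, hv0, hv⟩ := Matrix.exists_vecMul_eq_zero_iff.2 h0
    set p : A[X][X] := ∑ i : Fin D, C (v i) * X ^ (i : ℕ) with hp
    have h1 : aeval b0 p = 0 := by
      have h2 : aeval b0 p = ∑ i : Fin D, v i • b0 ^ (i : ℕ) := by
        rw [hp, map_sum]
        refine Finset.sum_congr rfl fun i _ => ?_
        rw [map_mul, aeval_C, map_pow, aeval_X, Algebra.smul_def]
      rw [h2]
      apply (LinearEquiv.map_eq_zero_iff bas.repr).1
      ext1 l
      rw [map_sum, Finsupp.finsetSum_apply, Finsupp.coe_zero, Pi.zero_apply]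
      have h3 := congrFun hv l
      rw [Matrix.vecMul, dotProduct, Pi.zero_apply] at h3
      rw [← h3]
      refine Finset.sum_congr rfl fun i _ => ?_
      rw [map_smul, Finsupp.smul_apply, smul_eq_mul]
    have h4 := hdvd p h1
    have h5 : p.degree < f.degree := by
      rw [degree_eq_natDegree hfm.ne_zero, hfd']
      rw [Polynomial.degree_lt_iff_coeff_zero]
      intro m hm
      rw [hp, finsetSum_coeff]
      refine Finset.sum_eq_zero fun i _ => ?_
      rw [coeff_C_mul, coeff_X_pow, if_neg (by omega), mul_zero]
    have h6 : p = 0 := by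
      by_contra hne
      exact absurd (degree_le_of_dvd h4 hne) (not_le.2 h5)
    apply hv0
    funext i
    have h7 := congrArg (fun q : A[X][X] => q.coeff (i : ℕ)) h6
    simp only [hp, finsetSum_coeff, coeff_C_mul, coeff_X_pow, coeff_zero] at h7
    rw [Finset.sum_eq_single i] at h7
    · simpa using h7
    · intro l _ hl
      rw [if_neg (fun h => hl (Fin.ext h.symm)), mul_zero]
    · intro h
      exact absurd (Finset.mem_univ i) h
  refine ⟨f, T.det, hfm, hfd', hirr, hdet, γ, hγinj, RingHom.ext fun p => hγof p, fun b => ?_⟩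
  have h1 : ∀ l, algebraMap A[X] B T.det * bas l =
      ∑ i : Fin D, algebraMap A[X] B (T.adjugate l i) * b0 ^ (i : ℕ) := by
    intro l
    have h2 : ∀ i : Fin D, b0 ^ (i : ℕ) = ∑ m, algebraMap A[X] B (T i m) * bas m := by
      intro i
      conv_lhs => rw [← bas.sum_repr (b0 ^ (i : ℕ))]
      exact Finset.sum_congr rfl fun m _ => Algebra.smul_def _ _
    have h3 : ∑ i : Fin D, algebraMap A[X] B (T.adjugate l i) * b0 ^ (i : ℕ) =
        ∑ m, algebraMap A[X] B ((T.adjugate * T) l m) * bas m := by
      simp_rw [h2, Finset.mul_sum]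
      rw [Finset.sum_comm]
      refine Finset.sum_congr rfl fun m _ => ?_
      rw [Matrix.mul_apply, map_sum, Finset.sum_mul]
      refine Finset.sum_congr rfl fun i _ => ?_
      rw [map_mul]
      ring
    rw [h3, Matrix.adjugate_mul, Finset.sum_eq_single l]
    · simp
    · intro m _ hm
      rw [Matrix.smul_apply, Matrix.one_apply_ne hm.symm]
      simp
    · intro h
      exact absurd (Finset.mem_univ l) h
  refine ⟨AdjoinRoot.mk f (∑ l, ∑ i : Fin D, C (bas.repr b l * T.adjugate l i) * X ^ (i : ℕ)), ?_⟩
  rw [hγof, hγ]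
  conv_lhs => rw [← bas.sum_repr b]
  rw [Finset.mul_sum, map_sum]
  refine Finset.sum_congr rfl fun l _ => ?_
  rw [map_sum, Algebra.smul_def, mul_left_comm, h1, Finset.mul_sum]
  refine Finset.sum_congr rfl fun i _ => ?_
  rw [map_mul, aeval_C, map_pow, aeval_X, map_mul]
  ring

end

end Pool.Agent.J4H11.SC
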