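import Pool.Agent.J4H11.SC.F2

/-!
# The Weil bound in families of curves: counting
-/

set_option autoImplicit false

open Polynomial Module

namespace Pool.Agent.J4H11.SC

open Pool.Agent.R410 Pool.Agent.R410.LW

theorem over_x {A B k : Type} [CommRing A] [CommRing B] [Field k] (β : A[X] →+* B) (ψ : A →+* k)
    (φ : B →+* k) (h : φ.comp (β.comp C) = ψ) : φ.comp β = eval₂RingHom ψ (φ (β X)) := by
  apply Polynomial.ringHom_ext
  · intro c
    rw [coe_eval₂RingHom, eval₂_C, ← h]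
    rfl
  · rw [coe_eval₂RingHom, eval₂_X]
    rfl

theorem fin_over {A B k : Type} [CommRing A] [CommRing B] [Field k] [Finite k] (β : A[X] →+* B)
    (D : ℕ) (hfree : FreeRk β D) (ψ : A →+* k) :
    Finite {φ : B →+* k // φ.comp (β.comp C) = ψ} := by
  have h1 : ∀ x : k, Finite {φ : B →+* k // φ.comp β = eval₂RingHom ψ x} := fun x =>
    (hom_le β D hfree _).1
  let g : {φ : B →+* k // φ.comp (β.comp C) = ψ} →
      Σ x : k, {φ : B →+* k // φ.comp β = eval₂RingHom ψ x} := fun φ =>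
    ⟨φ.1 (β X), φ.1, over_x β ψ φ.1 φ.2⟩
  refine Finite.of_injective g ?_
  intro φ φ' h
  apply Subtype.ext
  have h2 := congrArg (fun z : Σ x : k, {φ : B →+* k // φ.comp β = eval₂RingHom ψ x} => z.2.1) h
  exact h2

theorem zero_le {A B k : Type} [CommRing A] [CommRing B] [Field k] [Finite k] (β : A[X] →+* B)
    (D : ℕ) (hfree : FreeRk β D) (ψ : A →+* k) (a : A[X]) (ha : ψ a.leadingCoeff ≠ 0) :
    Nat.card {φ : B →+* k // φ.comp (β.comp C) = ψ ∧ φ (β a) = 0} ≤ a.natDegree * D := by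
  classical
  have h1 : ∀ x : k, Finite {φ : B →+* k // φ.comp β = eval₂RingHom ψ x} := fun x =>
    (hom_le β D hfree _).1
  have ha0 : a.map ψ ≠ 0 := by
    intro h
    apply ha
    have := congrArg (fun p => p.coeff a.natDegree) h
    simpa [coeff_map] using this
  set S : Finset k := (a.map ψ).roots.toFinset with hS
  have hScard : S.card ≤ a.natDegree :=
    (Multiset.toFinset_card_le _).trans ((card_roots' _).trans natDegree_map_le)
  let g : {φ : B →+* k // φ.comp (β.comp C) = ψ ∧ φ (β a) = 0} →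
      Σ x : S, {φ : B →+* k // φ.comp β = eval₂RingHom ψ x.1} := fun φ =>
    ⟨⟨φ.1 (β X), by
      rw [hS, Multiset.mem_toFinset, mem_roots ha0, IsRoot.def, eval_map]
      have h2 := congrArg (fun u => u a) (over_x β ψ φ.1 φ.2.1)
      change φ.1 (β a) = a.eval₂ ψ (φ.1 (β X)) at h2
      rw [← h2]
      exact φ.2.2⟩, φ.1, over_x β ψ φ.1 φ.2.1⟩
  have hg : Function.Injective g := by
    intro φ φ' h
    apply Subtype.ext
    have h2 := congrArg (fun z : Σ x : S, {φ : B →+* k // φ.comp β = eval₂RingHom ψ x.1} => z.2.1) h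
    exact h2
  refine (Nat.card_le_card_of_injective g hg).trans ?_
  rw [Nat.card_sigma]
  refine (Finset.sum_le_card_nsmul _ _ D fun x _ => (hom_le β D hfree _).2).trans ?_
  rw [smul_eq_mul, Finset.card_univ, Fintype.card_coe]
  exact Nat.mul_le_mul_right _ hScard

section
variable {A kb K1 L B : Type} [CommRing A] [IsDomain A] [CharZero A] [Field kb] [IsAlgClosed kb]
  (ι : A →+* kb) (hι : Function.Injective ι) [Field K1] [Algebra kb[X] K1] [IsFractionRing kb[X] K1]
  [Field L] [Algebra K1 L] [CommRing B] (β : A[X] →+* B) (D : ℕ) (hD0 : 0 < D) (hfree : FreeRk β D)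
  (j : B →+* L)
  (hj : ∀ p, j (β p) = algebraMap K1 L (algebraMap kb[X] K1 (p.map ι)))
  (hgen : Algebra.adjoin K1 (Set.range j) = ⊤) (hrk : D ≤ finrank K1 L)

include hι hD0 hfree hj hgen hrk in
/-- **Weil's bound in a family of curves** -/
theorem flw : ∃ (s : A) (Cst : ℝ), s ≠ 0 ∧ 0 ≤ Cst ∧ ∀ (k : Type) [Field k] [Finite k]
    (ψ : A →+* k), ψ s ≠ 0 →
    |(Nat.card {φ : B →+* k // φ.comp (β.comp Polynomial.C) = ψ} : ℝ) - Nat.card k| ≤
      Cst * √(Nat.card k : ℝ) := by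
  classical
  obtain ⟨f, a, hf, hfd, hirr, ha0, γ, hγinj, hγβ, hγ⟩ :=
    plane_model ι hι β D hD0 hfree j hj hgen hrk
  have hf0 : 0 < f.natDegree := by omega
  let k₀ := FractionRing A
  let ιk : k₀ →+* kb := IsFractionRing.lift hι
  let _ : Algebra k₀ kb := ιk.toAlgebra
  have hιk : (algebraMap k₀ kb).comp (algebraMap A k₀) = ι := by
    refine RingHom.ext fun x => ?_
    exact IsFractionRing.lift_algebraMap hι x
  obtain ⟨D', hD', hDirr⟩ := bn_poly (k := k₀) (kb := kb) f hf hf0 (by rw [hιk]; exact hirr)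
  obtain ⟨a₁, b₁, D₁, hD₁, hab⟩ := bezout hι hf hirr
  set l := D₁.leadingCoeff with hl
  have hl0 : l ≠ 0 := leadingCoeff_ne_zero.2 hD₁
  obtain ⟨dd, hdd⟩ : ∃ dd : ℕ, ∀ i, (f.coeff i).natDegree ≤ dd := by
    refine ⟨f.support.sup fun i => (f.coeff i).natDegree, fun i => ?_⟩
    by_cases hi : i ∈ f.support
    · exact Finset.le_sup (f := fun i => (f.coeff i).natDegree) hi
    · rw [notMem_support_iff.1 hi, natDegree_zero]
      exact Nat.zero_le _
  set W : ℝ := |PW.WC f.natDegree dd D₁.natDegree| with hW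
  refine ⟨D' * l * a.leadingCoeff, W + 2 * (a.natDegree * D : ℕ), mul_ne_zero (mul_ne_zero hD' hl0)
    (leadingCoeff_ne_zero.2 ha0), by positivity, ?_⟩
  intro k _ _ ψ hψ
  rw [map_mul, map_mul] at hψ
  have k1 : ψ a.leadingCoeff ≠ 0 := right_ne_zero_of_mul hψ
  have k2 : ψ l ≠ 0 := right_ne_zero_of_mul (left_ne_zero_of_mul hψ)
  have k3 : ψ D' ≠ 0 := left_ne_zero_of_mul (left_ne_zero_of_mul hψ)
  have := Fintype.ofFinite k
  set q : ℝ := (Nat.card k : ℝ) with hq
  have hq1 : 1 ≤ q := by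
    rw [hq]
    exact_mod_cast Nat.card_pos
  have hsq1 : 1 ≤ √q := Real.one_le_sqrt.2 hq1
  -- Weil
  have hfm : (f.map (mapRingHom ψ)).Monic := hf.map _
  have hfd2 : (f.map (mapRingHom ψ)).natDegree = f.natDegree := hf.natDegree_map _
  have hirr' : Irreducible ((f.map (mapRingHom ψ)).map
      (mapRingHom (algebraMap k (AlgebraicClosure k)))) := by
    have h := hDirr (AlgebraicClosure k) ((algebraMap k (AlgebraicClosure k)).comp ψ) (by
      rw [RingHom.comp_apply]
      exact (_root_.map_ne_zero _).2 k3)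
    rw [Polynomial.map_map]
    have h5 : (mapRingHom (algebraMap k (AlgebraicClosure k))).comp (mapRingHom ψ) =
        mapRingHom ((algebraMap k (AlgebraicClosure k)).comp ψ) := by
      rw [mapRingHom_comp]
    rw [h5]
    exact h
  have hab' : a₁.map (mapRingHom ψ) * f.map (mapRingHom ψ) +
      b₁.map (mapRingHom ψ) * derivative (f.map (mapRingHom ψ)) = C (D₁.map ψ) := by
    have h := congrArg (Polynomial.map (mapRingHom ψ)) hab
    rw [Polynomial.map_add, Polynomial.map_mul, Polynomial.map_mul, Polynomial.map_C] at h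
    rw [derivative_map]
    exact h
  have hD1' : D₁.map ψ ≠ 0 := by
    intro h
    apply k2
    have := congrArg (fun p => p.coeff D₁.natDegree) h
    simp only [coeff_map, coeff_zero] at this
    rw [hl, leadingCoeff]
    exact this
  have hw := PW.weil (F := k) (AlgebraicClosure k) (f := f.map (mapRingHom ψ)) hfm
    (by rw [hfd2]; exact hf0) hab' hD1' (δ := D₁.natDegree) natDegree_map_le (d := dd)
    (fun i => by
      rw [coeff_map]
      exact natDegree_map_le.trans (hdd i)) hirr'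
  rw [hfd2] at hw
  have hnc : ({z : k × k | evalEval z.1 z.2 (f.map (mapRingHom ψ)) = 0}.ncard : ℝ) =
      Nat.card {z : k × k // ev ψ z f = 0} := by
    rw [← Nat.card_coe_set_eq]
    congr 1
    exact Nat.card_congr (Equiv.subtypeEquivRight fun z => by
      rw [Set.mem_ofPred_eq, ev_eq])
  rw [hnc] at hw
  have hw2 : |(Nat.card {z : k × k // ev ψ z f = 0} : ℝ) - q| ≤ W * √q :=
    hw.trans (mul_le_mul_of_nonneg_right (le_abs_self _) (Real.sqrt_nonneg _))
  -- the curve minus some points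
  have ha1 : a.map ψ ≠ 0 := by
    intro h
    apply k1
    have := congrArg (fun p => p.coeff a.natDegree) h
    simpa [coeff_map] using this
  set S : Finset k := (a.map ψ).roots.toFinset with hS
  have hScard : S.card ≤ a.natDegree :=
    (Multiset.toFinset_card_le _).trans ((card_roots' _).trans natDegree_map_le)
  have hP : Nat.card {z : k × k // ev ψ z f = 0} ≤
      Nat.card {z : k × k // ev ψ z f = 0 ∧ a.eval₂ ψ z.1 ≠ 0} + a.natDegree * D := by
    have h1 := curve_le hf ψ S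
    have h2 : Nat.card {z : k × k // ev ψ z f = 0} ≤
        Nat.card {z : k × k // ev ψ z f = 0 ∧ a.eval₂ ψ z.1 ≠ 0} +
        Nat.card {z : k × k // ev ψ z f = 0 ∧ z.1 ∈ S} := by
      rw [← Nat.card_sum]
      let g : {z : k × k // ev ψ z f = 0} → {z : k × k // ev ψ z f = 0 ∧ a.eval₂ ψ z.1 ≠ 0} ⊕
          {z : k × k // ev ψ z f = 0 ∧ z.1 ∈ S} := fun z =>
        if h : a.eval₂ ψ z.1.1 = 0 then Sum.inr ⟨z.1, z.2, by
          rw [hS, Multiset.mem_toFinset, mem_roots ha1, IsRoot.def, eval_map]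
          exact h⟩ else Sum.inl ⟨z.1, z.2, h⟩
      refine Nat.card_le_card_of_injective g ?_
      intro z z' h
      simp only [g] at h
      split_ifs at h with h3 h4 h4
      · rw [Sum.inr.injEq, Subtype.mk.injEq] at h
        exact Subtype.ext h
      · rw [Sum.inl.injEq, Subtype.mk.injEq] at h
        exact Subtype.ext h
    refine h2.trans (Nat.add_le_add_left (h1.trans ?_) _)
    rw [hfd]
    exact Nat.mul_le_mul_right _ hScard
  have hP' : Nat.card {z : k × k // ev ψ z f = 0 ∧ a.eval₂ ψ z.1 ≠ 0} ≤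
      Nat.card {z : k × k // ev ψ z f = 0} :=
    Nat.card_le_card_of_injective
      (fun z : {z : k × k // ev ψ z f = 0 ∧ a.eval₂ ψ z.1 ≠ 0} =>
        (⟨z.1, z.2.1⟩ : {z : k × k // ev ψ z f = 0}))
      (fun z z' h => Subtype.ext (congrArg (fun w => w.1) h))
  -- homomorphisms
  have hcomp : γ.comp ((AdjoinRoot.of f).comp C) = β.comp C := by
    rw [← RingHom.comp_assoc, hγβ]
  have hγa : γ (AdjoinRoot.of f a) = β a := by rw [← hγβ]; rfl
  have hT1 : Nat.card {φ : B →+* k // φ.comp (β.comp C) = ψ ∧ φ (β a) ≠ 0} =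
      Nat.card {z : k × k // ev ψ z f = 0 ∧ a.eval₂ ψ z.1 ≠ 0} := by
    rw [← plane_card f a ψ, ← fib_card γ hγinj (AdjoinRoot.of f a) hγ ((AdjoinRoot.of f).comp C) ψ,
      hcomp, hγa]
  have hfinT : Finite {φ : B →+* k // φ.comp (β.comp C) = ψ} := fin_over β D hfree ψ
  have hfin1 : Finite {φ : B →+* k // φ.comp (β.comp C) = ψ ∧ φ (β a) ≠ 0} :=
    Finite.of_injective (fun φ => (⟨φ.1, φ.2.1⟩ : {φ : B →+* k // φ.comp (β.comp C) = ψ}))
      (fun φ φ' h => Subtype.ext (congrArg (fun w => w.1) h))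
  have hfin0 : Finite {φ : B →+* k // φ.comp (β.comp C) = ψ ∧ φ (β a) = 0} :=
    Finite.of_injective (fun φ => (⟨φ.1, φ.2.1⟩ : {φ : B →+* k // φ.comp (β.comp C) = ψ}))
      (fun φ φ' h => Subtype.ext (congrArg (fun w => w.1) h))
  have hT : Nat.card {φ : B →+* k // φ.comp (β.comp C) = ψ} ≤
      Nat.card {φ : B →+* k // φ.comp (β.comp C) = ψ ∧ φ (β a) ≠ 0} + a.natDegree * D := by
    have h2 : Nat.card {φ : B →+* k // φ.comp (β.comp C) = ψ} ≤
        Nat.card {φ : B →+* k // φ.comp (β.comp C) = ψ ∧ φ (β a) ≠ 0} +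
        Nat.card {φ : B →+* k // φ.comp (β.comp C) = ψ ∧ φ (β a) = 0} := by
      rw [← Nat.card_sum]
      let g : {φ : B →+* k // φ.comp (β.comp C) = ψ} →
          {φ : B →+* k // φ.comp (β.comp C) = ψ ∧ φ (β a) ≠ 0} ⊕
          {φ : B →+* k // φ.comp (β.comp C) = ψ ∧ φ (β a) = 0} := fun φ =>
        if h : φ.1 (β a) = 0 then Sum.inr ⟨φ.1, φ.2, h⟩ else Sum.inl ⟨φ.1, φ.2, h⟩
      refine Nat.card_le_card_of_injective g ?_
      intro z z' h
      simp only [g] at h
      split_ifs at h with h3 h4 h4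
      · rw [Sum.inr.injEq, Subtype.mk.injEq] at h
        exact Subtype.ext h
      · rw [Sum.inl.injEq, Subtype.mk.injEq] at h
        exact Subtype.ext h
    exact h2.trans (Nat.add_le_add_left (zero_le β D hfree ψ a k1) _)
  have hT' : Nat.card {φ : B →+* k // φ.comp (β.comp C) = ψ ∧ φ (β a) ≠ 0} ≤
      Nat.card {φ : B →+* k // φ.comp (β.comp C) = ψ} :=
    Nat.card_le_card_of_injective
      (fun φ => (⟨φ.1, φ.2.1⟩ : {φ : B →+* k // φ.comp (β.comp C) = ψ}))
      (fun φ φ' h => Subtype.ext (congrArg (fun w => w.1) h))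
  rw [hT1] at hT hT'
  have e1 : (Nat.card {φ : B →+* k // φ.comp (β.comp C) = ψ} : ℝ) ≤
      Nat.card {z : k × k // ev ψ z f = 0 ∧ a.eval₂ ψ z.1 ≠ 0} + (a.natDegree * D : ℕ) := by
    exact_mod_cast hT
  have e2 : (Nat.card {z : k × k // ev ψ z f = 0 ∧ a.eval₂ ψ z.1 ≠ 0} : ℝ) ≤
      Nat.card {φ : B →+* k // φ.comp (β.comp C) = ψ} := by exact_mod_cast hT'
  have e3 : (Nat.card {z : k × k // ev ψ z f = 0} : ℝ) ≤
      Nat.card {z : k × k // ev ψ z f = 0 ∧ a.eval₂ ψ z.1 ≠ 0} + (a.natDegree * D : ℕ) := by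
    exact_mod_cast hP
  have e4 : (Nat.card {z : k × k // ev ψ z f = 0 ∧ a.eval₂ ψ z.1 ≠ 0} : ℝ) ≤
      Nat.card {z : k × k // ev ψ z f = 0} := by exact_mod_cast hP'
  have e5 : ((a.natDegree * D : ℕ) : ℝ) ≤ (a.natDegree * D : ℕ) * √q :=
    le_mul_of_one_le_right (Nat.cast_nonneg _) hsq1
  rw [abs_le] at hw2 ⊢
  constructor
  · nlinarith [hw2.1]
  · nlinarith [hw2.2]

end

end Pool.Agent.J4H11.SC
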