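import Pool.Agent.J4H11.RC.Irr
import Pool.Agent.J4H11.RC.SZ
import Pool.Agent.J4H11.RC.TrZ

/-!
# Generic points of an elliptic curve and their translates
-/

set_option autoImplicit false

open Polynomial Module Pool.Agent.J4H11.RC

namespace Pool.Agent.J4H11.SC

section
variable {k F : Type} [Field k] [Field F] [Algebra k F] (a b : k)

/-- a point of the curve -/
def OnE (X Y : F) : Prop := Y ^ 2 = X ^ 3 + algebraMap k F a * X + algebraMap k F b

/-- the field is generated by the coordinates -/
def Gen (k : Type) [Field k] {F : Type} [Field F] [Algebra k F] (X Y : F) : Prop :=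
  ∀ w : F, ∃ P Q D : k[X], D ≠ 0 ∧ w * aeval X D = aeval X P + aeval X Q * Y

theorem trans_inj {X : F} (hX : Transcendental k X) {P : k[X]} (h : aeval X P = 0) : P = 0 :=
  transcendental_iff.1 hX P h

theorem indep {X Y : F} (hE : OnE a b X Y) (hX : Transcendental k X) (P Q : k[X])
    (h : aeval X P + aeval X Q * Y = 0) : P = 0 ∧ Q = 0 := by
  have h1 : P ^ 2 = Q ^ 2 * cub a b := by
    have h2 : aeval X (P ^ 2 - Q ^ 2 * cub a b) = 0 := by
      rw [map_sub, map_mul, map_pow, map_pow, aeval_cub]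
      have h3 : aeval X P = -(aeval X Q * Y) := by linear_combination h
      rw [h3]
      have h4 : Y ^ 2 = X ^ 3 + algebraMap k F a * X + algebraMap k F b := hE
      linear_combination (aeval X Q) ^ 2 * h4
    exact sub_eq_zero.1 (trans_inj hX h2)
  have hQ : Q = 0 := by
    by_contra hQ
    have h2 := congrArg natDegree h1
    have hc : cub a b ≠ 0 := by
      intro h0
      have := cub_natDegree a b
      rw [h0, natDegree_zero] at this
      omega
    rw [natDegree_pow, natDegree_mul (pow_ne_zero 2 hQ) hc, natDegree_pow, cub_natDegree] at h2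
    omega
  refine ⟨?_, hQ⟩
  rw [hQ] at h1
  have h3 : P ^ 2 = 0 := by rw [h1]; ring
  exact pow_eq_zero_iff (two_ne_zero) |>.1 h3

variable (xh yh : k)

theorem ne_of_trans {X : F} (hX : Transcendental k X) (c : k) : X ≠ algebraMap k F c := by
  intro h
  apply hX
  rw [h]
  exact isAlgebraic_algebraMap c

/-- the relation between the slope and the `x`-coordinate -/
theorem lam_quad {X Y l : F} (hE : OnE a b X Y) (hh : yh ^ 2 = xh ^ 3 + a * xh + b)
    (hne : X ≠ algebraMap k F xh) (hl : l * (X - algebraMap k F xh) = Y - algebraMap k F yh) :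
    X ^ 2 - (l ^ 2 - algebraMap k F xh) * X + (algebraMap k F xh * l ^ 2 -
      2 * algebraMap k F yh * l + algebraMap k F xh ^ 2 + algebraMap k F a) = 0 := by
  have h1 : Y ^ 2 = X ^ 3 + algebraMap k F a * X + algebraMap k F b := hE
  have h2 := congrArg (algebraMap k F) hh
  simp only [map_add, map_mul, map_pow] at h2
  have hu : X - algebraMap k F xh ≠ 0 := sub_ne_zero.2 hne
  apply mul_left_cancel₀ hu
  rw [mul_zero]
  have hY : Y = algebraMap k F yh + l * (X - algebraMap k F xh) := by linear_combination -hl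
  rw [hY] at h1
  linear_combination -h1 + h2

/-- the translate is on the curve -/
theorem trans_onE {X l X2 Y2 : F} (hh : yh ^ 2 = xh ^ 3 + a * xh + b)
    (hq : X ^ 2 - (l ^ 2 - algebraMap k F xh) * X + (algebraMap k F xh * l ^ 2 -
      2 * algebraMap k F yh * l + algebraMap k F xh ^ 2 + algebraMap k F a) = 0)
    (hX2 : X2 = l ^ 2 - X - algebraMap k F xh)
    (hY2 : Y2 = -(algebraMap k F yh + l * (X2 - algebraMap k F xh))) : OnE a b X2 Y2 := by
  have h2 := congrArg (algebraMap k F) hh
  simp only [map_add, map_mul, map_pow] at h2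
  unfold OnE
  have hq2 : X2 ^ 2 - (l ^ 2 - algebraMap k F xh) * X2 + (algebraMap k F xh * l ^ 2 -
      2 * algebraMap k F yh * l + algebraMap k F xh ^ 2 + algebraMap k F a) = 0 := by
    rw [hX2]
    linear_combination hq
  rw [hY2]
  linear_combination h2 - (X2 - algebraMap k F xh) * hq2

variable [IsAlgClosed k]

theorem alg_mem {z : F} (hz : IsAlgebraic k z) : ∃ c, algebraMap k F c = z := by
  have h1 := IsAlgClosed.degree_eq_one_of_irreducible k (minpoly.irreducible hz.isIntegral)
  exact minpoly.mem_range_of_degree_eq_one k z h1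

theorem lam_trans {X l : F} (hX : Transcendental k X)
    (hq : X ^ 2 - (l ^ 2 - algebraMap k F xh) * X + (algebraMap k F xh * l ^ 2 -
      2 * algebraMap k F yh * l + algebraMap k F xh ^ 2 + algebraMap k F a) = 0) :
    Transcendental k l := by
  intro h
  obtain ⟨c, rfl⟩ := alg_mem h
  apply hX
  refine ⟨Polynomial.X ^ 2 - Polynomial.C (c ^ 2 - xh) * Polynomial.X +
    Polynomial.C (xh * c ^ 2 - 2 * yh * c + xh ^ 2 + a), ?_, ?_⟩
  · apply Monic.ne_zero
    monicity!
  · simp only [map_add, map_sub, map_mul, map_pow, aeval_X, aeval_C, map_ofNat]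
    exact hq

theorem X2_trans [CharZero k] {X l X2 : F} (hl : Transcendental k l) (hyh : yh ≠ 0)
    (hq : X ^ 2 - (l ^ 2 - algebraMap k F xh) * X + (algebraMap k F xh * l ^ 2 -
      2 * algebraMap k F yh * l + algebraMap k F xh ^ 2 + algebraMap k F a) = 0)
    (hX2 : X2 = l ^ 2 - X - algebraMap k F xh) : Transcendental k X2 := by
  intro h
  obtain ⟨c, hc⟩ := alg_mem h
  apply hl
  refine ⟨Polynomial.C (c - xh) * Polynomial.X ^ 2 + Polynomial.C (2 * yh) * Polynomial.X -
    Polynomial.C (c * (xh + c) + xh ^ 2 + a), ?_, ?_⟩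
  · intro h0
    have h1 := congrArg (fun p => p.coeff 1) h0
    simp only [coeff_sub, coeff_add, coeff_C_mul, coeff_X_pow, coeff_X, coeff_C, coeff_zero] at h1
    norm_num at h1
    exact hyh h1
  · simp only [map_add, map_sub, map_mul, map_pow, aeval_X, aeval_C, map_ofNat]
    have hX : X = l ^ 2 - X2 - algebraMap k F xh := by rw [hX2]; ring
    rw [hX, ← hc] at hq
    linear_combination -hq

omit [IsAlgClosed k] in
/-- `X` is not a rational function of the slope -/
theorem X_notin [CharZero k] {K1 : Type} [Field K1] [Algebra k[X] K1] [IsFractionRing k[X] K1]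
    (hyh : yh ≠ 0) (r : K1) :
    r ^ 2 - ((algebraMap k[X] K1 Polynomial.X) ^ 2 - algebraMap k[X] K1 (C xh)) * r +
      (algebraMap k[X] K1 (C xh) * (algebraMap k[X] K1 Polynomial.X) ^ 2 -
      2 * algebraMap k[X] K1 (C yh) * (algebraMap k[X] K1 Polynomial.X) +
      algebraMap k[X] K1 (C xh) ^ 2 + algebraMap k[X] K1 (C a)) ≠ 0 := by
  intro h
  set q : k[X][X] := Polynomial.X ^ 2 - C (Polynomial.X ^ 2 - C xh) * Polynomial.X +
    C (C xh * Polynomial.X ^ 2 - 2 * C yh * Polynomial.X + C xh ^ 2 + C a) with hq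
  have hqm : q.Monic := by
    rw [hq]
    monicity!
  have hqr : aeval r q = 0 := by
    rw [hq]
    simp only [map_add, map_sub, map_mul, map_pow, aeval_X, aeval_C, map_ofNat]
    exact h
  obtain ⟨g, hg⟩ := IsIntegrallyClosed.exists_algebraMap_eq_of_isIntegral_pow (R := k[X]) (x := r)
    (n := 1) one_pos (by rw [pow_one]; exact ⟨q, hqm, hqr⟩)
  have h1 : g ^ 2 - (Polynomial.X ^ 2 - C xh) * g +
      (C xh * Polynomial.X ^ 2 - 2 * C yh * Polynomial.X + C xh ^ 2 + C a) = 0 := by
    apply IsFractionRing.injective k[X] K1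
    simp only [map_add, map_sub, map_mul, map_pow, map_ofNat, map_zero, hg]
    exact h
  set s : k[X] := 2 * g - (Polynomial.X ^ 2 - C xh) with hs
  have h2 : s ^ 2 = Polynomial.X ^ 4 - 6 * C xh * Polynomial.X ^ 2 + 8 * C yh * Polynomial.X -
      3 * C xh ^ 2 - 4 * C a := by
    rw [hs]
    linear_combination 4 * h1
  have hdeg : s.natDegree = 2 := by
    have h3 := congrArg natDegree h2
    rw [natDegree_pow] at h3
    have h4 : (Polynomial.X ^ 4 - 6 * C xh * Polynomial.X ^ 2 + 8 * C yh * Polynomial.X -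
      3 * C xh ^ 2 - 4 * C a : k[X]).natDegree = 4 := by
      have e6 : (6 : k[X]) = C 6 := (C_ofNat 6).symm
      have e8 : (8 : k[X]) = C 8 := (C_ofNat 8).symm
      have e3 : (3 : k[X]) = C 3 := (C_ofNat 3).symm
      have e4 : (4 : k[X]) = C 4 := (C_ofNat 4).symm
      rw [e6, e8, e3, e4]
      compute_degree!
    omega
  have hs3 : s = C (s.coeff 2) * Polynomial.X ^ 2 + C (s.coeff 1) * Polynomial.X +
      C (s.coeff 0) := by
    have h3 := s.as_sum_range_C_mul_X_pow
    rw [hdeg, Finset.sum_range_succ, Finset.sum_range_succ, Finset.sum_range_one] at h3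
    simp only [pow_zero, mul_one, pow_one] at h3
    linear_combination h3
  set u := s.coeff 2
  set v := s.coeff 1
  set w := s.coeff 0
  have h4 : (C (u ^ 2) * Polynomial.X ^ 4 + C (2 * u * v) * Polynomial.X ^ 3 +
      C (v ^ 2 + 2 * u * w) * Polynomial.X ^ 2 + C (2 * v * w) * Polynomial.X + C (w ^ 2) : k[X]) =
      C 1 * Polynomial.X ^ 4 + C 0 * Polynomial.X ^ 3 + C (-(6 * xh)) * Polynomial.X ^ 2 +
        C (8 * yh) * Polynomial.X + C (-(3 * xh ^ 2 + 4 * a)) := by
    have h5 : s ^ 2 = C (u ^ 2) * Polynomial.X ^ 4 + C (2 * u * v) * Polynomial.X ^ 3 +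
      C (v ^ 2 + 2 * u * w) * Polynomial.X ^ 2 + C (2 * v * w) * Polynomial.X + C (w ^ 2) := by
      rw [hs3]
      simp only [map_mul, map_add, map_pow, C_ofNat]
      ring
    rw [← h5, h2]
    simp only [map_mul, map_add, map_pow, C_ofNat, map_neg, map_zero, map_one]
    ring
  have c4 := congrArg (fun p => p.coeff 4) h4
  have c3 := congrArg (fun p => p.coeff 3) h4
  have c1 := congrArg (fun p => p.coeff 1) h4
  simp only [coeff_add, coeff_C_mul, coeff_X_pow, coeff_X, coeff_C] at c4 c3 c1
  norm_num at c4 c3 c1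
  rcases c3 with h5 | h5
  · rcases c4 with h6 | h6 <;> rw [h5] at h6 <;> norm_num at h6
  · rw [h5] at c1
    apply hyh
    have : (8 : k) * yh = 0 := by rw [← c1]; ring
    rcases mul_eq_zero.1 this with h6 | h6
    · norm_num at h6
    · exact h6

end

end Pool.Agent.J4H11.SC
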