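import Pool.Agent.J4H11.SC.FF1

/-!
# The function field of an elliptic curve and translations
-/

set_option autoImplicit false

open Polynomial Module Pool.Agent.J4H11.RC Pool.Agent.H901R3.MS WeierstrassCurve

namespace Pool.Agent.J4H11.SC

section
variable {k : Type} [Field k] (a b : k)

/-- the function field -/
abbrev FFd : Type := (CV a b).toAffine.FunctionField

/-- the coordinate ring -/
abbrev CRd : Type := (CV a b).toAffine.CoordinateRing

/-- the function `x` -/
noncomputable def gX : FFd a b :=
  algebraMap (CRd a b) (FFd a b) (Affine.CoordinateRing.mk (CV a b).toAffine (C X))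

/-- the function `y` -/
noncomputable def gY : FFd a b :=
  algebraMap (CRd a b) (FFd a b) (Affine.CoordinateRing.mk (CV a b).toAffine X)

theorem poly_eq : (CV a b).toAffine.polynomial = X ^ 2 - C (cub a b) := by
  rw [Affine.polynomial]
  simp [CV, cub]

theorem mk_alg (P : k[X]) : algebraMap (CRd a b) (FFd a b)
    (Affine.CoordinateRing.mk (CV a b).toAffine (C P)) = aeval (gX a b) P := by
  have h1 : ((algebraMap (CRd a b) (FFd a b)).comp
      ((Affine.CoordinateRing.mk (CV a b).toAffine).comp C)) =
      (aeval (gX a b) : k[X] →ₐ[k] FFd a b).toRingHom := by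
    apply Polynomial.ringHom_ext
    · intro c
      simp only [RingHom.comp_apply, AlgHom.toRingHom_eq_coe, RingHom.coe_coe, aeval_C]
      rfl
    · simp only [RingHom.comp_apply, AlgHom.toRingHom_eq_coe, RingHom.coe_coe, aeval_X]
      rfl
  exact DFunLike.congr_fun h1 P

theorem g_onE : OnE a b (gX a b) (gY a b) := by
  unfold OnE
  have h0 : Affine.CoordinateRing.mk (CV a b).toAffine (CV a b).toAffine.polynomial = 0 :=
    AdjoinRoot.mk_self
  have h1 : Affine.CoordinateRing.mk (CV a b).toAffine (X ^ 2 - C (cub a b)) = 0 :=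
    (congrArg (Affine.CoordinateRing.mk (CV a b).toAffine) (poly_eq a b)).symm.trans h0
  rw [map_sub, map_pow] at h1
  have h2 := congrArg (algebraMap (CRd a b) (FFd a b)) h1
  rw [map_sub, map_pow, map_zero, mk_alg, aeval_cub] at h2
  change (gY a b) ^ 2 - _ = 0 at h2
  exact sub_eq_zero.1 h2

theorem g_trans : Transcendental k (gX a b) := by
  rw [transcendental_iff]
  intro P hP
  rw [← mk_alg] at hP
  have h1 := (map_eq_zero_iff _ (IsFractionRing.injective (CRd a b) (FFd a b))).1 hP
  have h2 : P • (1 : CRd a b) + (0 : k[X]) • Affine.CoordinateRing.mk (CV a b).toAffine X = 0 := by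
    rw [Affine.CoordinateRing.smul, h1]
    simp
  exact (Affine.CoordinateRing.smul_basis_eq_zero h2).1

theorem g_gen : Gen k (gX a b) (gY a b) := by
  intro w
  obtain ⟨n, m, hm, rfl⟩ := IsFractionRing.div_surjective (A := CRd a b) w
  obtain ⟨P1, Q1, h1⟩ := Affine.CoordinateRing.exists_smul_basis_eq n
  obtain ⟨P2, Q2, h2⟩ := Affine.CoordinateRing.exists_smul_basis_eq m
  have hval : ∀ P Q : k[X], algebraMap (CRd a b) (FFd a b) (P • (1 : CRd a b) +
      Q • Affine.CoordinateRing.mk (CV a b).toAffine X) =
      aeval (gX a b) P + aeval (gX a b) Q * gY a b := by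
    intro P Q
    rw [Affine.CoordinateRing.smul, Affine.CoordinateRing.smul, mul_one, map_add, map_mul, mk_alg,
      mk_alg]
    rfl
  have hn := hval P1 Q1
  have hm' := hval P2 Q2
  rw [h1] at hn
  rw [h2] at hm'
  have hm0 : algebraMap (CRd a b) (FFd a b) m ≠ 0 := by
    rw [Ne, map_eq_zero_iff _ (IsFractionRing.injective (CRd a b) (FFd a b))]
    exact nonZeroDivisors.ne_zero hm
  have hE : gY a b ^ 2 = aeval (gX a b) (cub a b) := by
    rw [aeval_cub]
    exact g_onE a b
  refine ⟨P1 * P2 - Q1 * Q2 * cub a b, Q1 * P2 - P1 * Q2, P2 ^ 2 - Q2 ^ 2 * cub a b, ?_, ?_⟩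
  · intro h0
    have h3 : (aeval (gX a b) P2 + aeval (gX a b) Q2 * gY a b) *
        (aeval (gX a b) P2 + aeval (gX a b) (-Q2) * gY a b) = 0 := by
      have h4 := congrArg (aeval (gX a b)) h0
      simp only [map_sub, map_mul, map_pow, map_zero, ← hE] at h4
      rw [map_neg]
      linear_combination h4
    rcases mul_eq_zero.1 h3 with h4 | h4
    · exact hm0 (hm'.trans h4)
    · obtain ⟨h5, h6⟩ := indep a b (g_onE a b) (g_trans a b) P2 (-Q2) h4
      apply hm0
      rw [hm', h5, neg_eq_zero.1 h6]
      simp
  · rw [div_mul_eq_mul_div, div_eq_iff hm0, hn, hm']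
    simp only [map_sub, map_mul, map_pow, ← hE]
    ring

/-- the specialization at a generic point -/
theorem ff_hom {F : Type} [Field F] [Algebra k F] {X' Y' : F} (hE : OnE a b X' Y')
    (hX : Transcendental k X') : ∃ τ : FFd a b →ₐ[k] F, τ (gX a b) = X' ∧ τ (gY a b) = Y' := by
  have hev : eval₂ (aeval X' : k[X] →ₐ[k] F).toRingHom Y' (CV a b).toAffine.polynomial = 0 := by
    rw [poly_eq]
    simp only [eval₂_sub, eval₂_pow, eval₂_X, eval₂_C, AlgHom.toRingHom_eq_coe, RingHom.coe_coe]
    rw [aeval_cub]
    exact sub_eq_zero.2 hE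
  let φ : CRd a b →+* F := AdjoinRoot.lift (aeval X' : k[X] →ₐ[k] F).toRingHom Y' hev
  have hφC : ∀ P : k[X], φ (Affine.CoordinateRing.mk (CV a b).toAffine (C P)) = aeval X' P :=
    fun P => AdjoinRoot.lift_of hev
  have hφY : φ (Affine.CoordinateRing.mk (CV a b).toAffine X) = Y' := AdjoinRoot.lift_root hev
  have hinj : Function.Injective φ := by
    rw [injective_iff_map_eq_zero]
    intro z hz
    obtain ⟨P, Q, rfl⟩ := Affine.CoordinateRing.exists_smul_basis_eq z
    rw [Affine.CoordinateRing.smul, Affine.CoordinateRing.smul, mul_one, map_add, map_mul, hφC,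
      hφC, hφY] at hz
    obtain ⟨h1, h2⟩ := indep a b hE hX P Q hz
    rw [h1, h2]
    simp
  let τ : FFd a b →+* F := IsFractionRing.lift hinj
  have hτ : ∀ z : CRd a b, τ (algebraMap (CRd a b) (FFd a b) z) = φ z := fun z =>
    IsFractionRing.lift_algebraMap hinj z
  refine ⟨{ τ with commutes' := ?_ }, ?_, ?_⟩
  · intro c
    have h1 : algebraMap k (FFd a b) c = algebraMap (CRd a b) (FFd a b)
        (Affine.CoordinateRing.mk (CV a b).toAffine (C (C c))) := rfl
    change τ (algebraMap k (FFd a b) c) = algebraMap k F c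
    rw [h1, hτ, hφC, aeval_C]
  · change τ (gX a b) = X'
    rw [gX, hτ, hφC, aeval_X]
  · change τ (gY a b) = Y'
    rw [gY, hτ, hφY]

end

/-- the Galois group of the image of a polynomial under an isomorphism of fields -/
theorem gal_card {F F' : Type} [Field F] [Field F'] (τ : F ≃+* F') (p : F[X]) :
    Nat.card (p.map (τ : F →+* F')).Gal = Nat.card p.Gal := by
  have key : ∀ (E : Type) [Field E] [Algebra F' E]
      [IsSplittingField F' E (p.map (τ : F →+* F'))], Nat.card (E ≃ₐ[F'] E) = Nat.card p.Gal := by
    intro E _ _ hE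
    let _ : Algebra F E := ((algebraMap F' E).comp (τ : F →+* F')).toAlgebra
    have hmap : (p.map (τ : F →+* F')).map (algebraMap F' E) = p.map (algebraMap F E) := by
      rw [Polynomial.map_map]
      rfl
    have hspl : IsSplittingField F E p := by
      refine ⟨?_, ?_⟩
      · rw [← hmap]
        exact IsSplittingField.splits E (p.map (τ : F →+* F'))
      · have h1 := IsSplittingField.adjoin_rootSet E (p.map (τ : F →+* F'))
        have h2 : (p.map (τ : F →+* F')).rootSet E = p.rootSet E := by
          unfold rootSet aroots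
          rw [hmap]
        rw [h2] at h1
        rw [eq_top_iff]
        rintro x -
        have h3 : x ∈ Algebra.adjoin F' (p.rootSet E) := by rw [h1]; trivial
        induction h3 using Algebra.adjoin_induction with
        | mem y hy => exact Algebra.subset_adjoin hy
        | algebraMap c =>
          have h4 := Subalgebra.algebraMap_mem (Algebra.adjoin F (p.rootSet E)) (τ.symm c)
          have h5 : algebraMap F E (τ.symm c) = algebraMap F' E c := by
            change algebraMap F' E (τ (τ.symm c)) = _
            rw [RingEquiv.apply_symm_apply]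
          rwa [h5] at h4
        | add y z _ _ ihy ihz => exact Subalgebra.add_mem _ ihy ihz
        | mul y z _ _ ihy ihz => exact Subalgebra.mul_mem _ ihy ihz
    let ε : E ≃ₐ[F] p.SplittingField := IsSplittingField.algEquiv E p
    let e : (E ≃ₐ[F'] E) ≃ (E ≃ₐ[F] E) :=
      { toFun := fun σ => AlgEquiv.ofRingEquiv (f := σ.toRingEquiv) (fun c => σ.commutes (τ c))
        invFun := fun σ => AlgEquiv.ofRingEquiv (f := σ.toRingEquiv) (fun c => by
          have h1 := σ.commutes (τ.symm c)
          change σ (algebraMap F' E (τ (τ.symm c))) = algebraMap F' E (τ (τ.symm c)) at h1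
          rw [RingEquiv.apply_symm_apply] at h1
          exact h1)
        left_inv := fun σ => by ext x; rfl
        right_inv := fun σ => by ext x; rfl }
    rw [Nat.card_congr e, Nat.card_congr (AlgEquiv.autCongr ε).toEquiv]
    rfl
  exact key (p.map (τ : F →+* F')).SplittingField

end Pool.Agent.J4H11.SC
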