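import Pool.Agent.J4H11.SC.Fam

/-!
# The mean values, in terms of the points modulo a prime
-/

set_option autoImplicit false

open Polynomial Module Pool.Agent.J4H11.RC Pool.Agent.H901R3.MS WeierstrassCurve

namespace Pool.Agent.J4H11.SC

theorem ctbl {B : Type} [Fintype B] (x : B → ℂ) :
    {z : ℂ | IsAlgebraic (Algebra.adjoin ℚ (Set.range x)) z}.Countable := by
  have h1 : Countable (MvPolynomial B ℚ) := by
    rw [← Cardinal.mk_le_aleph0_iff]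
    refine (MvPolynomial.cardinalMk_le_max).trans ?_
    simp
  have h2 : Countable (Algebra.adjoin ℚ (Set.range x)) := by
    rw [Algebra.adjoin_range_eq_range_aeval]
    exact (MvPolynomial.aeval x).rangeRestrict_surjective.countable
  exact Algebraic.countable _ _

section
variable {r : ℕ} (i : Fin r) (a b : Fin r → ℤ)

/-- the number of the roots over a point -/
noncomputable def NR {k : Type} [Field k] (Φ : (MvPolynomial (Fin r × Fin 2) ℤ)[X])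
    (x' y' : Bi i → k) {a' b' : k} (R : Pt a' b') : ℕ :=
  Nat.card {w : k // (Φ.map (evp (RC.ext i x' (crd R).1) (RC.ext i y' (crd R).2))).IsRoot w}

/-- the polynomial over a point is separable -/
def SepAt {k : Type} [Field k] (Φ : (MvPolynomial (Fin r × Fin 2) ℤ)[X])
    (x' y' : Bi i → k) {a' b' : k} (R : Pt a' b') : Prop :=
  (Φ.map (evp (RC.ext i x' (crd R).1) (RC.ext i y' (crd R).2))).Separable

theorem fam2 (xb yb : Bi i → ℂ) (hxb : AlgebraicIndependent ℚ xb)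
    (hyb : ∀ j, yb j ^ 2 = xb j ^ 3 + ((a j : ℤ) : ℂ) * xb j + ((b j : ℤ) : ℂ))
    (hDC : Disc (a i : ℂ) (b i : ℂ))
    (Φ : (MvPolynomial (Fin r × Fin 2) ℤ)[X]) (hΦ : Φ.Monic) (d : ℕ) (hd : 2 ≤ d)
    (hΦd : Φ.natDegree = d)
    (hGal : Nat.card (Φ.map (evp
      (RC.ext i (fun j => algebraMap ℂ (FFd (a i : ℂ) (b i : ℂ)) (xb j)) (gX (a i : ℂ) (b i : ℂ)))
      (RC.ext i (fun j => algebraMap ℂ (FFd (a i : ℂ) (b i : ℂ)) (yb j))
        (gY (a i : ℂ) (b i : ℂ))))).Gal = d.factorial)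
    (xS yS : ℂ) (hz : SimpleZero (a i : ℂ) (b i : ℂ) (spec i Φ.discr xb yb) xS yS)
    (c1 c2 : ℕ) (hc1 : c1 ≤ d) (hc2 : c2 ≤ d) :
    ∃ (Ψ0 : MvPolynomial (Bi i) ℤ) (m : ℕ) (Cst : ℝ), Ψ0 ≠ 0 ∧ 0 ≤ Cst ∧
    ∀ (k : Type) [Field k] [Finite k] [DecidableEq k]
    (x' y' : Bi i → k) (_ : ∀ j, y' j ^ 2 = x' j ^ 3 + ((a j : ℤ) : k) * x' j + ((b j : ℤ) : k)),
    MvPolynomial.aeval x' Ψ0 ≠ 0 → Disc (a i : k) (b i : k) → ∃ S : Finset k, S.card ≤ m ∧
    ∀ (h : Pt (a i : k) (b i : k)), h ≠ 0 → (crd h).1 ∉ S → (crd h).2 ≠ 0 →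
    ∀ [Fintype {R : Pt (a i : k) (b i : k) // R ≠ 0 ∧ R + h ≠ 0}]
    (P : {R : Pt (a i : k) (b i : k) // R ≠ 0 ∧ R + h ≠ 0} → Prop) [DecidablePred P],
    (∀ R, P R → SepAt i Φ x' y' R.1 ∧ SepAt i Φ x' y' (R.1 + h)) →
    |∑ R, (if P R then (((NR i Φ x' y' R.1).descFactorial c1 *
      (NR i Φ x' y' (R.1 + h)).descFactorial c2 : ℕ) : ℝ) else 0) -
      Nat.card k| ≤ Cst * √(Nat.card k : ℝ) +
        (d.descFactorial c1 * d.descFactorial c2 : ℕ) *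
          (Finset.univ.filter (fun x => ¬ P x)).card := by
  classical
  obtain ⟨xh, yh, hxh, hyh, hyh0, hns⟩ := choose_h hDC (spec i Φ.discr xb yb) xS yS hz _ (ctbl xb)
  set x : Option (Bi i) → ℂ := fun o => o.elim xh xb with hx
  set y : Option (Bi i) → ℂ := fun o => o.elim yh yb with hy
  have hxind : AlgebraicIndependent ℚ x :=
    (hxb.option_iff_transcendental xh).2 (fun h => hxh h)
  have hcurve : ∀ o, y o ^ 2 = x o ^ 3 + ((oe i a o : ℤ) : ℂ) * x o + ((oe i b o : ℤ) : ℂ) := by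
    rintro (_ | j)
    · exact hyh
    · exact hyb j
  set F := FFd (a i : ℂ) (b i : ℂ) with hF
  set X := gX (a i : ℂ) (b i : ℂ) with hX
  set Y := gY (a i : ℂ) (b i : ℂ) with hY
  have hXt := g_trans (a i : ℂ) (b i : ℂ)
  have hE := g_onE (a i : ℂ) (b i : ℂ)
  have hG := g_gen (a i : ℂ) (b i : ℂ)
  have hne := ne_of_trans hXt xh
  have hu : X - algebraMap ℂ F xh ≠ 0 := sub_ne_zero.2 hne
  obtain ⟨l, hl⟩ : ∃ l : F, l * (X - algebraMap ℂ F xh) = Y - algebraMap ℂ F yh :=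
    ⟨(Y - algebraMap ℂ F yh) / (X - algebraMap ℂ F xh), div_mul_cancel₀ _ hu⟩
  obtain ⟨X2, hX2⟩ : ∃ X2 : F, X2 = l ^ 2 - X - algebraMap ℂ F xh := ⟨_, rfl⟩
  obtain ⟨Y2, hY2⟩ : ∃ Y2 : F, Y2 = -(algebraMap ℂ F yh + l * (X2 - algebraMap ℂ F xh)) :=
    ⟨_, rfl⟩
  obtain ⟨τ, hτX, hτY⟩ := ff_trans (a i : ℂ) (b i : ℂ) xh yh hyh hyh0 l X2 Y2 hl hX2 hY2
  have hG2 : Nat.card (Φ.map (evp (RC.ext i (fun j => algebraMap ℂ F (x (some j))) X2)
      (RC.ext i (fun j => algebraMap ℂ F (y (some j))) Y2))).Gal = d.factorial := by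
    have h1 : Φ.map (evp (RC.ext i (fun j => algebraMap ℂ F (x (some j))) X2)
      (RC.ext i (fun j => algebraMap ℂ F (y (some j))) Y2)) = (Φ.map (evp
      (RC.ext i (fun j => algebraMap ℂ F (xb j)) X)
      (RC.ext i (fun j => algebraMap ℂ F (yb j)) Y))).map
        (τ.toRingEquiv : F →+* F) := by
      rw [Polynomial.map_map, evp_ext]
      have e1 : ((τ.toRingEquiv : F →+* F)) X = X2 := hτX
      have e2 : ((τ.toRingEquiv : F →+* F)) Y = Y2 := hτY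
      have e3 : ∀ c, ((τ.toRingEquiv : F →+* F)) (algebraMap ℂ F c) = algebraMap ℂ F c :=
        fun c => τ.commutes c
      simp only [e1, e2, e3]
      rfl
    rw [h1, gal_card]
    exact hGal
  obtain ⟨s, Cst, hs, hC, hmain⟩ := fam1 i a b x y hcurve hyh0 X Y hE hXt hG l X2 Y2 hl hX2 hY2
    Φ hΦ d hd hΦd hGal hG2 (by
      intro w
      have h1 := hns l X2 Y2 hl hX2 hY2 w
      rw [spec_eval, spec_eval] at h1
      exact h1) c1 c2 hc1 hc2
  obtain ⟨Ψ, hΨ0, hΨ⟩ := th_elim (oe i a) (oe i b) x y hcurve s hs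
  obtain ⟨Ψ0, m, hΨ00, hsplit⟩ := opt_split Ψ hΨ0
  refine ⟨Ψ0, m, Cst, hΨ00, hC, ?_⟩
  intro k _ _ _ x' y' hxy' hΨk hDk
  obtain ⟨S, hS, hS2⟩ := hsplit k x' hΨk
  refine ⟨S, hS, ?_⟩
  intro h h0 hxS hy0 inst P instP hP
  rcases h with _ | ⟨x0, y0, hns0⟩
  · exact absurd rfl h0
  change x0 ∉ S at hxS
  change y0 ≠ 0 at hy0
  set x'' : Option (Bi i) → k := fun o => o.elim x0 x' with hx''
  set y'' : Option (Bi i) → k := fun o => o.elim y0 y' with hy''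
  have hcurve' : ∀ o, y'' o ^ 2 = x'' o ^ 3 + ((oe i a o : ℤ) : k) * x'' o +
      ((oe i b o : ℤ) : k) := by
    rintro (_ | j)
    · exact eqn_of hns0
    · exact hxy' j
  obtain ⟨ψ, hψ⟩ := th_hom (oe i a) (oe i b) x y hxind hcurve x'' y'' hcurve'
  have hψs : ψ s ≠ 0 := hΨ k x'' y'' ψ hψ (hS2 x0 hxS)
  let _ : Fintype {R : Pt (a i : k) (b i : k) // R ≠ 0 ∧
      R + Affine.Point.some (x'' none) (y'' none) hns0 ≠ 0} := inst
  let P' : {R : Pt (a i : k) (b i : k) // R ≠ 0 ∧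
      R + Affine.Point.some (x'' none) (y'' none) hns0 ≠ 0} → Prop := P
  let _ : DecidablePred P' := instP
  exact hmain k x'' y'' ψ hψ hψs hDk hy0 hns0 P' hP

end

end Pool.Agent.J4H11.SC
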