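import Mathlib

/-!
# Normal subgroups of the symmetric group which contain an odd permutation
-/

set_option autoImplicit false

open Equiv Equiv.Perm

namespace Pool.Agent.J4H11.SC

section
variable {α : Type} [Fintype α] [DecidableEq α]

theorem top_of_three (N : Subgroup (Perm α)) [N.Normal] (g : Perm α) (hg : g ∈ N)
    (hs : sign g = -1) (t : Perm α) (ht : t ∈ N) (h3 : IsThreeCycle t) : N = ⊤ := by
  have h1 : alternatingGroup α ≤ N := by
    rw [← closure_three_cycles_eq_alternating, Subgroup.closure_le]
    intro τ hτ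
    have h2 : IsConj t τ := by
      rw [isConj_iff_cycleType_eq, h3, hτ]
    obtain ⟨c, hc⟩ := isConj_iff.1 h2
    rw [← hc]
    exact Subgroup.Normal.conj_mem inferInstance t ht c
  rw [eq_top_iff]
  intro τ _
  rcases Int.units_eq_one_or (sign τ) with h | h
  · exact h1 (mem_alternatingGroup.2 h)
  · have h2 : τ * g⁻¹ ∈ N := h1 (mem_alternatingGroup.2 (by
      rw [map_mul, map_inv, h, hs]; rfl))
    have h3 := N.mul_mem h2 hg
    rwa [inv_mul_cancel_right] at h3

theorem comm_mem (N : Subgroup (Perm α)) [N.Normal] (g : Perm α) (hg : g ∈ N) (x y : α) :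
    swap (g x) (g y) * swap x y ∈ N := by
  have h1 : g * (swap x y * g⁻¹ * (swap x y)⁻¹) ∈ N :=
    N.mul_mem hg (Subgroup.Normal.conj_mem inferInstance _ (N.inv_mem hg) _)
  have h2 : g * (swap x y * g⁻¹ * (swap x y)⁻¹) = swap (g x) (g y) * swap x y := by
    rw [swap_inv, ← mul_assoc, ← mul_assoc, mul_swap_eq_swap_mul g x y, mul_inv_cancel_right]
  rwa [h2] at h1

/-- **A normal subgroup of the symmetric group which contains an odd permutation is everything** -/
theorem normal_perm (N : Subgroup (Perm α)) [N.Normal] (g : Perm α) (hg : g ∈ N)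
    (hs : sign g = -1) : N = ⊤ := by
  by_cases hsq : ∀ x, g (g x) = x
  · have hg1 : g ≠ 1 := by
      rintro rfl
      rw [map_one] at hs
      exact absurd hs (by decide)
    obtain ⟨x, hx⟩ : ∃ x, g x ≠ x := by
      by_contra hcon
      push Not at hcon
      exact hg1 (Equiv.ext hcon)
    by_cases hsw : g = swap x (g x)
    · -- all the swaps
      rw [eq_top_iff, ← closure_isSwap, Subgroup.closure_le]
      intro τ hτ
      have h1 : IsSwap g := ⟨x, g x, hx.symm, hsw⟩
      have h2 : IsConj g τ := by
        rw [isConj_iff_cycleType_eq]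
        obtain ⟨a, b, hab, rfl⟩ := hτ
        rw [hsw, (card_support_eq_two.2 ⟨x, g x, hx.symm, rfl⟩ |> fun h =>
          (isSwap_iff_cycleType.1 (card_support_eq_two.1 h)))]
        exact (isSwap_iff_cycleType.1 ⟨a, b, hab, rfl⟩).symm
      obtain ⟨c, hc⟩ := isConj_iff.1 h2
      rw [← hc]
      exact Subgroup.Normal.conj_mem inferInstance g hg c
    · obtain ⟨y, hy⟩ : ∃ y, g y ≠ swap x (g x) y := by
        by_contra hcon
        push Not at hcon
        exact hsw (Equiv.ext hcon)
      have hyx : y ≠ x := by
        rintro rfl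
        rw [swap_apply_left] at hy
        exact hy rfl
      have hyx' : y ≠ g x := by
        rintro rfl
        rw [swap_apply_right] at hy
        exact hy (hsq x)
      rw [swap_apply_of_ne_of_ne hyx hyx'] at hy
      obtain ⟨z, hz⟩ : ∃ z, g z ≠ (swap x (g x) * swap y (g y)) z := by
        by_contra hcon
        push Not at hcon
        have h1 := Equiv.ext hcon
        rw [h1, map_mul, sign_swap hx.symm, sign_swap hy.symm] at hs
        exact absurd hs (by decide)
      have hgyx : g y ≠ x := fun h => hyx' (by rw [← h, hsq])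
      have hgygx : g y ≠ g x := fun h => hyx (g.injective h)
      have hzx : z ≠ x := by
        rintro rfl
        apply hz
        rw [Perm.mul_apply, swap_apply_of_ne_of_ne hyx.symm hgyx.symm, swap_apply_left]
      have hzgx : z ≠ g x := by
        rintro rfl
        apply hz
        rw [Perm.mul_apply, swap_apply_of_ne_of_ne hyx'.symm hgygx.symm, swap_apply_right, hsq]
      have hzy : z ≠ y := by
        rintro rfl
        apply hz
        rw [Perm.mul_apply, swap_apply_left, swap_apply_of_ne_of_ne hgyx hgygx]
      have hzgy : z ≠ g y := by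
        rintro rfl
        apply hz
        rw [Perm.mul_apply, swap_apply_right, swap_apply_of_ne_of_ne hyx hyx', hsq]
      have h1 := comm_mem N g hg x y
      have h2 : swap (g x) (g y) * swap x z ∈ N := by
        have h3 := Subgroup.Normal.conj_mem (inferInstance : N.Normal) _ h1 (swap y z)
        have h4 : swap y z * (swap (g x) (g y) * swap x y) * (swap y z)⁻¹ =
            swap (g x) (g y) * swap x z := by
          rw [← mul_assoc, mul_swap_eq_swap_mul (swap y z) (g x) (g y),
            swap_apply_of_ne_of_ne hyx'.symm hzgx.symm,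
            swap_apply_of_ne_of_ne hy hzgy.symm, mul_assoc (swap (g x) (g y)) (swap y z),
            mul_swap_eq_swap_mul (swap y z) x y, swap_apply_of_ne_of_ne hyx.symm hzx.symm,
            swap_apply_left, ← mul_assoc, mul_inv_cancel_right]
        rwa [h4] at h3
      have h5 := N.mul_mem (N.inv_mem h1) h2
      have h6 : (swap (g x) (g y) * swap x y)⁻¹ * (swap (g x) (g y) * swap x z) =
          swap x y * swap x z := by
        rw [mul_inv_rev, swap_inv, swap_inv, mul_assoc, ← mul_assoc (swap (g x) (g y)),
          swap_mul_self, one_mul]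
      rw [h6] at h5
      exact top_of_three N g hg hs _ h5
        (isThreeCycle_swap_mul_swap_same hyx.symm hzx.symm hzy.symm)
  · push Not at hsq
    obtain ⟨x, hx⟩ := hsq
    have hx1 : g x ≠ x := fun h => hx (by rw [h, h])
    have hx2 : g (g x) ≠ g x := fun h => hx1 (g.injective h)
    have h1 := comm_mem N g hg x (g x)
    have h2 : swap (g x) (g (g x)) * swap x (g x) = swap (g x) (g (g x)) * swap (g x) x := by
      rw [swap_comm x]
    rw [h2] at h1
    exact top_of_three N g hg hs _ h1 (isThreeCycle_swap_mul_swap_same hx2.symm hx1 hx)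

end

/-- **Goursat's lemma for two symmetric groups** -/
theorem goursat {α β : Type} [Fintype α] [DecidableEq α] [Fintype β] [DecidableEq β]
    [Nontrivial α] (H : Subgroup (Perm α × Perm β)) (h1 : ∀ a, ∃ b, (a, b) ∈ H)
    (h2 : ∀ b, ∃ a, (a, b) ∈ H) (hs : ∃ a b, (a, b) ∈ H ∧ sign a ≠ sign b) : H = ⊤ := by
  set N : Subgroup (Perm α) :=
    { carrier := {a | (a, 1) ∈ H}
      mul_mem' := fun {a b} ha hb => by
        have := H.mul_mem ha hb
        rwa [Prod.mk_mul_mk, mul_one] at this
      one_mem' := H.one_mem
      inv_mem' := fun {a} ha => by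
        have := H.inv_mem ha
        rwa [Prod.inv_mk, inv_one] at this } with hN
  have hmem : ∀ a, a ∈ N ↔ (a, 1) ∈ H := fun a => Iff.rfl
  have hnorm : N.Normal := by
    refine ⟨fun a ha c => ?_⟩
    obtain ⟨b, hb⟩ := h1 c
    rw [hmem] at ha ⊢
    have := H.mul_mem (H.mul_mem hb ha) (H.inv_mem hb)
    rwa [Prod.inv_mk, Prod.mk_mul_mk, Prod.mk_mul_mk, mul_one, mul_inv_cancel] at this
  by_cases hodd : ∃ g ∈ N, sign g = -1
  · obtain ⟨g, hg, hgs⟩ := hodd
    have htop := normal_perm N g hg hgs
    rw [eq_top_iff]
    rintro ⟨a, b⟩ _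
    obtain ⟨a', ha'⟩ := h2 b
    have h3 : (a * a'⁻¹, 1) ∈ H := by
      rw [← hmem, htop]
      trivial
    have := H.mul_mem h3 ha'
    rwa [Prod.mk_mul_mk, one_mul, inv_mul_cancel_right] at this
  · exfalso
    push Not at hodd
    have heven : ∀ a ∈ N, sign a = 1 := fun a ha =>
      (Int.units_eq_one_or (sign a)).resolve_right (hodd a ha)
    have hwd : ∀ a a' b, (a, b) ∈ H → (a', b) ∈ H → sign a = sign a' := by
      intro a a' b ha ha'
      have h3 : a * a'⁻¹ ∈ N := by
        rw [hmem]
        have := H.mul_mem ha (H.inv_mem ha')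
        rwa [Prod.inv_mk, Prod.mk_mul_mk, mul_inv_cancel] at this
      have h4 := heven _ h3
      rw [map_mul, map_inv, mul_inv_eq_one] at h4
      exact h4
    choose s hs' using h2
    let S : Perm β →* ℤˣ :=
      { toFun := fun b => sign (s b)
        map_one' := by
          rw [hwd (s 1) 1 1 (hs' 1) H.one_mem, map_one]
        map_mul' := fun b b' => by
          have := H.mul_mem (hs' b) (hs' b')
          rw [Prod.mk_mul_mk] at this
          rw [hwd (s (b * b')) (s b * s b') (b * b') (hs' _) this, map_mul] }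
    have hS : ∀ a b, (a, b) ∈ H → S b = sign a := fun a b h => hwd _ _ b (hs' b) h
    have hsurj : Function.Surjective S := by
      intro u
      obtain ⟨a, ha⟩ := sign_surjective α u
      obtain ⟨b, hb⟩ := h1 a
      exact ⟨b, by rw [hS a b hb, ha]⟩
    have h5 := eq_sign_of_surjective_hom hsurj
    obtain ⟨a, b, hab, hne⟩ := hs
    apply hne
    rw [← hS a b hab, h5]

end Pool.Agent.J4H11.SC
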