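import Pool.Agent.J4H11.SC.GT

/-!
# Two independent symmetric extensions
-/

set_option autoImplicit false

open Polynomial Module

namespace Pool.Agent.J4H11.SC

theorem ext_perm {α : Type} [Fintype α] [DecidableEq α] {a : ℕ} (θ u : Fin a ↪ α) :
    ∃ π : Equiv.Perm α, ∀ t, π (θ t) = u t := by
  classical
  let e : {x // x ∈ Set.range θ} ≃ {x // x ∈ Set.range u} :=
    (Equiv.ofInjective θ θ.injective).symm.trans (Equiv.ofInjective u u.injective)
  refine ⟨e.extendSubtype, fun t => ?_⟩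
  rw [Equiv.extendSubtype_apply_of_mem e (θ t) ⟨t, rfl⟩]
  change ((Equiv.ofInjective u u.injective) ((Equiv.ofInjective θ θ.injective).symm
    ⟨θ t, ⟨t, rfl⟩⟩) : α) = u t
  have h1 : (Equiv.ofInjective θ θ.injective).symm ⟨θ t, ⟨t, rfl⟩⟩ = t := by
    rw [Equiv.symm_apply_eq]
    rfl
  rw [h1]
  rfl

section
variable {F Ω : Type} [Field F] [Field Ω] [Algebra F Ω] [IsAlgClosed Ω] [Normal F Ω]

instance factSplits (p : F[X]) : Fact ((p.map (algebraMap F Ω)).Splits) := ⟨IsAlgClosed.splits _⟩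

/-- the action of the automorphisms on the roots -/
noncomputable def rho (p : F[X]) : (Ω ≃ₐ[F] Ω) →* Equiv.Perm (p.rootSet Ω) :=
  (Gal.galActionHom p Ω).comp (Gal.restrict p Ω)

omit [Normal F Ω] in
theorem rho_apply (p : F[X]) (σ : Ω ≃ₐ[F] Ω) (x : p.rootSet Ω) :
    ((rho p σ x : p.rootSet Ω) : Ω) = σ x := Gal.galActionHom_restrict p Ω σ x

theorem rho_surj (p : F[X]) (d : ℕ) (hd : 2 ≤ d) (hpd : p.natDegree ≤ d)
    (hcard : Nat.card p.Gal = d.factorial) :
    Nat.card (p.rootSet Ω) = d ∧ Function.Surjective (rho (Ω := Ω) p) := by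
  classical
  have hfin : Finite (p.rootSet Ω) := inferInstance
  let _ := Fintype.ofFinite (p.rootSet Ω)
  have h1 : Nat.card (p.rootSet Ω) ≤ d := by
    rw [Nat.card_coe_set_eq]
    exact (ncard_rootSet_le p Ω).trans hpd
  have h2 : Nat.card p.Gal ≤ (Nat.card (p.rootSet Ω)).factorial := by
    have h3 := Nat.card_le_card_of_injective _ (Gal.galActionHom_injective p Ω)
    rwa [Nat.card_perm] at h3
  have h3 : Nat.card (p.rootSet Ω) = d := by
    by_contra hne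
    have h4 : Nat.card (p.rootSet Ω) < d := lt_of_le_of_ne h1 hne
    rw [hcard] at h2
    rcases Nat.eq_zero_or_pos (Nat.card (p.rootSet Ω)) with h5 | h5
    · rw [h5, Nat.factorial_zero] at h2
      have := Nat.one_lt_factorial.2 (show 1 < d by omega)
      omega
    · have := (Nat.factorial_lt h5).2 h4
      omega
  refine ⟨h3, ?_⟩
  have h4 : Function.Surjective (Gal.galActionHom p Ω) := by
    have hb := (Nat.bijective_iff_injective_and_card (Gal.galActionHom p Ω)).2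
      ⟨Gal.galActionHom_injective p Ω, by rw [Nat.card_perm, h3, hcard]⟩
    exact hb.2
  exact h4.comp (Gal.restrict_surjective p Ω)

/-- the two Galois groups are independent -/
theorem rho_prod (p q : F[X]) (d : ℕ) (hd : 2 ≤ d) (hpd : p.natDegree ≤ d)
    (hqd : q.natDegree ≤ d) (hp : Nat.card p.Gal = d.factorial) (hq : Nat.card q.Gal = d.factorial)
    [Fintype (p.rootSet Ω)] [DecidableEq (p.rootSet Ω)] [Fintype (q.rootSet Ω)]
    [DecidableEq (q.rootSet Ω)]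
    (hs : ∃ σ : Ω ≃ₐ[F] Ω, Equiv.Perm.sign (rho p σ) ≠ Equiv.Perm.sign (rho q σ))
    (a : Equiv.Perm (p.rootSet Ω)) (b : Equiv.Perm (q.rootSet Ω)) :
    ∃ σ : Ω ≃ₐ[F] Ω, rho p σ = a ∧ rho q σ = b := by
  obtain ⟨h1, h2⟩ := rho_surj (Ω := Ω) p d hd hpd hp
  obtain ⟨h3, h4⟩ := rho_surj (Ω := Ω) q d hd hqd hq
  have hnt : Nontrivial (p.rootSet Ω) := by
    rw [← Fintype.one_lt_card_iff_nontrivial, ← Nat.card_eq_fintype_card, h1]
    omega
  set H : Subgroup (Equiv.Perm (p.rootSet Ω) × Equiv.Perm (q.rootSet Ω)) :=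
    ((rho p).prod (rho q)).range with hH
  have htop : H = ⊤ := by
    apply goursat H
    · intro a
      obtain ⟨σ, hσ⟩ := h2 a
      exact ⟨rho q σ, σ, by rw [← hσ]; rfl⟩
    · intro b
      obtain ⟨σ, hσ⟩ := h4 b
      exact ⟨rho p σ, σ, by rw [← hσ]; rfl⟩
    · obtain ⟨σ, hσ⟩ := hs
      exact ⟨rho p σ, rho q σ, ⟨σ, rfl⟩, hσ⟩
  have hab : (a, b) ∈ H := by rw [htop]; trivial
  obtain ⟨σ, hσ⟩ := hab
  exact ⟨σ, congrArg Prod.fst hσ, congrArg Prod.snd hσ⟩

/-- the degree of the field generated by some roots -/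
theorem degree_roots (p q : F[X]) (d : ℕ) (hd : 2 ≤ d) (hpd : p.natDegree ≤ d)
    (hqd : q.natDegree ≤ d) (hp : Nat.card p.Gal = d.factorial) (hq : Nat.card q.Gal = d.factorial)
    [Fintype (p.rootSet Ω)] [DecidableEq (p.rootSet Ω)] [Fintype (q.rootSet Ω)]
    [DecidableEq (q.rootSet Ω)]
    (hs : ∃ σ : Ω ≃ₐ[F] Ω, Equiv.Perm.sign (rho p σ) ≠ Equiv.Perm.sign (rho q σ))
    (a b : ℕ) (θ : Fin a ↪ p.rootSet Ω) (η : Fin b ↪ q.rootSet Ω)
    (L : IntermediateField F Ω) [FiniteDimensional F L] (h1 : ∀ t, (θ t : Ω) ∈ L)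
    (h2 : ∀ t, (η t : Ω) ∈ L) :
    d.descFactorial a * d.descFactorial b ≤ finrank F L := by
  classical
  refine le_trans ?_ (card_algHom_le_finrank F L Ω)
  have hcp : Fintype.card (p.rootSet Ω) = d := by
    rw [← Nat.card_eq_fintype_card]
    exact (rho_surj (Ω := Ω) p d hd hpd hp).1
  have hcq : Fintype.card (q.rootSet Ω) = d := by
    rw [← Nat.card_eq_fintype_card]
    exact (rho_surj (Ω := Ω) q d hd hqd hq).1
  have hcard : Nat.card ((Fin a ↪ p.rootSet Ω) × (Fin b ↪ q.rootSet Ω)) =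
      d.descFactorial a * d.descFactorial b := by
    rw [Nat.card_prod, Nat.card_eq_fintype_card, Nat.card_eq_fintype_card,
      Fintype.card_embedding_eq, Fintype.card_embedding_eq, hcp, hcq, Fintype.card_fin,
      Fintype.card_fin]
  rw [← hcard]
  have hex : ∀ z : (Fin a ↪ p.rootSet Ω) × (Fin b ↪ q.rootSet Ω), ∃ σ : Ω ≃ₐ[F] Ω,
      (∀ t, σ (θ t : Ω) = z.1 t) ∧ ∀ t, σ (η t : Ω) = z.2 t := by
    rintro ⟨u, v⟩
    obtain ⟨π, hπ⟩ := ext_perm θ u
    obtain ⟨π', hπ'⟩ := ext_perm η v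
    obtain ⟨σ, hσ1, hσ2⟩ := rho_prod p q d hd hpd hqd hp hq hs π π'
    refine ⟨σ, fun t => ?_, fun t => ?_⟩
    · rw [← rho_apply, hσ1, hπ]
    · rw [← rho_apply, hσ2, hπ']
  choose σ hσ1 hσ2 using hex
  refine Nat.card_le_card_of_injective (fun z => (σ z : Ω →ₐ[F] Ω).comp L.val) ?_
  rintro z z' h
  apply Prod.ext
  · apply DFunLike.ext
    intro t
    apply Subtype.ext
    rw [← hσ1 z t, ← hσ1 z' t]
    exact DFunLike.congr_fun h (⟨θ t, h1 t⟩ : L)
  · apply DFunLike.ext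
    intro t
    apply Subtype.ext
    rw [← hσ2 z t, ← hσ2 z' t]
    exact DFunLike.congr_fun h (⟨η t, h2 t⟩ : L)

end

end Pool.Agent.J4H11.SC
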