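import Pool.Agent.J4H11.SC.FF2

/-!
# The slope as a coordinate, and the translation automorphism
-/

set_option autoImplicit false

open Polynomial Module Pool.Agent.J4H11.RC Pool.Agent.H901R3.MS WeierstrassCurve

namespace Pool.Agent.J4H11.SC

theorem sub_aeval {k F : Type} [Field k] [Field F] [Algebra k F] (R : Subalgebra k F) {x : F}
    (hx : x ∈ R) (P : k[X]) : aeval x P ∈ R := by
  have h1 := aeval_algHom_apply R.val ⟨x, hx⟩ P
  have h2 : aeval x P = ((aeval (⟨x, hx⟩ : R) P : R) : F) := h1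
  rw [h2]
  exact Subtype.property _

section
variable {k : Type} [Field k] [IsAlgClosed k] [CharZero k] (a b : k) {F : Type} [Field F]
  [Algebra k F]

theorem lam_struct (X Y : F) (hE : OnE a b X Y) (hX : Transcendental k X) (hG : Gen k X Y)
    (xh yh : k) (hh : yh ^ 2 = xh ^ 3 + a * xh + b) (hyh : yh ≠ 0) (l : F)
    (hl : l * (X - algebraMap k F xh) = Y - algebraMap k F yh) :
    ∃ eF : FractionRing k[X] →+* F, (∀ P : k[X], eF (algebraMap k[X] _ P) = aeval l P) ∧
      (letI := eF.toAlgebra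
      2 ≤ finrank (FractionRing k[X]) F ∧ Algebra.adjoin (FractionRing k[X]) {X} = ⊤) := by
  have hne := ne_of_trans hX xh
  have hq := lam_quad a b xh yh hE hh hne hl
  have hlt := lam_trans a xh yh hX hq
  have hinj : Function.Injective (aeval l : k[X] →ₐ[k] F).toRingHom :=
    transcendental_iff_injective.1 hlt
  let eF : FractionRing k[X] →+* F := IsFractionRing.lift hinj
  have heF : ∀ P : k[X], eF (algebraMap k[X] _ P) = aeval l P := fun P =>
    IsFractionRing.lift_algebraMap hinj P
  refine ⟨eF, heF, ?_⟩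
  let _ := eF.toAlgebra
  have hmap : ∀ z, algebraMap (FractionRing k[X]) F z = eF z := fun z => rfl
  have hXint : IsIntegral (FractionRing k[X]) X := by
    refine ⟨Polynomial.X ^ 2 - C (algebraMap k[X] _ (Polynomial.X ^ 2 - C xh)) * Polynomial.X +
      C (algebraMap k[X] _ (C xh * Polynomial.X ^ 2 - C (2 * yh) * Polynomial.X +
        C (xh ^ 2 + a))), by monicity!, ?_⟩
    simp only [eval₂_add, eval₂_sub, eval₂_pow, eval₂_mul, eval₂_X, eval₂_C]
    rw [hmap, hmap, heF, heF]
    simp only [map_add, map_sub, map_mul, map_pow, aeval_X, aeval_C, map_ofNat]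
    linear_combination hq
  set T := Algebra.adjoin (FractionRing k[X]) ({X} : Set F) with hT
  have hXT : X ∈ T := Algebra.subset_adjoin rfl
  have hkT : ∀ c : k, algebraMap k F c ∈ T := by
    intro c
    have h1 := T.algebraMap_mem (algebraMap k[X] _ (C c))
    rwa [hmap, heF, aeval_C] at h1
  have hlT : l ∈ T := by
    have h1 := T.algebraMap_mem (algebraMap k[X] _ Polynomial.X)
    rwa [hmap, heF, aeval_X] at h1
  have hYT : Y ∈ T := by
    have h1 : Y = algebraMap k F yh + l * (X - algebraMap k F xh) := by linear_combination -hl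
    rw [h1]
    exact T.add_mem (hkT _) (T.mul_mem hlT (T.sub_mem hXT (hkT _)))
  have hPT : ∀ P : k[X], aeval X P ∈ T := by
    intro P
    rw [aeval_eq_sum_range]
    refine T.sum_mem fun n _ => ?_
    rw [Algebra.smul_def]
    exact T.mul_mem (hkT _) (T.pow_mem hXT n)
  have htop : T = ⊤ := by
    rw [eq_top_iff]
    rintro w -
    obtain ⟨P, Q, D, hD, hw⟩ := hG w
    have hD0 : aeval X D ≠ 0 := fun h0 => hD (trans_inj hX h0)
    have hinv : (aeval X D)⁻¹ ∈ T := by
      have hTint : Algebra.IsIntegral (FractionRing k[X]) T :=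
        Algebra.IsIntegral.adjoin fun x hx => by
          rw [Set.mem_singleton_iff.1 hx]
          exact hXint
      exact hTint.inv_mem (hPT D)
    have h1 : w = (aeval X P + aeval X Q * Y) * (aeval X D)⁻¹ := by
      rw [← hw, mul_assoc, mul_inv_cancel₀ hD0, mul_one]
    rw [h1]
    exact T.mul_mem (T.add_mem (hPT P) (T.mul_mem (hPT Q) hYT)) hinv
  refine ⟨?_, htop⟩
  have hfin : FiniteDimensional (FractionRing k[X]) F := by
    have h1 := hXint.fg_adjoin_singleton
    rw [← hT, htop, Algebra.top_toSubmodule] at h1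
    exact ⟨h1⟩
  have hpos : 0 < finrank (FractionRing k[X]) F := finrank_pos
  have hne1 : finrank (FractionRing k[X]) F ≠ 1 := by
    intro h1
    have h2 := Subalgebra.bot_eq_top_iff_finrank_eq_one.2 h1
    have h3 : X ∈ (⊥ : Subalgebra (FractionRing k[X]) F) := by rw [h2]; trivial
    obtain ⟨r, hr⟩ := Algebra.mem_bot.1 h3
    apply X_notin (k := k) (K1 := FractionRing k[X]) a xh yh hyh r
    apply eF.injective
    simp only [map_add, map_sub, map_mul, map_pow, heF, aeval_X, aeval_C, map_ofNat, map_zero]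
    rw [hmap] at hr
    rw [hr]
    exact hq
  omega

end

section
variable {k : Type} [Field k] [IsAlgClosed k] [CharZero k] (a b : k)

/-- the translation automorphism -/
theorem ff_trans (xh yh : k) (hh : yh ^ 2 = xh ^ 3 + a * xh + b) (hyh : yh ≠ 0)
    (l X2 Y2 : FFd a b)
    (hl : l * (gX a b - algebraMap k _ xh) = gY a b - algebraMap k _ yh)
    (hX2 : X2 = l ^ 2 - gX a b - algebraMap k _ xh)
    (hY2 : Y2 = -(algebraMap k _ yh + l * (X2 - algebraMap k _ xh))) :
    ∃ τ : FFd a b ≃ₐ[k] FFd a b, τ (gX a b) = X2 ∧ τ (gY a b) = Y2 := by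
  have hne := ne_of_trans (g_trans a b) xh
  have hq := lam_quad a b xh yh (g_onE a b) hh hne hl
  have hlt := lam_trans a xh yh (g_trans a b) hq
  have hE2 := trans_onE a b xh yh hh hq hX2 hY2
  have hX2t := X2_trans a xh yh hlt hyh hq hX2
  obtain ⟨τ, h1, h2⟩ := ff_hom a b hE2 hX2t
  have hsurj : Function.Surjective τ := by
    set R := τ.fieldRange with hR
    have hX2R : X2 ∈ R := ⟨_, h1⟩
    have hY2R : Y2 ∈ R := ⟨_, h2⟩
    have hkR : ∀ c : k, algebraMap k (FFd a b) c ∈ R := fun c => R.algebraMap_mem c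
    have hne2 : X2 - algebraMap k _ xh ≠ 0 := sub_ne_zero.2 (ne_of_trans hX2t xh)
    have hlR : l ∈ R := by
      have h3 : l = -(Y2 + algebraMap k _ yh) / (X2 - algebraMap k _ xh) := by
        rw [eq_div_iff hne2, hY2]
        ring
      rw [h3]
      exact R.div_mem (R.neg_mem (R.add_mem hY2R (hkR _))) (R.sub_mem hX2R (hkR _))
    have hXR : gX a b ∈ R := by
      have h3 : gX a b = l ^ 2 - X2 - algebraMap k _ xh := by rw [hX2]; ring
      rw [h3]
      exact R.sub_mem (R.sub_mem (R.pow_mem hlR 2) hX2R) (hkR _)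
    have hYR : gY a b ∈ R := by
      have h3 : gY a b = algebraMap k _ yh + l * (gX a b - algebraMap k _ xh) := by
        linear_combination -hl
      rw [h3]
      exact R.add_mem (hkR _) (R.mul_mem hlR (R.sub_mem hXR (hkR _)))
    have hPR : ∀ P : k[X], aeval (gX a b) P ∈ R := fun P => sub_aeval R.toSubalgebra hXR P
    intro w
    obtain ⟨P, Q, D, hD, hw⟩ := g_gen a b w
    have hD0 : aeval (gX a b) D ≠ 0 := fun h0 => hD (trans_inj (g_trans a b) h0)
    have h3 : w = (aeval (gX a b) P + aeval (gX a b) Q * gY a b) / (aeval (gX a b) D) := by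
      rw [eq_div_iff hD0]
      exact hw
    have h4 : w ∈ R := by
      rw [h3]
      exact R.div_mem (R.add_mem (hPR P) (R.mul_mem (hPR Q) hYR)) (hPR D)
    exact h4
  exact ⟨AlgEquiv.ofBijective τ ⟨τ.toRingHom.injective, hsurj⟩, h1, h2⟩

omit [IsAlgClosed k] [CharZero k] in
/-- the product of the values of a function at a point and at its translate is not a square -/
theorem ns_one (G : MvPolynomial (Fin 2) k) (x y : k) (hz : SimpleZero a b G x y)
    (h' : MvPolynomial.aeval ![x, -y] G ≠ 0) (w : FFd a b) :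
    w ^ 2 ≠ MvPolynomial.aeval ![gX a b, gY a b] G := by
  intro h
  have hE : gY a b ^ 2 = aeval (gX a b) (cub a b) := by
    rw [aeval_cub]
    exact g_onE a b
  obtain ⟨P, Q, D, hD, hw⟩ := g_gen a b w
  rw [pair_eval (cub a b) G _ _ hE] at h
  set A := evA (cub a b) G with hA
  set B := evB (cub a b) G with hB
  have h1 : aeval (gX a b) (P ^ 2 + Q ^ 2 * cub a b - D ^ 2 * A) +
      aeval (gX a b) (2 * P * Q - D ^ 2 * B) * gY a b = 0 := by
    simp only [map_add, map_sub, map_mul, map_pow, map_ofNat, ← hE]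
    linear_combination (aeval (gX a b) D) ^ 2 * h -
      (w * aeval (gX a b) D + (aeval (gX a b) P + aeval (gX a b) Q * gY a b)) * hw
  obtain ⟨h2, h3⟩ := indep a b (g_onE a b) (g_trans a b) _ _ h1
  have h4 : (P ^ 2 - Q ^ 2 * cub a b) ^ 2 = D ^ 4 * (A ^ 2 - B ^ 2 * cub a b) := by
    have e1 : D ^ 2 * A = P ^ 2 + Q ^ 2 * cub a b := by linear_combination -h2
    have e2 : D ^ 2 * B = 2 * P * Q := by linear_combination -h3
    linear_combination -(D ^ 2 * A + P ^ 2 + Q ^ 2 * cub a b) * e1 +
      (D ^ 2 * B + 2 * P * Q) * cub a b * e2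
  have h5 := norm_simple (K := k) a b G x y hz h'
  rw [Algebra.algebraMap_self, Polynomial.map_id] at h5
  have hN0 : A ^ 2 - B ^ 2 * cub a b ≠ 0 := by
    intro h0
    rw [h0] at h5
    simp at h5
  have h6 := congrArg (rootMultiplicity x) h4
  rw [rootMultiplicity_pow', rootMultiplicity_mul (mul_ne_zero (pow_ne_zero _ hD) hN0),
    rootMultiplicity_pow', h5] at h6
  omega

end

end Pool.Agent.J4H11.SC
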