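import Pool.Agent.J4H11.SC.Fam2
import Pool.Agent.J4H11.SC.AbsL
import Pool.Agent.J4H11.GC.Int

/-!
# The local condition for covers with full symmetric monodromy
-/

set_option autoImplicit false

open Polynomial Module Pool.Agent.J4H11.RC Pool.Agent.J4H11.GC Pool.Agent.H901R3.MS WeierstrassCurve

namespace Pool.Agent.J4H11.SC

section
variable {r : ℕ} (i : Fin r) (a b : Fin r → ℤ)

/-- the mean values given by `fam2` -/
def FamP (Φ : (MvPolynomial (Fin r × Fin 2) ℤ)[X]) (d : ℕ) (Ψ0 : MvPolynomial (Bi i) ℤ) (m : ℕ)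
    (Cst : ℝ) (c1 c2 : ℕ) : Prop :=
    ∀ (k : Type) [Field k] [Finite k] [DecidableEq k]
    (x' y' : Bi i → k) (_ : ∀ j, y' j ^ 2 = x' j ^ 3 + ((a j : ℤ) : k) * x' j + ((b j : ℤ) : k)),
    MvPolynomial.aeval x' Ψ0 ≠ 0 → Disc (a i : k) (b i : k) → ∃ S : Finset k, S.card ≤ m ∧
    ∀ (h : Pt (a i : k) (b i : k)), h ≠ 0 → (crd h).1 ∉ S → (crd h).2 ≠ 0 →
    ∀ [Fintype {R : Pt (a i : k) (b i : k) // R ≠ 0 ∧ R + h ≠ 0}]
    (P : {R : Pt (a i : k) (b i : k) // R ≠ 0 ∧ R + h ≠ 0} → Prop) [DecidablePred P],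
    (∀ R, P R → SepAt i Φ x' y' R.1 ∧ SepAt i Φ x' y' (R.1 + h)) →
    |∑ R, (if P R then (((NR i Φ x' y' R.1).descFactorial c1 *
      (NR i Φ x' y' (R.1 + h)).descFactorial c2 : ℕ) : ℝ) else 0) -
      Nat.card k| ≤ Cst * √(Nat.card k : ℝ) +
        (d.descFactorial c1 * d.descFactorial c2 : ℕ) *
          (Finset.univ.filter (fun x => ¬ P x)).card

/-- the points modulo `p` over which the polynomial has a root -/
def symS (Φ : (MvPolynomial (Fin r × Fin 2) ℤ)[X]) (p : ℕ) [Fact p.Prime] :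
    Set ((j : Fin r) → Pt (a j : ZMod p) (b j : ZMod p)) :=
  {Q | ∃ w : ZMod p, (Φ.map (evp (fun j => (crd (Q j)).1) (fun j => (crd (Q j)).2))).IsRoot w}

theorem nr_le {k : Type} [Field k] (Φ : (MvPolynomial (Fin r × Fin 2) ℤ)[X]) (hΦ : Φ.Monic)
    (x' y' : Bi i → k) {a' b' : k} (R : Pt a' b') : NR i Φ x' y' R ≤ Φ.natDegree := by
  classical
  unfold NR
  set g := Φ.map (evp (RC.ext i x' (crd R).1) (RC.ext i y' (crd R).2)) with hg
  have hgm : g.Monic := hΦ.map _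
  have h1 : Nat.card {w : k // g.IsRoot w} ≤ g.roots.toFinset.card := by
    have e : {w : k // g.IsRoot w} ≃ (g.roots.toFinset : Set k) :=
      Equiv.subtypeEquivRight (fun w => by
        rw [Finset.mem_coe, Multiset.mem_toFinset, mem_roots hgm.ne_zero])
    rw [Nat.card_congr e, Nat.card_coe_set_eq, Set.ncard_coe_finset]
  refine h1.trans ((Multiset.toFinset_card_le _).trans ((card_roots' g).trans ?_))
  rw [hg, hΦ.natDegree_map]

theorem asy_loc (c1 c2 c3 c4 κ : ℝ) (h1 : 0 ≤ c1) (h2 : 0 ≤ c2) (h3 : 0 ≤ c3) (hκ : 0 < κ) :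
    ∃ T0 : ℕ, ∀ p : ℕ, T0 ≤ p → ∀ q : ℝ, (p : ℝ) ^ (1 / 2 + κ) ≤ q →
      c3 * √(c1 * p + q * (c2 * √(p : ℝ))) + c4 ≤ q := by
  set η : ℝ := 1 / (2 * c3 + 2) ^ 2 with hη
  have hη0 : 0 < η := by positivity
  have e1 : Filter.Tendsto (fun t : ℕ => (c1 + c2) * (t : ℝ) ^ (-κ)) Filter.atTop
      (nhds ((c1 + c2) * 0)) :=
    ((tendsto_rpow_neg_atTop hκ).comp tendsto_natCast_atTop_atTop).const_mul _
  rw [mul_zero] at e1
  obtain ⟨T1, hT1⟩ := Filter.eventually_atTop.1 (e1.eventually (ge_mem_nhds hη0))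
  refine ⟨max T1 (max 1 (⌈(2 * c4) ^ 2⌉₊)), fun p hp q hq => ?_⟩
  have hp1 : T1 ≤ p := (le_max_left _ _).trans hp
  have hp2 : 1 ≤ p := (le_max_left _ _).trans ((le_max_right _ _).trans hp)
  have hp3 : (2 * c4) ^ 2 ≤ (p : ℝ) := by
    have := (le_max_right _ _).trans ((le_max_right _ _).trans hp)
    exact (Nat.le_ceil _).trans (by exact_mod_cast this)
  have hpR : (1 : ℝ) ≤ p := by exact_mod_cast hp2
  have hp0 : (0 : ℝ) < p := by linarith
  have hq0 : 0 ≤ q := (Real.rpow_nonneg hp0.le _).trans hq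
  set s : ℝ := √(p : ℝ) with hs
  have hs0 : 0 ≤ s := Real.sqrt_nonneg _
  have hs1 : 1 ≤ s := by rw [hs]; exact Real.one_le_sqrt.2 hpR
  have hss : s * s = p := Real.mul_self_sqrt hp0.le
  set u : ℝ := (p : ℝ) ^ (-κ) with hu
  have hu0 : 0 < u := Real.rpow_pos_of_pos hp0 _
  have hu1 : u ≤ 1 := by
    rw [hu]
    exact Real.rpow_le_one_of_one_le_of_nonpos hpR (by linarith)
  have hsq : s ≤ q * u := by
    have h3 : (p : ℝ) ^ (1 / 2 + κ) * u = s := by
      rw [hu, hs, ← Real.rpow_add hp0, Real.sqrt_eq_rpow]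
      congr 1
      ring
    rw [← h3]
    exact mul_le_mul_of_nonneg_right hq hu0.le
  have hsq' : s ≤ q := hsq.trans (by nlinarith)
  have hcu : (c1 + c2) * u ≤ η := hT1 p hp1
  have hin : c1 * p + q * (c2 * s) ≤ (q / (2 * c3 + 2)) ^ 2 := by
    have f1 : (p : ℝ) ≤ q * q * u := by
      calc (p : ℝ) = s * s := hss.symm
        _ ≤ q * (q * u) := mul_le_mul hsq' hsq hs0 hq0
        _ = q * q * u := by ring
    have f2 : q * (c2 * s) ≤ c2 * (q * q * u) := by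
      calc q * (c2 * s) = c2 * (q * s) := by ring
        _ ≤ c2 * (q * (q * u)) := mul_le_mul_of_nonneg_left (mul_le_mul_of_nonneg_left hsq hq0) h2
        _ = _ := by ring
    have f3 : c1 * p ≤ c1 * (q * q * u) := mul_le_mul_of_nonneg_left f1 h1
    have f4 : c1 * p + q * (c2 * s) ≤ η * (q * q) := by
      have f5 : ((c1 + c2) * u) * (q * q) ≤ η * (q * q) :=
        mul_le_mul_of_nonneg_right hcu (mul_nonneg hq0 hq0)
      nlinarith
    refine f4.trans ?_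
    rw [hη, div_pow, div_mul_eq_mul_div, one_mul, ← pow_two]
  have hsqrt : √(c1 * p + q * (c2 * s)) ≤ q / (2 * c3 + 2) := by
    rw [Real.sqrt_le_left (by positivity)]
    exact hin
  have g1 : c3 * √(c1 * p + q * (c2 * s)) ≤ q / 2 := by
    refine (mul_le_mul_of_nonneg_left hsqrt h3).trans ?_
    rw [mul_div_assoc', div_le_div_iff₀ (by positivity) (by positivity)]
    nlinarith
  have g2 : c4 ≤ q / 2 := by
    have : 2 * c4 ≤ s := Real.le_sqrt_of_sq_le hp3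
    linarith
  linarith

end

end Pool.Agent.J4H11.SC
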