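import Pool.Agent.J4H11.SC.LocS

/-!
# The local condition for covers with full symmetric monodromy: the counts
-/

set_option autoImplicit false

open Finset Pool.Agent.J4H11.RC Pool.Agent.J4H11.GC Pool.Agent.H901R3.MS WeierstrassCurve

namespace Pool.Agent.J4H11.SC

section
variable {r : ℕ} (i : Fin r) (a b : Fin r → ℤ)
  (Φ : Polynomial (MvPolynomial (Fin r × Fin 2) ℤ)) (hΦ : Φ.Monic) (d : ℕ) (hd : 2 ≤ d)
  (hΦd : Φ.natDegree = d)
  {p : ℕ} [Fact p.Prime] (x' y' : Bi i → ZMod p)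
  (hxy' : ∀ j, y' j ^ 2 = x' j ^ 3 + ((a j : ℤ) : ZMod p) * x' j + ((b j : ℤ) : ZMod p))
  (hDp : Disc (a i : ZMod p) (b i : ZMod p))
  [Fintype (Pt (a i : ZMod p) (b i : ZMod p))] [DecidableEq (Pt (a i : ZMod p) (b i : ZMod p))]
  (Z : ℕ)

/-- the good points -/
def GoodR (R : Pt (a i : ZMod p) (b i : ZMod p)) : Prop := R ≠ 0 ∧ SepAt i Φ x' y' R

open Classical in
theorem pair_sum (Ψ0 : MvPolynomial (Bi i) ℤ) (m : ℕ) (Cst : ℝ) (c1 c2 : ℕ)
    (hF : FamP i a b Φ d Ψ0 m Cst c1 c2)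
    (hxy' : ∀ j, y' j ^ 2 = x' j ^ 3 + ((a j : ℤ) : ZMod p) * x' j + ((b j : ℤ) : ZMod p))
    (hDp : Disc (a i : ZMod p) (b i : ZMod p))
    (hΨ : MvPolynomial.aeval x' Ψ0 ≠ 0)
    (hZ : (univ.filter (fun R => ¬ GoodR i a b Φ x' y' R)).card ≤ Z) :
    ∃ S : Finset (ZMod p), S.card ≤ m ∧ ∀ h : Pt (a i : ZMod p) (b i : ZMod p), h ≠ 0 →
      (crd h).1 ∉ S → (crd h).2 ≠ 0 →
      |∑ R, Mc (NR i Φ x' y') (GoodR i a b Φ x' y') c1 R *
        Mc (NR i Φ x' y') (GoodR i a b Φ x' y') c2 (R + h) - p| ≤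
        Cst * √(p : ℝ) + (d.descFactorial c1 * d.descFactorial c2 : ℕ) * (2 * Z) := by
  obtain ⟨S, hS, hmain⟩ := hF (ZMod p) x' y' hxy' hΨ hDp
  refine ⟨S, hS, fun h h0 hhS hh2 => ?_⟩
  set I := {R : Pt (a i : ZMod p) (b i : ZMod p) // R ≠ 0 ∧ R + h ≠ 0} with hI
  set P : I → Prop := fun R => SepAt i Φ x' y' R.1 ∧ SepAt i Φ x' y' (R.1 + h) with hP
  have key := hmain h h0 hhS hh2 P (fun R hR => hR)
  rw [Nat.card_zmod] at key
  have e1 : ∀ R : I, (if P R then (((NR i Φ x' y' R.1).descFactorial c1 *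
      (NR i Φ x' y' (R.1 + h)).descFactorial c2 : ℕ) : ℝ) else 0) =
      Mc (NR i Φ x' y') (GoodR i a b Φ x' y') c1 R.1 *
        Mc (NR i Φ x' y') (GoodR i a b Φ x' y') c2 (R.1 + h) := by
    intro R
    unfold Mc
    by_cases g1 : SepAt i Φ x' y' R.1
    · by_cases g2 : SepAt i Φ x' y' (R.1 + h)
      · rw [if_pos ⟨g1, g2⟩, if_pos ⟨R.2.1, g1⟩, if_pos ⟨R.2.2, g2⟩]
        push_cast
        rfl
      · rw [if_neg (fun h => g2 h.2), if_neg (fun h : GoodR i a b Φ x' y' (R.1 + _) => g2 h.2),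
          mul_zero]
    · rw [if_neg (fun h => g1 h.1), if_neg (fun h : GoodR i a b Φ x' y' R.1 => g1 h.2), zero_mul]
  have e2 : ∑ R : I, Mc (NR i Φ x' y') (GoodR i a b Φ x' y') c1 R.1 *
        Mc (NR i Φ x' y') (GoodR i a b Φ x' y') c2 (R.1 + h) =
      ∑ R, Mc (NR i Φ x' y') (GoodR i a b Φ x' y') c1 R *
        Mc (NR i Φ x' y') (GoodR i a b Φ x' y') c2 (R + h) := by
    rw [← Finset.sum_subtype (univ.filter (fun R : Pt (a i : ZMod p) (b i : ZMod p) =>
      R ≠ 0 ∧ R + h ≠ 0)) (fun R => by simp) (fun R => Mc (NR i Φ x' y')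
        (GoodR i a b Φ x' y') c1 R * Mc (NR i Φ x' y') (GoodR i a b Φ x' y') c2 (R + h))]
    rw [Finset.sum_filter]
    refine Finset.sum_congr rfl fun R _ => ?_
    split_ifs with hR
    · rfl
    · unfold Mc
      rw [not_and_or, not_not, not_not] at hR
      rcases hR with hR | hR
      · rw [if_neg (fun h : GoodR i a b Φ x' y' R => h.1 hR), zero_mul]
      · rw [if_neg (fun h : GoodR i a b Φ x' y' (R + _) => h.1 hR), mul_zero]
  rw [Finset.sum_congr rfl fun R _ => e1 R, e2] at key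
  refine key.trans ?_
  apply add_le_add le_rfl
  apply mul_le_mul_of_nonneg_left _ (Nat.cast_nonneg _)
  have e3 : (univ.filter (fun x : I => ¬ P x)).card ≤
      (univ.filter (fun R => ¬ GoodR i a b Φ x' y' R)).card +
      (univ.filter (fun R => ¬ GoodR i a b Φ x' y' (R + h))).card := by
    have e4 : (univ.filter (fun x : I => ¬ P x)).card ≤
        ((univ.filter (fun R => ¬ GoodR i a b Φ x' y' R)) ∪
      (univ.filter (fun R => ¬ GoodR i a b Φ x' y' (R + h)))).card := by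
      refine card_le_card_of_injOn (fun x : I => x.1) ?_ ?_
      · intro x hx
        rw [mem_coe, mem_filter] at hx
        rw [mem_coe, mem_union, mem_filter, mem_filter]
        have hx2 := hx.2
        rw [hP, not_and_or] at hx2
        rcases hx2 with hx2 | hx2
        · exact Or.inl ⟨mem_univ _, fun h => hx2 h.2⟩
        · exact Or.inr ⟨mem_univ _, fun h => hx2 h.2⟩
      · intro x _ y _ h
        exact Subtype.ext h
    exact e4.trans (card_union_le _ _)
  have e5 : (univ.filter (fun R => ¬ GoodR i a b Φ x' y' (R + h))).card ≤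
      (univ.filter (fun R => ¬ GoodR i a b Φ x' y' R)).card := by
    refine card_le_card_of_injOn (fun R => R + h) ?_ ?_
    · intro R hR
      rw [mem_coe, mem_filter] at hR ⊢
      exact ⟨mem_univ _, hR.2⟩
    · intro x _ y _ h
      exact add_right_cancel h
  have e6 : (univ.filter (fun x : I => ¬ P x)).card ≤ 2 * Z := by omega
  exact_mod_cast e6

end

end Pool.Agent.J4H11.SC
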