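import Pool.Agent.J4H11.SC.LocS2

/-!
# The local condition for covers with full symmetric monodromy: one fibre
-/

set_option autoImplicit false

open Finset Pool.Agent.J4H11.RC Pool.Agent.J4H11.GC Pool.Agent.H901R3.MS WeierstrassCurve

namespace Pool.Agent.J4H11.SC

section
variable {r : ℕ} (i : Fin r) (a b : Fin r → ℤ)
  (Φ : Polynomial (MvPolynomial (Fin r × Fin 2) ℤ)) (hΦ : Φ.Monic) (d : ℕ) (hd : 2 ≤ d)
  (hΦd : Φ.natDegree = d)
  {p : ℕ} [Fact p.Prime] (x' y' : Bi i → ZMod p)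
  [Fintype (Pt (a i : ZMod p) (b i : ZMod p))] [DecidableEq (Pt (a i : ZMod p) (b i : ZMod p))]

theorem bad_le {p : ℕ} [Fact p.Prime] {a' b' : ZMod p} [Fintype (Pt a' b')]
    [DecidableEq (Pt a' b')] (_ : Disc a' b') (hp2 : p ≠ 2) (S : Finset (ZMod p)) :
    (univ.filter (fun h : Pt a' b' => h = 0 ∨ (crd h).1 ∈ S ∨ (crd h).2 = 0)).card ≤
      3 * S.card + 5 := by
  classical
  have hsub : univ.filter (fun h : Pt a' b' => h = 0 ∨ (crd h).1 ∈ S ∨ (crd h).2 = 0) ⊆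
      ({0} : Finset (Pt a' b')) ∪ (S.biUnion (fun ξ => univ.filter (fun h => (crd h).1 = ξ)) ∪
        univ.filter (fun h => h + h = 0)) := by
    intro h hh
    rw [mem_filter] at hh
    rw [mem_union, mem_union, mem_singleton, mem_biUnion, mem_filter]
    rcases hh.2 with h1 | h1 | h1
    · exact Or.inl h1
    · exact Or.inr (Or.inl ⟨_, h1, by rw [mem_filter]; exact ⟨mem_univ _, rfl⟩⟩)
    · right
      right
      refine ⟨mem_univ _, ?_⟩
      rcases h with _ | ⟨x, y, hxy⟩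
      · change (0 : Pt a' b') + 0 = 0
        rw [add_zero]
      · change y = 0 at h1
        exact add_opp hxy hxy rfl (by rw [h1, neg_zero])
  have h1 := (card_le_card hsub).trans (card_union_le _ _)
  have h2 := card_union_le (S.biUnion (fun ξ => univ.filter (fun h : Pt a' b' => (crd h).1 = ξ)))
        (univ.filter (fun h : Pt a' b' => h + h = 0))
  have h3 : (S.biUnion (fun ξ => univ.filter (fun h : Pt a' b' => (crd h).1 = ξ))).card ≤
      S.card * 3 := card_biUnion_le_card_mul _ _ _ (fun ξ _ => x_fib ξ)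
  have h4 := card_two (a := a') (b := b') hp2
  rw [card_singleton] at h1
  omega

theorem desc_le (d c : ℕ) (hc : c ≤ 2) (hd : 1 ≤ d) : d.descFactorial c ≤ d ^ 2 :=
  (Nat.descFactorial_le_pow _ _).trans (Nat.pow_le_pow_right hd hc)

open Classical in
include hΦ hd hΦd in
theorem coset_sym (Ψ : Fin 4 → MvPolynomial (Bi i) ℤ) (m : Fin 4 → ℕ) (Cst : Fin 4 → ℝ)
    (hC : ∀ t, 0 ≤ Cst t)
    (hF1 : FamP i a b Φ d (Ψ 0) (m 0) (Cst 0) 1 1) (hF2 : FamP i a b Φ d (Ψ 1) (m 1) (Cst 1) 2 2)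
    (hF3 : FamP i a b Φ d (Ψ 2) (m 2) (Cst 2) 1 0) (hF4 : FamP i a b Φ d (Ψ 3) (m 3) (Cst 3) 2 0)
    (hxy' : ∀ j, y' j ^ 2 = x' j ^ 3 + ((a j : ℤ) : ZMod p) * x' j + ((b j : ℤ) : ZMod p))
    (hDp : Disc (a i : ZMod p) (b i : ZMod p)) (hp2 : p ≠ 2)
    (hΨ : ∀ t, MvPolynomial.aeval x' (Ψ t) ≠ 0) (Z : ℕ)
    (hZ : (univ.filter (fun R => ¬ GoodR i a b Φ x' y' R)).card ≤ Z)
    (hbig : 3 * (m 0 + m 1 + m 2 + m 3) + 5 < Fintype.card (Pt (a i : ZMod p) (b i : ZMod p)))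
    (ε : ℝ) (hε : ε = (Cst 0 + Cst 1 + Cst 2 + Cst 3) * √(p : ℝ) + 3 * (d : ℝ) ^ 4 * Z +
      2 * √(p : ℝ) + 1)
    (H : AddSubgroup (Pt (a i : ZMod p) (b i : ZMod p))) (P0 : Pt (a i : ZMod p) (b i : ZMod p)) :
    (d : ℝ) * ((univ.filter (fun h => h ∈ H ∧ (¬ GoodR i a b Φ x' y' (P0 + h) ∨
        1 ≤ NR i Φ x' y' (P0 + h)))).card : ℝ) ≤
      (d - 1) * (univ.filter (· ∈ H)).card +
      (d + 1) * √(((3 * (m 0 + m 1 + m 2 + m 3) + 5 : ℕ) : ℝ) * (d : ℝ) ^ 4 *
        Fintype.card (Pt (a i : ZMod p) (b i : ZMod p)) +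
        (univ.filter (· ∈ H)).card * (4 * ε)) + d * Z := by
  set N := NR i Φ x' y' (a' := (a i : ZMod p)) (b' := (b i : ZMod p)) with hN
  set good := GoodR i a b Φ x' y' with hgood
  have hs0 : 0 ≤ √(p : ℝ) := Real.sqrt_nonneg _
  have hd1 : (1 : ℝ) ≤ d := by exact_mod_cast (by omega : 1 ≤ d)
  have hNd : ∀ R, good R → N R ≤ d := fun R _ => by
    rw [← hΦd]
    exact nr_le i Φ hΦ x' y' R
  obtain ⟨S1, hS1, k1⟩ := pair_sum i a b Φ d x' y' Z (Ψ 0) (m 0) (Cst 0) 1 1 hF1 hxy' hDp (hΨ 0) hZ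
  obtain ⟨S2, hS2, k2⟩ := pair_sum i a b Φ d x' y' Z (Ψ 1) (m 1) (Cst 1) 2 2 hF2 hxy' hDp (hΨ 1) hZ
  obtain ⟨S3, hS3, k3⟩ := pair_sum i a b Φ d x' y' Z (Ψ 2) (m 2) (Cst 2) 1 0 hF3 hxy' hDp (hΨ 2) hZ
  obtain ⟨S4, hS4, k4⟩ := pair_sum i a b Φ d x' y' Z (Ψ 3) (m 3) (Cst 3) 2 0 hF4 hxy' hDp (hΨ 3) hZ
  set S := (S1 ∪ S2) ∪ (S3 ∪ S4) with hS
  have hScard : S.card ≤ m 0 + m 1 + m 2 + m 3 := by
    have e1 : S.card ≤ (S1 ∪ S2).card + (S3 ∪ S4).card := card_union_le _ _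
    have e2 : (S1 ∪ S2).card ≤ S1.card + S2.card := card_union_le _ _
    have e3 : (S3 ∪ S4).card ≤ S3.card + S4.card := card_union_le _ _
    omega
  set Bad := univ.filter (fun h : Pt (a i : ZMod p) (b i : ZMod p) =>
    h = 0 ∨ (crd h).1 ∈ S ∨ (crd h).2 = 0) with hBad
  have hBadc : Bad.card ≤ 3 * (m 0 + m 1 + m 2 + m 3) + 5 := by
    have h5 : Bad.card ≤ 3 * S.card + 5 := by
      convert bad_le hDp hp2 S
    omega
  have hnb : ∀ h, h ∉ Bad → h ≠ 0 ∧ (crd h).1 ∉ S ∧ (crd h).2 ≠ 0 := by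
    intro h hh
    rw [hBad, mem_filter, not_and] at hh
    have := hh (mem_univ _)
    rw [not_or, not_or] at this
    exact this
  have hm1 : ∀ z, z ∉ S → z ∉ S1 := fun z hz h => hz (by simp [hS, h])
  have hm2 : ∀ z, z ∉ S → z ∉ S2 := fun z hz h => hz (by simp [hS, h])
  have hm3 : ∀ z, z ∉ S → z ∉ S3 := fun z hz h => hz (by simp [hS, h])
  have hm4 : ∀ z, z ∉ S → z ∉ S4 := fun z hz h => hz (by simp [hS, h])
  have hdd : ∀ c c' : ℕ, c ≤ 2 → c' ≤ 2 →
      ((d.descFactorial c * d.descFactorial c' : ℕ) : ℝ) * (2 * Z) ≤ 2 * (d : ℝ) ^ 4 * Z := by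
    intro c c' hc hc'
    have e1 : d.descFactorial c * d.descFactorial c' ≤ d ^ 2 * d ^ 2 :=
      Nat.mul_le_mul (desc_le d c hc (by omega)) (desc_le d c' hc' (by omega))
    have e2 : ((d.descFactorial c * d.descFactorial c' : ℕ) : ℝ) ≤ (d : ℝ) ^ 4 := by
      have e3 : d ^ 2 * d ^ 2 = d ^ 4 := by ring
      rw [e3] at e1
      exact_mod_cast e1
    have hZ0 : (0 : ℝ) ≤ 2 * Z := by positivity
    calc _ ≤ (d : ℝ) ^ 4 * (2 * Z) := mul_le_mul_of_nonneg_right e2 hZ0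
      _ = _ := by ring
  have hC0 := hC 0
  have hC1 := hC 1
  have hC2 := hC 2
  have hC3 := hC 3
  have hZn : (0 : ℝ) ≤ (d : ℝ) ^ 4 * Z := by positivity
  have hCs : ∀ t : Fin 4, Cst t * √(p : ℝ) ≤ (Cst 0 + Cst 1 + Cst 2 + Cst 3) * √(p : ℝ) := by
    intro t
    apply mul_le_mul_of_nonneg_right _ hs0
    fin_cases t <;> simp only [Fin.zero_eta, Fin.mk_one, Fin.reduceFinMk] <;> linarith
  have hε0 : 0 ≤ ε := by
    rw [hε]
    have : 0 ≤ (Cst 0 + Cst 1 + Cst 2 + Cst 3) * √(p : ℝ) := by positivity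
    nlinarith
  -- the correlations
  have h1 : ∀ c, c = 1 ∨ c = 2 → ∀ h, h ∉ Bad →
      |∑ R, Mc N good c R * Mc N good c (R + h) - p| ≤ ε := by
    rintro c (rfl | rfl) h hh
    · obtain ⟨g1, g2, g3⟩ := hnb h hh
      refine (k1 h g1 (hm1 _ g2) g3).trans ?_
      have := hdd 1 1 (by norm_num) (by norm_num)
      have := hCs 0
      rw [hε]
      linarith
    · obtain ⟨g1, g2, g3⟩ := hnb h hh
      refine (k2 h g1 (hm2 _ g2) g3).trans ?_
      have := hdd 2 2 (by norm_num) (by norm_num)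
      have := hCs 1
      rw [hε]
      linarith
  -- the mean
  obtain ⟨h0, hh0⟩ : ∃ h0, h0 ∉ Bad := by
    by_contra hcon
    push Not at hcon
    have : Bad = univ := by ext h; simp [hcon h]
    rw [this, card_univ] at hBadc
    omega
  obtain ⟨g1, g2, g3⟩ := hnb h0 hh0
  have hmean : ∀ c, c = 1 ∨ c = 2 →
      |∑ R, Mc N good c R - ∑ R, Mc N good c R * Mc N good 0 (R + h0)| ≤ (d : ℝ) ^ 4 * Z := by
    intro c hc
    rw [← sum_sub_distrib]
    refine (abs_sum_le_sum_abs _ _).trans ?_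
    have e1 : ∀ R ∈ (univ : Finset (Pt (a i : ZMod p) (b i : ZMod p))),
        |Mc N good c R - Mc N good c R * Mc N good 0 (R + h0)| ≤
        (d : ℝ) ^ 4 * (if ¬ good (R + h0) then 1 else 0) := by
      intro R _
      by_cases hg : good (R + h0)
      · have e2 : Mc N good 0 (R + h0) = 1 := by
          unfold Mc
          rw [if_pos hg, Nat.descFactorial_zero, Nat.cast_one]
        rw [e2, mul_one, sub_self, abs_zero, if_neg (not_not.2 hg), mul_zero]
      · have e2 : Mc N good 0 (R + h0) = 0 := by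
          unfold Mc
          rw [if_neg hg]
        rw [e2, mul_zero, sub_zero, if_pos hg, mul_one]
        unfold Mc
        split_ifs with hgR
        · rw [Nat.abs_cast]
          have e3 : (N R).descFactorial c ≤ d ^ 4 := by
            refine (Nat.descFactorial_le_pow _ _).trans ?_
            refine (Nat.pow_le_pow_left (hNd R hgR) c).trans ?_
            exact Nat.pow_le_pow_right (by omega) (by omega)
          exact_mod_cast e3
        · rw [abs_zero]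
          positivity
    refine (sum_le_sum e1).trans ?_
    rw [← mul_sum, ← sum_filter, sum_const, nsmul_eq_mul, mul_one]
    apply mul_le_mul_of_nonneg_left _ (by positivity)
    have e5 : (univ.filter (fun R => ¬ good (R + h0))).card ≤
        (univ.filter (fun R => ¬ good R)).card := by
      refine card_le_card_of_injOn (fun R => R + h0) ?_ ?_
      · intro R hR
        rw [mem_coe, mem_filter] at hR ⊢
        exact ⟨mem_univ _, hR.2⟩
      · intro x _ y _ h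
        exact add_right_cancel h
    exact_mod_cast e5.trans hZ
  have h2 : ∀ c, c = 1 ∨ c = 2 → |∑ R, Mc N good c R - p| ≤ ε := by
    intro c hc
    have f1 := hmean c hc
    have f2 : |∑ R, Mc N good c R * Mc N good 0 (R + h0) - p| ≤
        (Cst 0 + Cst 1 + Cst 2 + Cst 3) * √(p : ℝ) + 2 * (d : ℝ) ^ 4 * Z := by
      rcases hc with rfl | rfl
      · refine (k3 h0 g1 (hm3 _ g2) g3).trans ?_
        have := hdd 1 0 (by norm_num) (by norm_num)
        have := hCs 2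
        linarith
      · refine (k4 h0 g1 (hm4 _ g2) g3).trans ?_
        have := hdd 2 0 (by norm_num) (by norm_num)
        have := hCs 3
        linarith
    have f3 := abs_sub_le (∑ R, Mc N good c R) (∑ R, Mc N good c R * Mc N good 0 (R + h0)) (p : ℝ)
    rw [hε]
    linarith
  have h3 : |(Fintype.card (Pt (a i : ZMod p) (b i : ZMod p)) : ℝ) - p| ≤ ε := by
    have f1 := abs_le.1 (hasse hDp hp2)
    rw [Nat.card_eq_fintype_card] at f1
    have f2 : 0 ≤ (Cst 0 + Cst 1 + Cst 2 + Cst 3) * √(p : ℝ) := by positivity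
    rw [abs_le, hε]
    constructor
    · nlinarith [f1.1]
    · nlinarith [f1.2]
  exact loc_abs N good d hd hNd (p : ℝ) ε _ Z hε0 Bad (by exact_mod_cast hBadc) h1 h2 h3
    (by exact_mod_cast hZ) H P0

end

end Pool.Agent.J4H11.SC
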