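import Pool.Agent.J4H11.SC.Lam

/-!
# The product of the values of a function at a point and at its translate is not a square
-/

set_option autoImplicit false

open Polynomial Module Pool.Agent.J4H11.RC Pool.Agent.H901R3.MS WeierstrassCurve

namespace Pool.Agent.J4H11.SC

section
variable {k : Type} [Field k] (a b : k)

theorem ns_two (Δ : MvPolynomial (Fin 2) k) (xh yh : k) (hh : yh ^ 2 = xh ^ 3 + a * xh + b)
    (xV yV : k) (hz : SimpleZero a b Δ xV yV) (x' y' : k) (hE : y' ^ 2 = x' ^ 3 + a * x' + b)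
    (hne : x' ≠ xh) (hxV : xV = ((y' - yh) / (x' - xh)) ^ 2 - x' - xh)
    (hyV : yV = -((y' - yh) / (x' - xh) * (xV - x') + y'))
    (h1 : MvPolynomial.aeval ![x', y'] Δ ≠ 0) (h2 : MvPolynomial.aeval ![x', -y'] Δ ≠ 0)
    (x4 y4 : k) (hx4 : x4 = ((-y' - yh) / (x' - xh)) ^ 2 - x' - xh)
    (hy4 : y4 = -((-y' - yh) / (x' - xh) * (x4 - x') + -y'))
    (h4 : MvPolynomial.aeval ![x4, y4] Δ ≠ 0) (l X2 Y2 : FFd a b)
    (hl : l * (gX a b - algebraMap k _ xh) = gY a b - algebraMap k _ yh)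
    (hX2 : X2 = l ^ 2 - gX a b - algebraMap k _ xh)
    (hY2 : Y2 = -(algebraMap k _ yh + l * (X2 - algebraMap k _ xh))) (w : FFd a b) :
    w ^ 2 ≠ MvPolynomial.aeval ![gX a b, gY a b] Δ * MvPolynomial.aeval ![X2, Y2] Δ := by
  intro hw
  set M := 3 * Δ.totalDegree with hM
  set T := trans xh yh (2 * M) Δ with hT
  have hMT : 3 * Δ.totalDegree ≤ 2 * M := by omega
  have hne' : x' ≠ algebraMap k k xh := hne
  have hsz : SimpleZero a b T x' y' :=
    simpleZero_trans a b xh yh x' y' xV yV hne' hE hh hxV hyV (2 * M) Δ hMT hz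
  have hsz2 : SimpleZero a b (Δ ^ 1 * T) x' y' := simpleZero_mul a b Δ T 1 x' y' hsz h1
  have h' : MvPolynomial.aeval ![x', -y'] (Δ ^ 1 * T) ≠ 0 := by
    rw [map_mul, pow_one]
    refine mul_ne_zero h2 ?_
    rw [hT, trans_at xh yh x' (-y') x4 y4 hne' hx4 hy4 (2 * M) Δ hMT]
    exact mul_ne_zero (pow_ne_zero _ (sub_ne_zero.2 hne')) h4
  have hXne : gX a b ≠ algebraMap k _ xh := ne_of_trans (g_trans a b) xh
  have hu : gX a b - algebraMap k (FFd a b) xh ≠ 0 := sub_ne_zero.2 hXne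
  have hl' : l = (gY a b - algebraMap k _ yh) / (gX a b - algebraMap k _ xh) := by
    rw [eq_div_iff hu]
    exact hl
  apply ns_one a b (Δ ^ 1 * T) x' y' hsz2 h' (w * (gX a b - algebraMap k _ xh) ^ M)
  rw [map_mul, pow_one, hT, trans_at xh yh (gX a b) (gY a b) X2 Y2 hXne
    (by rw [← hl']; exact hX2) (by
      rw [← hl', hY2]
      linear_combination -hl) (2 * M) Δ hMT, mul_pow, hw]
  ring

end

end Pool.Agent.J4H11.SC
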